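import Pool.Agent.KneserBridge.Defs

/-!
# The concrete test data

`phi = conc m δ`, `a = cut 0 δ` from `Pool.Agent.Kneser.Concrete` with `δ = dl k = 1 / (k + 1)`.
-/

set_option autoImplicit false
set_option linter.unusedSectionVars false

namespace Pool.Agent.KneserBridge

open MeasureTheory Set Filter Topology
open scoped InnerProductSpace
open Pool.Agent.Kneser

private theorem bounded_of_compact {f : ℝ → ℝ} (hf : Continuous f) (a b : ℝ)
    (h0 : ∀ v, v < a ∨ b < v → f v = 0) : ∃ C : ℝ, 0 ≤ C ∧ ∀ v, |f v| ≤ C := by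
  obtain ⟨C, hC⟩ := (isCompact_Icc (a := a) (b := b)).exists_bound_of_continuousOn hf.continuousOn
  refine ⟨max C 0, le_max_right _ _, fun v => ?_⟩
  by_cases h : v ∈ Icc a b
  · exact (Real.norm_eq_abs _ ▸ hC v h).trans (le_max_left _ _)
  · rw [h0 v (by
      rcases not_and_or.mp h with h | h
      · exact Or.inl (not_le.mp h)
      · exact Or.inr (not_le.mp h)), abs_zero]
    exact le_max_right _ _

private theorem st_contDiff1 : ContDiff ℝ 1 (deriv Real.smoothTransition) :=
  ((Real.smoothTransition.contDiff (n := 2)).of_le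
    (by norm_num : (1 + 1 : WithTop ℕ∞) ≤ 2)).deriv'

private theorem st_zero {y : ℝ} (h : y < 0 ∨ 1 < y) : deriv Real.smoothTransition y = 0 := by
  rcases h with h | h
  · have : Real.smoothTransition =ᶠ[𝓝 y] fun _ => 0 := by
      filter_upwards [Iio_mem_nhds h] with v hv
      exact Real.smoothTransition.zero_of_nonpos (le_of_lt hv)
    rw [this.deriv_eq]; simp
  · have : Real.smoothTransition =ᶠ[𝓝 y] fun _ => 1 := by
      filter_upwards [Ioi_mem_nhds h] with v hv
      exact Real.smoothTransition.one_of_one_le (le_of_lt hv)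
    rw [this.deriv_eq]; simp

private theorem st_zero' {y : ℝ} (h : y ≤ 0 ∨ 1 ≤ y) : deriv Real.smoothTransition y = 0 := by
  have hc : Continuous (deriv Real.smoothTransition) := st_contDiff1.continuous
  rcases h with h | h
  · rcases h.lt_or_eq with h | h
    · exact st_zero (Or.inl h)
    · subst h
      have h1 : Tendsto (deriv Real.smoothTransition) (𝓝[<] 0)
          (𝓝 (deriv Real.smoothTransition 0)) := hc.continuousAt.mono_left nhdsWithin_le_nhds
      have h2 : Tendsto (deriv Real.smoothTransition) (𝓝[<] 0) (𝓝 0) :=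
        tendsto_const_nhds.congr' (by
          filter_upwards [self_mem_nhdsWithin] with v hv
          exact (st_zero (Or.inl hv)).symm)
      exact tendsto_nhds_unique h1 h2
  · rcases h.lt_or_eq with h | h
    · exact st_zero (Or.inr h)
    · subst h
      have h1 : Tendsto (deriv Real.smoothTransition) (𝓝[>] 1)
          (𝓝 (deriv Real.smoothTransition 1)) := hc.continuousAt.mono_left nhdsWithin_le_nhds
      have h2 : Tendsto (deriv Real.smoothTransition) (𝓝[>] 1) (𝓝 0) :=
        tendsto_const_nhds.congr' (by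
          filter_upwards [self_mem_nhdsWithin] with v hv
          exact (st_zero (Or.inr hv)).symm)
      exact tendsto_nhds_unique h1 h2

private theorem deriv_cut {δ : ℝ} (v : ℝ) :
    deriv (cut 0 δ) v = -(1 / δ) * deriv Real.smoothTransition ((0 + δ - v) / δ) := by
  have h1 : HasDerivAt (fun v : ℝ => (0 + δ - v) / δ) (-(1 / δ)) v := by
    have := ((hasDerivAt_id v).const_sub (0 + δ)).div_const δ
    exact this.congr_deriv (by ring)
  have h2 : HasDerivAt Real.smoothTransition
      (deriv Real.smoothTransition ((0 + δ - v) / δ)) ((0 + δ - v) / δ) :=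
    ((Real.smoothTransition.contDiff (n := 1)).differentiable (by norm_num) _).hasDerivAt
  have h3 := h2.comp v h1
  have h4 : cut 0 δ = Real.smoothTransition ∘ fun v : ℝ => (0 + δ - v) / δ := rfl
  rw [h4, h3.deriv]
  ring

private theorem deriv_cut_zero {δ : ℝ} (hδ : 0 < δ) {v : ℝ} (h : v ≤ 0 ∨ δ ≤ v) :
    deriv (cut 0 δ) v = 0 := by
  rw [deriv_cut, st_zero', mul_zero]
  rcases h with h | h
  · right
    rw [le_div_iff₀ hδ]; linarith
  · left
    exact div_nonpos_of_nonpos_of_nonneg (by linarith) hδ.le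

private theorem deriv2_cut_zero {δ : ℝ} (hδ : 0 < δ) {v : ℝ} (h : v < 0 ∨ δ < v) :
    deriv (deriv (cut 0 δ)) v = 0 := by
  have : deriv (cut 0 δ) =ᶠ[𝓝 v] fun _ => 0 := by
    rcases h with h | h
    · filter_upwards [Iio_mem_nhds h] with u hu
      exact deriv_cut_zero hδ (Or.inl (le_of_lt hu))
    · filter_upwards [Ioi_mem_nhds h] with u hu
      exact deriv_cut_zero hδ (Or.inr (le_of_lt hu))
  rw [this.deriv_eq]; simp

private theorem abs_concD (m : ℝ) {δ : ℝ} (hδ : 0 < δ) (s : ℝ) : |concD m δ s| ≤ 2 := by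
  unfold concD
  have hpos : 0 < (s - m) ^ 2 + δ ^ 2 := by positivity
  have hr : 0 < √((s - m) ^ 2 + δ ^ 2) := Real.sqrt_pos.mpr hpos
  have h1 : |(s - m) / √((s - m) ^ 2 + δ ^ 2)| ≤ 1 := by
    rw [abs_div, abs_of_pos hr, div_le_one hr]
    apply Real.abs_le_sqrt
    nlinarith [sq_nonneg δ]
  have h2 := abs_le.mp h1
  rw [abs_le]
  constructor <;> linarith [h2.1, h2.2]

private theorem abs_concDD (m : ℝ) {δ : ℝ} (hδ : 0 < δ) (s : ℝ) :
    |concDD m δ s| ≤ 1 / δ := by
  unfold concDD
  have hpos : 0 < (s - m) ^ 2 + δ ^ 2 := by positivity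
  have hr : δ ≤ √((s - m) ^ 2 + δ ^ 2) := by
    apply Real.le_sqrt_of_sq_le
    nlinarith [sq_nonneg (s - m)]
  have hr0 : 0 < √((s - m) ^ 2 + δ ^ 2) := hδ.trans_le hr
  rw [abs_neg, abs_of_nonneg (by positivity), div_le_div_iff₀ (by positivity) hδ, one_mul]
  have h1 : δ ^ 2 ≤ (s - m) ^ 2 + δ ^ 2 := by nlinarith [sq_nonneg (s - m)]
  exact mul_le_mul h1 hr hδ.le hpos.le

/-- The concrete data exist. -/
theorem exists_dat : ∃ C0 : ℝ, 0 ≤ C0 ∧ ∀ (m : ℝ) (k : ℕ), ∃ D : Dat,
    D.phi = conc m (dl k) ∧ D.a = cut 0 (dl k) ∧ (∀ s, |D.k s| ≤ 2) ∧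
      (∀ v, |v * D.b v| ≤ C0) ∧ ∀ v, v ≤ 0 ∨ dl k ≤ v → D.b v = 0 := by
  obtain ⟨C0, hC0, hb0⟩ := bounded_of_compact st_contDiff1.continuous 0 1 fun v hv => st_zero hv
  refine ⟨C0, hC0, fun m k => ?_⟩
  have hδ := dl_pos k
  have hδ1 := dl_le_one k
  set δ := dl k with hδdef
  have hcd1 : ContDiff ℝ 1 (deriv (cut 0 δ)) :=
    ((cut_contDiff 0 δ).of_le (by norm_num : (1 + 1 : WithTop ℕ∞) ≤ 2)).deriv'
  obtain ⟨C2, hC2, hb2⟩ := bounded_of_compact (hcd1.continuous_deriv (by norm_num)) 0 δ
    fun v hv => deriv2_cut_zero hδ hv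
  have hb1 : ∀ v, |deriv (cut 0 δ) v| ≤ C0 / δ := fun v => by
    rw [deriv_cut, abs_mul, abs_neg, abs_of_pos (by positivity : 0 < 1 / δ)]
    calc 1 / δ * |deriv Real.smoothTransition ((0 + δ - v) / δ)| ≤ 1 / δ * C0 := by
          gcongr
          exact hb0 _
      _ = C0 / δ := by ring
  refine ⟨{ phi := conc m δ, k := concD m δ, k' := concDD m δ, a := cut 0 δ,
            b := deriv (cut 0 δ), b' := deriv (deriv (cut 0 δ)),
            K := 2 + 1 / δ + C0 / δ + C2,
            hphi := hasDerivAt_conc m hδ, phi0 := conc_zero m δ, hk := hasDerivAt_concD m hδ,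
            ck' := continuous_concDD m hδ,
            k'neg := fun s => ?_,
            ha := fun v => ((cut_contDiff 0 δ).differentiable (by norm_num) v).hasDerivAt,
            hb := fun v => (hcd1.differentiable (by norm_num) v).hasDerivAt,
            cb' := hcd1.continuous_deriv (by norm_num),
            bneg := fun v => (cut_antitone 0 hδ).deriv_nonpos,
            a_nonneg := fun v => cut_nonneg _ _ _,
            a_le_one := fun v => cut_le_one _ _ _,
            a_zero := fun v hv => cut_eq_zero hδ (by linarith),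
            b_zero := fun v hv => deriv_cut_zero hδ (Or.inr (by linarith)),
            b'_zero := fun v hv => deriv2_cut_zero hδ (Or.inr (by linarith)),
            bk := fun s => ?_, bk' := fun s => ?_, bb := fun v => ?_, bb' := fun v => ?_ },
    rfl, rfl, fun s => abs_concD m hδ s, fun v => ?_, fun v hv => deriv_cut_zero hδ hv⟩
  · unfold concDD
    have hpos : 0 < (s - m) ^ 2 + δ ^ 2 := by positivity
    have := Real.sqrt_pos.mpr hpos
    rw [neg_nonpos]
    positivity
  · have h1 := abs_concD m hδ s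
    have h2 : 0 ≤ 1 / δ + C0 / δ + C2 := by positivity
    linarith
  · have h1 := abs_concDD m hδ s
    have h2 : 0 ≤ C0 / δ + C2 := by positivity
    linarith
  · have h1 := hb1 v
    have h2 : 0 ≤ 1 / δ + C2 := by positivity
    linarith
  · have h1 := hb2 v
    have h2 : 0 ≤ 1 / δ + C0 / δ := by positivity
    linarith
  · change |v * deriv (cut 0 δ) v| ≤ C0
    by_cases hv : v ≤ 0 ∨ δ ≤ v
    · rw [deriv_cut_zero hδ hv, mul_zero, abs_zero]
      exact hC0
    · push Not at hv
      rw [abs_mul, abs_of_pos hv.1]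
      calc v * |deriv (cut 0 δ) v| ≤ δ * (C0 / δ) := by
            gcongr
            · exact hv.2.le
            · exact hb1 v
        _ = C0 := by field_simp

end Pool.Agent.KneserBridge
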