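import Pool.Agent.KneserBridge.Defs

/-!
# The constant

PROOF. `∫ exp (-‖Z‖²) = π ^ (d/2)` and `∫ ‖Z‖² exp (-‖Z‖²) = (d/2) π ^ (d/2)` (sum over the
coordinates with an orthonormal basis, or integrate by parts, or derivative of
`∫ exp (-c ‖Z‖²) = (π / c) ^ (d/2)` at `c = 1`). So `cc = (d / 2) * (∫_E exp) * (∫_H exp)` by
`integral_prod_mul`, positive. An alternative for the second integral: for a unit vector `b k`
integrate the line derivative of `⟪Z, b k⟫ exp (-‖Z‖²)` in the direction `b k`, get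
`∫ exp (-‖Z‖²) = 2 ∫ ⟪Z, b k⟫² exp (-‖Z‖²)`, and sum over `k`. (Here: polar coordinates and the
Gamma function.)
-/

set_option autoImplicit false
set_option linter.unusedSectionVars false

namespace Pool.Agent.KneserBridge

open MeasureTheory Set Filter Topology
open scoped InnerProductSpace

variable {E H : Type*} [NormedAddCommGroup E] [InnerProductSpace ℝ E] [FiniteDimensional ℝ E]
  [MeasurableSpace E] [BorelSpace E] [NormedAddCommGroup H] [InnerProductSpace ℝ H]
  [FiniteDimensional ℝ H] [MeasurableSpace H] [BorelSpace H] {n : ℕ}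

variable (E H) in
/-- The constant `∫ (d - ‖Z‖²) exp (-‖Z‖² - ‖Y‖²)`. -/
noncomputable def cc : ℝ :=
  ∫ u : E × H, ((Module.finrank ℝ E : ℝ) - ‖u.1‖ ^ 2) * Real.exp (-(‖u.1‖ ^ 2 + ‖u.2‖ ^ 2))

private theorem constC_radial (d : ℕ) (hd : 0 < d) :
    0 < ∫ y in Ioi (0 : ℝ), y ^ (d - 1) • (((d : ℝ) - y ^ 2) * Real.exp (-(y ^ 2))) := by
  have hd1 : (1 : ℝ) ≤ d := by exact_mod_cast hd
  have e1 := integral_rpow_mul_exp_neg_rpow (p := 2) (q := (d : ℝ) - 1) two_pos (by linarith)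
  have e2 := integral_rpow_mul_exp_neg_rpow (p := 2) (q := (d : ℝ) + 1) two_pos (by linarith)
  have i1 := integrableOn_rpow_mul_exp_neg_rpow (p := 2) (s := (d : ℝ) - 1) (by linarith)
    two_pos
  have i2 := integrableOn_rpow_mul_exp_neg_rpow (p := 2) (s := (d : ℝ) + 1) (by linarith)
    two_pos
  have hcongr : ∫ y in Ioi (0 : ℝ), y ^ (d - 1) • (((d : ℝ) - y ^ 2) * Real.exp (-(y ^ 2)))
      = ∫ y in Ioi (0 : ℝ), ((d : ℝ) * (y ^ ((d : ℝ) - 1) * Real.exp (-y ^ (2 : ℝ))) -
        y ^ ((d : ℝ) + 1) * Real.exp (-y ^ (2 : ℝ))) := by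
    refine setIntegral_congr_fun measurableSet_Ioi fun y hy => ?_
    have hy0 : (0 : ℝ) < y := hy
    have h1 : y ^ ((d : ℝ) - 1) = y ^ (d - 1) := by
      rw [← Real.rpow_natCast y (d - 1), Nat.cast_sub hd, Nat.cast_one]
    have h2 : y ^ ((d : ℝ) + 1) = y ^ (d - 1) * y ^ 2 := by
      have : (d : ℝ) + 1 = ((d - 1 + 2 : ℕ) : ℝ) := by
        have : d - 1 + 2 = d + 1 := by omega
        rw [this]; push_cast; ring
      rw [this, Real.rpow_natCast, pow_add]
    have h3 : y ^ (2 : ℝ) = y ^ 2 := by exact_mod_cast Real.rpow_natCast y 2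
    simp only [smul_eq_mul, h1, h2, h3]
    ring
  rw [hcongr, integral_sub (i1.const_mul _) i2, integral_const_mul, e1, e2]
  have hG : 0 < Real.Gamma ((d : ℝ) / 2) := Real.Gamma_pos_of_pos (by linarith)
  have h4 : ((d : ℝ) - 1 + 1) / 2 = (d : ℝ) / 2 := by ring
  have h5 : ((d : ℝ) + 1 + 1) / 2 = (d : ℝ) / 2 + 1 := by ring
  rw [h4, h5, Real.Gamma_add_one (by positivity)]
  have : 0 < (d : ℝ) * Real.Gamma ((d : ℝ) / 2) := by positivity
  nlinarith

theorem cc_pos [Nontrivial E] : 0 < cc E H := by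
  have hprod : cc E H = (∫ z : E, ((Module.finrank ℝ E : ℝ) - ‖z‖ ^ 2) * Real.exp (-(‖z‖ ^ 2)))
      * ∫ y : H, Real.exp (-(‖y‖ ^ 2)) := by
    unfold cc
    rw [← integral_prod_mul, ← Measure.volume_eq_prod]
    refine integral_congr_ae (Eventually.of_forall fun u => ?_)
    simp only
    rw [mul_assoc, ← Real.exp_add]
    congr 2
    ring
  have hH : 0 < ∫ y : H, Real.exp (-(‖y‖ ^ 2)) := by
    have := GaussianFourier.integral_rexp_neg_mul_sq_norm (V := H) (b := 1) one_pos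
    have e : ∫ y : H, Real.exp (-(‖y‖ ^ 2)) = ∫ y : H, Real.exp (-1 * ‖y‖ ^ 2) := by
      refine integral_congr_ae (Eventually.of_forall fun u => ?_)
      simp only [neg_mul, one_mul]
    rw [e, this]
    positivity
  have hE : 0 < ∫ z : E, ((Module.finrank ℝ E : ℝ) - ‖z‖ ^ 2) * Real.exp (-(‖z‖ ^ 2)) := by
    have h := integral_fun_norm_addHaar (volume : Measure E)
      (fun y : ℝ => ((Module.finrank ℝ E : ℝ) - y ^ 2) * Real.exp (-(y ^ 2)))
    have hd : 0 < Module.finrank ℝ E := Module.finrank_pos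
    rw [h, nsmul_eq_mul, smul_eq_mul]
    have hb : 0 < (volume : Measure E).real (Metric.ball 0 1) := by
      rw [measureReal_def]
      exact ENNReal.toReal_pos (Metric.measure_ball_pos _ _ one_pos).ne'
        measure_ball_lt_top.ne
    have := constC_radial _ hd
    positivity
  rw [hprod]
  positivity

end Pool.Agent.KneserBridge
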