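import Pool.Agent.KneserBridge.Final

/-!
# Consequences of the bridge theorem

`cor_mixed`: all radii with `ρ i ^ 2 = t ‖p i - a‖ ^ 2 + (1 - t) ‖q i - b‖ ^ 2 + κ`, `0 ≤ t ≤ 1`,
`0 ≤ κ`. Special cases: all spheres of one system pass through one point; congruent balls with
centres on a sphere whose radius is at most the common radius of the balls.

`cor_uniform`: uniform contractions of congruent balls.

`cor_lipschitz`: congruent balls of radius `ρ ≥ s M / √(1 - s ^ 2)` when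
`dist (q i) (q j) ≤ s * dist (p i) (p j)`, `s < 1`, and the `p i` lie in a ball of radius `M`.
-/

set_option autoImplicit false

namespace Pool.Agent.KneserBridge

open MeasureTheory Set Filter Topology
open scoped InnerProductSpace
open Pool.Agent.Kneser

variable {d n : ℕ}

/-- The weighted inequality for `q`, `p`, `ρ`, `τ`. -/
def Holds (p q : Fin n → EuclideanSpace ℝ (Fin d)) (ρ τ : Fin n → ℝ) : Prop :=
  ∑ k : Fin n, τ k * (volume {x | k.val + 1 ≤ num q ρ x}).toReal ≤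
    ∑ k : Fin n, τ k * (volume {x | k.val + 1 ≤ num p ρ x}).toReal

/-- The auxiliary configuration of `cor_mixed`. -/
private noncomputable def mix (p q : Fin n → EuclideanSpace ℝ (Fin d))
    (a b : EuclideanSpace ℝ (Fin d)) (s t κ : ℝ) (i : Fin n) :
    EuclideanSpace ℝ (Fin d ⊕ (Fin d ⊕ Unit)) :=
  WithLp.toLp 2 (Sum.elim (fun k => s * (p i - a) k)
    (Sum.elim (fun k => t * (q i - b) k) (fun _ => κ)))

private theorem norm_sq_toLp {ι : Type*} [Fintype ι] (f : ι → ℝ) :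
    ‖(WithLp.toLp 2 f : EuclideanSpace ℝ ι)‖ ^ 2 = ∑ i, f i ^ 2 := by
  rw [EuclideanSpace.norm_sq_eq]
  simp

private theorem norm_sq_mix (p q : Fin n → EuclideanSpace ℝ (Fin d))
    (a b : EuclideanSpace ℝ (Fin d)) (s t κ : ℝ) (i : Fin n) :
    ‖mix p q a b s t κ i‖ ^ 2 = s ^ 2 * ‖p i - a‖ ^ 2 + t ^ 2 * ‖q i - b‖ ^ 2 + κ ^ 2 := by
  unfold mix
  rw [norm_sq_toLp, EuclideanSpace.norm_sq_eq, EuclideanSpace.norm_sq_eq]
  simp only [Fintype.sum_sum_type, Sum.elim_inl, Sum.elim_inr, mul_pow, Finset.mul_sum,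
    Real.norm_eq_abs, sq_abs]
  simp [add_assoc]

private theorem mix_sub (p q : Fin n → EuclideanSpace ℝ (Fin d))
    (a b : EuclideanSpace ℝ (Fin d)) (s t κ : ℝ) (i j : Fin n) :
    ‖mix p q a b s t κ i - mix p q a b s t κ j‖ ^ 2 =
      s ^ 2 * ‖p i - p j‖ ^ 2 + t ^ 2 * ‖q i - q j‖ ^ 2 := by
  unfold mix
  rw [← WithLp.toLp_sub, norm_sq_toLp, EuclideanSpace.norm_sq_eq, EuclideanSpace.norm_sq_eq]
  simp only [Fintype.sum_sum_type, Sum.elim_inl, Sum.elim_inr, Finset.mul_sum,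
    Real.norm_eq_abs, sq_abs, Pi.sub_apply]
  congr 1
  · refine Finset.sum_congr rfl fun k _ => ?_
    simp only [PiLp.sub_apply]
    ring
  · simp only [sub_self, ne_eq, OfNat.ofNat_ne_zero, not_false_eq_true, zero_pow,
      Finset.sum_const_zero, add_zero]
    refine Finset.sum_congr rfl fun k _ => ?_
    simp only [PiLp.sub_apply]
    ring

theorem cor_mixed (p q : Fin n → EuclideanSpace ℝ (Fin d)) (a b : EuclideanSpace ℝ (Fin d))
    (t κ : ℝ) (ht0 : 0 ≤ t) (ht1 : t ≤ 1) (hκ : 0 ≤ κ) (ρ τ : Fin n → ℝ) (hρ0 : ∀ i, 0 ≤ ρ i)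
    (hρ : ∀ i, ρ i ^ 2 = t * dist (p i) a ^ 2 + (1 - t) * dist (q i) b ^ 2 + κ)
    (h : ∀ i j, dist (q i) (q j) ≤ dist (p i) (p j)) (hτ : Antitone τ) : Holds p q ρ τ := by
  have h1t : 0 ≤ 1 - t := by linarith
  refine weighted_bridge p q (mix p q a b √t √(1 - t) √κ) ρ τ (fun i => ?_) (fun i j => ?_)
    (fun i j => ?_) hτ
  · rw [← sq_eq_sq₀ (norm_nonneg _) (hρ0 i), norm_sq_mix, Real.sq_sqrt ht0, Real.sq_sqrt h1t,
      Real.sq_sqrt hκ, hρ, dist_eq_norm, dist_eq_norm]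
  · rw [← sq_le_sq₀ dist_nonneg dist_nonneg, dist_eq_norm (mix p q a b _ _ _ i), mix_sub,
      Real.sq_sqrt ht0, Real.sq_sqrt h1t, ← dist_eq_norm, ← dist_eq_norm]
    have := (sq_le_sq₀ dist_nonneg dist_nonneg).mpr (h i j)
    nlinarith
  · rw [← sq_le_sq₀ dist_nonneg dist_nonneg, dist_eq_norm (mix p q a b _ _ _ i), mix_sub,
      Real.sq_sqrt ht0, Real.sq_sqrt h1t, ← dist_eq_norm, ← dist_eq_norm]
    have := (sq_le_sq₀ dist_nonneg dist_nonneg).mpr (h i j)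
    nlinarith

/-- All spheres of the system `p` pass through the point `a`. -/
theorem cor_through_p (p q : Fin n → EuclideanSpace ℝ (Fin d)) (a : EuclideanSpace ℝ (Fin d))
    (ρ τ : Fin n → ℝ) (hρ : ∀ i, dist (p i) a = ρ i)
    (h : ∀ i j, dist (q i) (q j) ≤ dist (p i) (p j)) (hτ : Antitone τ) : Holds p q ρ τ :=
  cor_mixed p q a a 1 0 zero_le_one le_rfl le_rfl ρ τ (fun i => by rw [← hρ i]; exact dist_nonneg)
    (fun i => by rw [hρ i]; ring) h hτ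

/-- All spheres of the system `q` pass through the point `b`. -/
theorem cor_through_q (p q : Fin n → EuclideanSpace ℝ (Fin d)) (b : EuclideanSpace ℝ (Fin d))
    (ρ τ : Fin n → ℝ) (hρ : ∀ i, dist (q i) b = ρ i)
    (h : ∀ i j, dist (q i) (q j) ≤ dist (p i) (p j)) (hτ : Antitone τ) : Holds p q ρ τ :=
  cor_mixed p q b b 0 0 le_rfl zero_le_one le_rfl ρ τ
    (fun i => by rw [← hρ i]; exact dist_nonneg) (fun i => by rw [hρ i]; ring) h hτ

/-- Congruent balls, the points `p i` on a sphere of radius `R ≤ ρ`. -/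
theorem cor_sphere_p (p q : Fin n → EuclideanSpace ℝ (Fin d)) (a : EuclideanSpace ℝ (Fin d))
    {R ρ : ℝ} (hR0 : 0 ≤ R) (hR : R ≤ ρ) (τ : Fin n → ℝ) (hp : ∀ i, dist (p i) a = R)
    (h : ∀ i j, dist (q i) (q j) ≤ dist (p i) (p j)) (hτ : Antitone τ) :
    Holds p q (fun _ => ρ) τ :=
  cor_mixed p q a a 1 (ρ ^ 2 - R ^ 2) zero_le_one le_rfl (by nlinarith) (fun _ => ρ) τ
    (fun _ => hR0.trans hR) (fun i => by rw [hp i]; ring) h hτ

/-- Congruent balls, the points `q i` on a sphere of radius `R ≤ ρ`. -/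
theorem cor_sphere_q (p q : Fin n → EuclideanSpace ℝ (Fin d)) (b : EuclideanSpace ℝ (Fin d))
    {R ρ : ℝ} (hR0 : 0 ≤ R) (hR : R ≤ ρ) (τ : Fin n → ℝ) (hq : ∀ i, dist (q i) b = R)
    (h : ∀ i j, dist (q i) (q j) ≤ dist (p i) (p j)) (hτ : Antitone τ) :
    Holds p q (fun _ => ρ) τ :=
  cor_mixed p q b b 0 (ρ ^ 2 - R ^ 2) le_rfl zero_le_one (by nlinarith) (fun _ => ρ) τ
    (fun _ => hR0.trans hR) (fun i => by rw [hq i]; ring) h hτ

/-- The regular simplex on a sphere. -/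
private noncomputable def spx (n : ℕ) (s c : ℝ) (i : Fin n) : EuclideanSpace ℝ (Fin n ⊕ Unit) :=
  WithLp.toLp 2 (Sum.elim (fun k => if k = i then s else 0) (fun _ => c))

private theorem norm_sq_spx (s c : ℝ) (i : Fin n) : ‖spx n s c i‖ ^ 2 = s ^ 2 + c ^ 2 := by
  unfold spx
  rw [norm_sq_toLp]
  simp [Fintype.sum_sum_type]

private theorem spx_sub (s c : ℝ) {i j : Fin n} (hij : i ≠ j) :
    ‖spx n s c i - spx n s c j‖ ^ 2 = 2 * s ^ 2 := by
  unfold spx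
  rw [← WithLp.toLp_sub, norm_sq_toLp]
  simp only [Fintype.sum_sum_type, Pi.sub_apply, Sum.elim_inl, Sum.elim_inr, sub_self]
  have : ∀ k : Fin n, ((if k = i then s else 0) - (if k = j then s else 0)) ^ 2 =
      (if k = i then s ^ 2 else 0) + (if k = j then s ^ 2 else 0) := by
    intro k
    by_cases h1 : k = i
    · by_cases h2 : k = j
      · exact absurd (h1.symm.trans h2) hij
      · simp [h1, hij]
    · by_cases h2 : k = j
      · simp [h2, hij.symm]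
      · simp [h1, h2]
  simp only [this, Finset.sum_add_distrib, Finset.sum_ite_eq', Finset.mem_univ, if_true]
  simp
  ring

/-- Uniform contractions of congruent balls: `dist (q i) (q j) ≤ lam ≤ dist (p i) (p j)` with
`lam ≤ √2 ρ`. -/
theorem cor_uniform (p q : Fin n → EuclideanSpace ℝ (Fin d)) {lam ρ : ℝ} (τ : Fin n → ℝ)
    (hρ : 0 < ρ) (hlam0 : 0 ≤ lam) (hlam : lam ≤ √2 * ρ)
    (hq : ∀ i j, dist (q i) (q j) ≤ lam) (hp : ∀ i j, i ≠ j → lam ≤ dist (p i) (p j))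
    (hτ : Antitone τ) : Holds p q (fun _ => ρ) τ := by
  have h1 : lam ^ 2 ≤ 2 * ρ ^ 2 := by
    have h2 : lam ^ 2 ≤ (√2 * ρ) ^ 2 := (sq_le_sq₀ hlam0 (by positivity)).mpr hlam
    rwa [mul_pow, Real.sq_sqrt (by norm_num)] at h2
  have hs : √2 * √2 = 2 := Real.mul_self_sqrt (by norm_num)
  have hs2 : (lam / √2) ^ 2 = lam ^ 2 / 2 := by
    rw [div_pow, Real.sq_sqrt (by norm_num)]
  have h3 : 0 ≤ ρ ^ 2 - lam ^ 2 / 2 := by linarith
  have hd : ∀ i j : Fin n, i ≠ j →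
      dist (spx n (lam / √2) √(ρ ^ 2 - lam ^ 2 / 2) i)
        (spx n (lam / √2) √(ρ ^ 2 - lam ^ 2 / 2) j) = lam := by
    intro i j hij
    rw [← sq_eq_sq₀ dist_nonneg hlam0, dist_eq_norm, spx_sub _ _ hij, hs2]
    ring
  refine weighted_bridge p q (spx n (lam / √2) √(ρ ^ 2 - lam ^ 2 / 2)) (fun _ => ρ) τ
    (fun i => ?_) (fun i j => ?_) (fun i j => ?_) hτ
  · rw [← sq_eq_sq₀ (norm_nonneg _) hρ.le, norm_sq_spx, hs2, Real.sq_sqrt h3]
    ring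
  · by_cases hij : i = j
    · simp [hij]
    · rw [hd i j hij]
      exact hq i j
  · by_cases hij : i = j
    · simp [hij]
    · rw [hd i j hij]
      exact hp i j hij

/-- The auxiliary configuration of `cor_lipschitz`. -/
private noncomputable def lipc (p : Fin n → EuclideanSpace ℝ (Fin d))
    (a : EuclideanSpace ℝ (Fin d)) (s ρ : ℝ) (i : Fin n) : EuclideanSpace ℝ (Fin d ⊕ Unit) :=
  WithLp.toLp 2 (Sum.elim (fun k => s * (p i - a) k)
    (fun _ => √(ρ ^ 2 - s ^ 2 * ‖p i - a‖ ^ 2)))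

private theorem norm_sq_lipc (p : Fin n → EuclideanSpace ℝ (Fin d))
    (a : EuclideanSpace ℝ (Fin d)) (s ρ : ℝ) (i : Fin n)
    (h : 0 ≤ ρ ^ 2 - s ^ 2 * ‖p i - a‖ ^ 2) : ‖lipc p a s ρ i‖ ^ 2 = ρ ^ 2 := by
  unfold lipc
  rw [norm_sq_toLp]
  simp only [Fintype.sum_sum_type, Sum.elim_inl, Sum.elim_inr, mul_pow, ← Finset.mul_sum]
  have : ‖p i - a‖ ^ 2 = ∑ k, (p i - a) k ^ 2 := by
    rw [EuclideanSpace.norm_sq_eq]; simp
  rw [← this]
  simp [Real.sq_sqrt h]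

private theorem lipc_sub (p : Fin n → EuclideanSpace ℝ (Fin d))
    (a : EuclideanSpace ℝ (Fin d)) (s ρ : ℝ) (i j : Fin n) :
    ‖lipc p a s ρ i - lipc p a s ρ j‖ ^ 2 = s ^ 2 * ‖p i - p j‖ ^ 2 +
      (√(ρ ^ 2 - s ^ 2 * ‖p i - a‖ ^ 2) - √(ρ ^ 2 - s ^ 2 * ‖p j - a‖ ^ 2)) ^ 2 := by
  unfold lipc
  rw [← WithLp.toLp_sub, norm_sq_toLp, EuclideanSpace.norm_sq_eq (p i - p j)]
  simp only [Fintype.sum_sum_type, Pi.sub_apply, Sum.elim_inl, Sum.elim_inr, Finset.mul_sum,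
    Real.norm_eq_abs, sq_abs, Finset.univ_unique, Finset.sum_const, Finset.card_singleton,
    one_smul]
  congr 1
  refine Finset.sum_congr rfl fun k _ => ?_
  simp only [PiLp.sub_apply]
  ring

private theorem sqrt_sub_sq_le {A B K : ℝ} (hK : 0 < K) (hA : K ≤ A) (hB : K ≤ B) :
    (√A - √B) ^ 2 * (4 * K) ≤ (A - B) ^ 2 := by
  have hA0 : 0 ≤ A := hK.le.trans hA
  have hB0 : 0 ≤ B := hK.le.trans hB
  have h1 : √K ≤ √A := Real.sqrt_le_sqrt hA
  have h2 : √K ≤ √B := Real.sqrt_le_sqrt hB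
  have h3 : √K ^ 2 = K := Real.sq_sqrt hK.le
  have h4 : A - B = (√A - √B) * (√A + √B) := by
    have h5 := Real.sq_sqrt hA0
    have h6 := Real.sq_sqrt hB0
    nlinarith
  have h5 : 4 * K ≤ (√A + √B) ^ 2 := by
    have h6 := Real.sqrt_nonneg K
    nlinarith
  rw [h4, mul_pow]
  exact mul_le_mul_of_nonneg_left h5 (sq_nonneg _)

/-- Congruent balls and `s`-Lipschitz contractions, `s < 1`: the weighted inequality holds as soon
as `s M / √(1 - s ^ 2) ≤ ρ`, where the points `p i` lie in a ball of radius `M`. -/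
theorem cor_lipschitz (p q : Fin n → EuclideanSpace ℝ (Fin d)) (a : EuclideanSpace ℝ (Fin d))
    {s M ρ : ℝ} (τ : Fin n → ℝ) (hs0 : 0 ≤ s) (hs1 : s < 1) (hρ : 0 < ρ)
    (hM : ∀ i, dist (p i) a ≤ M) (hr : s ^ 2 * M ^ 2 ≤ (1 - s ^ 2) * ρ ^ 2)
    (h : ∀ i j, dist (q i) (q j) ≤ s * dist (p i) (p j)) (hτ : Antitone τ) :
    Holds p q (fun _ => ρ) τ := by
  have hs2 : s ^ 2 < 1 := by nlinarith
  have hMi : ∀ i, ‖p i - a‖ ^ 2 ≤ M ^ 2 := fun i => by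
    have h1 := hM i
    rw [dist_eq_norm] at h1
    exact pow_le_pow_left₀ (norm_nonneg _) h1 2
  set K : ℝ := ρ ^ 2 - s ^ 2 * M ^ 2 with hK
  have hK0 : 0 < K ∨ s = 0 := by
    rcases hs0.eq_or_lt with h0 | h0
    · exact Or.inr h0.symm
    · left
      have h1 : 0 < s ^ 2 * ρ ^ 2 := by positivity
      nlinarith
  have hKi : ∀ i, K ≤ ρ ^ 2 - s ^ 2 * ‖p i - a‖ ^ 2 := fun i => by
    have h1 := mul_le_mul_of_nonneg_left (hMi i) (sq_nonneg s)
    rw [hK]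
    linarith
  have hK1 : 0 < K := by
    rcases hK0 with h0 | h0
    · exact h0
    · rw [hK, h0]
      have : 0 < ρ ^ 2 := by positivity
      simpa using this
  refine weighted_bridge p q (lipc p a s ρ) (fun _ => ρ) τ (fun i => ?_) (fun i j => ?_)
    (fun i j => ?_) hτ
  · rw [← sq_eq_sq₀ (norm_nonneg _) hρ.le, norm_sq_lipc p a s ρ i (hK1.le.trans (hKi i))]
  · rw [← sq_le_sq₀ dist_nonneg dist_nonneg, dist_eq_norm (lipc p a s ρ i), lipc_sub]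
    have h1 := (sq_le_sq₀ dist_nonneg (by positivity)).mpr (h i j)
    rw [mul_pow, dist_eq_norm (p i)] at h1
    have h2 := sq_nonneg
      (√(ρ ^ 2 - s ^ 2 * ‖p i - a‖ ^ 2) - √(ρ ^ 2 - s ^ 2 * ‖p j - a‖ ^ 2))
    linarith
  · rw [← sq_le_sq₀ dist_nonneg dist_nonneg, dist_eq_norm (lipc p a s ρ i), lipc_sub,
      dist_eq_norm]
    have h1 := sqrt_sub_sq_le hK1 (hKi i) (hKi j)
    set Δ := (√(ρ ^ 2 - s ^ 2 * ‖p i - a‖ ^ 2) - √(ρ ^ 2 - s ^ 2 * ‖p j - a‖ ^ 2)) ^ 2 with hΔ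
    have h2 : (‖p i - a‖ - ‖p j - a‖) ^ 2 ≤ ‖p i - p j‖ ^ 2 := by
      have h3 := abs_norm_sub_norm_le (p i - a) (p j - a)
      rw [sub_sub_sub_cancel_right] at h3
      rw [← sq_abs (‖p i - a‖ - ‖p j - a‖)]
      exact pow_le_pow_left₀ (abs_nonneg _) h3 2
    have h4 : (‖p i - a‖ + ‖p j - a‖) ^ 2 ≤ 4 * M ^ 2 := by
      have h5 := hM i
      have h6 := hM j
      rw [dist_eq_norm] at h5 h6
      have h7 : ‖p i - a‖ + ‖p j - a‖ ≤ 2 * M := by linarith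
      have h8 : 0 ≤ ‖p i - a‖ + ‖p j - a‖ := by positivity
      calc (‖p i - a‖ + ‖p j - a‖) ^ 2 ≤ (2 * M) ^ 2 := pow_le_pow_left₀ h8 h7 2
        _ = 4 * M ^ 2 := by ring
    have h5 : (ρ ^ 2 - s ^ 2 * ‖p i - a‖ ^ 2 - (ρ ^ 2 - s ^ 2 * ‖p j - a‖ ^ 2)) ^ 2 ≤
        s ^ 4 * ‖p i - p j‖ ^ 2 * (4 * M ^ 2) := by
      calc (ρ ^ 2 - s ^ 2 * ‖p i - a‖ ^ 2 - (ρ ^ 2 - s ^ 2 * ‖p j - a‖ ^ 2)) ^ 2
          = s ^ 4 * ((‖p i - a‖ - ‖p j - a‖) ^ 2 * (‖p i - a‖ + ‖p j - a‖) ^ 2) := by ring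
        _ ≤ s ^ 4 * (‖p i - p j‖ ^ 2 * (4 * M ^ 2)) := by gcongr
        _ = _ := by ring
    have h6 : Δ * K ≤ s ^ 4 * ‖p i - p j‖ ^ 2 * M ^ 2 := by nlinarith
    have h7 : s ^ 4 * M ^ 2 ≤ (1 - s ^ 2) * K := by
      rw [hK]
      nlinarith [sq_nonneg s]
    have h8 : Δ * K ≤ (1 - s ^ 2) * ‖p i - p j‖ ^ 2 * K := by
      calc Δ * K ≤ s ^ 4 * ‖p i - p j‖ ^ 2 * M ^ 2 := h6
        _ = (s ^ 4 * M ^ 2) * ‖p i - p j‖ ^ 2 := by ring
        _ ≤ ((1 - s ^ 2) * K) * ‖p i - p j‖ ^ 2 := by gcongr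
        _ = _ := by ring
    have h9 := le_of_mul_le_mul_right h8 hK1
    linarith

end Pool.Agent.KneserBridge
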