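import Pool.Agent.Kneser.Weighted

/-!
# The bridge theorem for Kneser's inequality: definitions

THEOREM. Let `p, q : Fin n → E` (`d = finrank E`) and `r : Fin n → H` with
`‖q i - q j‖ ≤ ‖r i - r j‖ ≤ ‖p i - p j‖`. Then the weighted inequality holds for the radii
`ρ i = ‖r i‖`.

Points of `V = E × E × H` are `w = (η, ζ, ξ)`; `zz w = ‖ζ‖ ^ 2`, `xx w = ‖ξ‖ ^ 2`,
`vv x r i w = ‖η - x i‖ ^ 2 + ‖ζ‖ ^ 2 - 2 ⟪ξ, r i⟫ - ‖r i‖ ^ 2` (`x` stands for `p` or `q`),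
`ex lam w = exp (-lam (‖ζ‖ ^ 2 + ‖ξ‖ ^ 2))`. With `F = φ (∑ a (v i))` the functional is
`J lam = lam ^ ((d + N) / 2) * ∫ F * (d - lam * zz) * ex lam` and
`J' lam = lam ^ ((d + N) / 2 - 1) / 2 * ∫ ex lam * (zz * ∑ i j, (‖r i - r j‖² - ‖x i - x j‖²) F_ij
+ (2 lam zz - d) * ∑ v_i F_i)`.
-/

set_option autoImplicit false
set_option linter.unusedSectionVars false

namespace Pool.Agent.KneserBridge

open MeasureTheory Set Filter Topology
open scoped InnerProductSpace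

variable {E H : Type*} [NormedAddCommGroup E] [InnerProductSpace ℝ E] [FiniteDimensional ℝ E]
  [MeasurableSpace E] [BorelSpace E] [NormedAddCommGroup H] [InnerProductSpace ℝ H]
  [FiniteDimensional ℝ H] [MeasurableSpace H] [BorelSpace H] {n : ℕ}

/-- `‖η‖² + ‖ζ‖² + ‖ξ‖²`. -/
def qq (w : E × E × H) : ℝ := ‖w.1‖ ^ 2 + ‖w.2.1‖ ^ 2 + ‖w.2.2‖ ^ 2

/-- `‖ζ‖²`. -/
def zz (w : E × E × H) : ℝ := ‖w.2.1‖ ^ 2

/-- `‖ξ‖²`. -/
def xx (w : E × E × H) : ℝ := ‖w.2.2‖ ^ 2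

/-- The functions `v i`. -/
noncomputable def vv (x : Fin n → E) (r : Fin n → H) (i : Fin n) (w : E × E × H) : ℝ :=
  ‖w.1 - x i‖ ^ 2 + zz w - 2 * ⟪w.2.2, r i⟫_ℝ - ‖r i‖ ^ 2

/-- The Gaussian weight. -/
noncomputable def ex (lam : ℝ) (w : E × E × H) : ℝ := Real.exp (-lam * (zz w + xx w))

/-- Rapidly decreasing functions. -/
def Rap (g : E × E × H → ℝ) : Prop :=
  ∃ C c : ℝ, 0 < c ∧ ∃ k : ℕ, ∀ w, |g w| ≤ C * (1 + qq w) ^ k * Real.exp (-c * qq w)

/-- Polynomially bounded functions. -/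
def Pol (g : E × E × H → ℝ) : Prop :=
  ∃ C : ℝ, ∃ k : ℕ, ∀ w, |g w| ≤ C * (1 + qq w) ^ k

/-- Smooth test data: `φ` concave with derivatives `k`, `k'` and a cutoff `a` with derivatives
`b`, `b'`. -/
structure Dat where
  /-- the concave function -/
  phi : ℝ → ℝ
  /-- its derivative -/
  k : ℝ → ℝ
  /-- its second derivative -/
  k' : ℝ → ℝ
  /-- the cutoff -/
  a : ℝ → ℝ
  /-- its derivative -/
  b : ℝ → ℝ
  /-- its second derivative -/
  b' : ℝ → ℝ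
  /-- a common bound -/
  K : ℝ
  hphi : ∀ s, HasDerivAt phi (k s) s
  phi0 : phi 0 = 0
  hk : ∀ s, HasDerivAt k (k' s) s
  ck' : Continuous k'
  k'neg : ∀ s, k' s ≤ 0
  ha : ∀ v, HasDerivAt a (b v) v
  hb : ∀ v, HasDerivAt b (b' v) v
  cb' : Continuous b'
  bneg : ∀ v, b v ≤ 0
  a_nonneg : ∀ v, 0 ≤ a v
  a_le_one : ∀ v, a v ≤ 1
  a_zero : ∀ v, 1 < v → a v = 0
  b_zero : ∀ v, 1 < v → b v = 0
  b'_zero : ∀ v, 1 < v → b' v = 0
  bk : ∀ s, |k s| ≤ K
  bk' : ∀ s, |k' s| ≤ K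
  bb : ∀ v, |b v| ≤ K
  bb' : ∀ v, |b' v| ≤ K

namespace Dat

variable (D : Dat) (x : Fin n → E) (r : Fin n → H)

/-- Total cutoff. -/
noncomputable def S (w : E × E × H) : ℝ := ∑ l, D.a (vv x r l w)

/-- The test function. -/
noncomputable def F (w : E × E × H) : ℝ := D.phi (D.S x r w)

/-- First derivatives with respect to `v i`. -/
noncomputable def f (i : Fin n) (w : E × E × H) : ℝ := D.k (D.S x r w) * D.b (vv x r i w)

/-- Mixed second derivatives (the part which is symmetric in `i`, `j`). -/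
noncomputable def g (i j : Fin n) (w : E × E × H) : ℝ :=
  D.k' (D.S x r w) * (D.b (vv x r i w) * D.b (vv x r j w))

/-- The remaining part of the pure second derivative. -/
noncomputable def h (i : Fin n) (w : E × E × H) : ℝ := D.k (D.S x r w) * D.b' (vv x r i w)

end Dat

/-- The differential of `v i` in the direction `u`. -/
noncomputable def dv (x : Fin n → E) (r : Fin n → H) (i : Fin n) (w u : E × E × H) : ℝ :=
  2 * ⟪w.1 - x i, u.1⟫_ℝ + 2 * ⟪w.2.1, u.2.1⟫_ℝ - 2 * ⟪u.2.2, r i⟫_ℝ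

/-- The polynomial `P`. -/
noncomputable def PP (lam : ℝ) (w : E × E × H) : ℝ :=
  lam ^ 2 * zz w ^ 2 + lam ^ 2 * zz w * xx w -
    lam * zz w * (3 * (Module.finrank ℝ E : ℝ) / 2 + 1 + (Module.finrank ℝ H : ℝ) / 2) -
    lam * (Module.finrank ℝ E : ℝ) * xx w +
    (Module.finrank ℝ E : ℝ) * ((Module.finrank ℝ E : ℝ) + (Module.finrank ℝ H : ℝ)) / 2

/-- The weight of the functional. -/
noncomputable def om (lam : ℝ) (w : E × E × H) : ℝ :=
  lam ^ (((Module.finrank ℝ E : ℝ) + (Module.finrank ℝ H : ℝ)) / 2) *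
    (((Module.finrank ℝ E : ℝ) - lam * zz w) * ex lam w)

/-- The derivative of the weight in `lam`. -/
noncomputable def om' (lam : ℝ) (w : E × E × H) : ℝ :=
  lam ^ (((Module.finrank ℝ E : ℝ) + (Module.finrank ℝ H : ℝ)) / 2 - 1) *
    (PP lam w * ex lam w)

/-- The error term. -/
noncomputable def Dat.err (D : Dat) (x : Fin n → E) (r : Fin n → H) (lam : ℝ) (w : E × E × H) :
    ℝ :=
  (2 * lam * zz w - (Module.finrank ℝ E : ℝ)) * (∑ i, vv x r i w * D.f x r i w) * ex lam w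

/-- The main term. -/
noncomputable def Dat.main (D : Dat) (x : Fin n → E) (r : Fin n → H) (lam : ℝ)
    (w : E × E × H) : ℝ :=
  zz w * (∑ i, ∑ j, (‖r i - r j‖ ^ 2 - ‖x i - x j‖ ^ 2) * D.g x r i j w) * ex lam w

/-- Number of `i` with `v i ≤ 0`. -/
noncomputable def cv (x : Fin n → E) (r : Fin n → H) (w : E × E × H) : ℝ :=
  ∑ i, if vv x r i w ≤ 0 then (1 : ℝ) else 0

/-- The truncation `2 min (s, m)`. -/
noncomputable def tr (m s : ℝ) : ℝ := s - |s - m| + |m|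

/-- The limit functional. -/
noncomputable def JJ (x : Fin n → E) (r : Fin n → H) (m lam : ℝ) : ℝ :=
  ∫ w : E × E × H, tr m (cv x r w) * om lam w

end Pool.Agent.KneserBridge
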