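import Pool.Agent.KneserBridge.PolS

/-!
# The test functions

PROOF. `F = phi (S)`, `S = ∑ a (v l)`, `f i = k (S) * b (v i)`: chain and product rules with
`pols_vv` (`HasDerivAt.comp`, `HasDerivAt.sum`); linearity in `u` and continuity in `w` are clear
from the formulas (`phi`, `k`, `a`, `b` are differentiable hence continuous, `k'`, `b'` are
continuous by assumption). Bounds: `|f i| ≤ K²`, `|g i j| ≤ K³`, `|h i| ≤ K²`, `|F| ≤ K n` by the
mean value inequality (`Convex.norm_image_sub_le_of_norm_hasDerivWithin_le` or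
`image_le_of...`; `0 ≤ S ≤ n`, `phi 0 = 0`). Support: if `1 < v l` for all `l` then `a (v l) = 0`,
`b (v l) = 0`, `b' (v l) = 0`, so `S = 0`.
-/

set_option autoImplicit false
set_option linter.unusedSectionVars false

namespace Pool.Agent.KneserBridge

open MeasureTheory Set Filter Topology
open scoped InnerProductSpace

variable {E H : Type*} [NormedAddCommGroup E] [InnerProductSpace ℝ E] [FiniteDimensional ℝ E]
  [MeasurableSpace E] [BorelSpace E] [NormedAddCommGroup H] [InnerProductSpace ℝ H]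
  [FiniteDimensional ℝ H] [MeasurableSpace H] [BorelSpace H] {n : ℕ}

/-- The differential of `F`. -/
noncomputable def Dat.dF (D : Dat) (x : Fin n → E) (r : Fin n → H) (w u : E × E × H) : ℝ :=
  ∑ j, D.f x r j w * dv x r j w u

/-- The differential of `f i`. -/
noncomputable def Dat.df (D : Dat) (x : Fin n → E) (r : Fin n → H) (i : Fin n)
    (w u : E × E × H) : ℝ :=
  (∑ j, D.g x r i j w * dv x r j w u) + D.h x r i w * dv x r i w u

private theorem continuous_a_PolF (D : Dat) : Continuous D.a :=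
  continuous_iff_continuousAt.2 fun v => (D.ha v).continuousAt

private theorem continuous_b_PolF (D : Dat) : Continuous D.b :=
  continuous_iff_continuousAt.2 fun v => (D.hb v).continuousAt

private theorem continuous_k_PolF (D : Dat) : Continuous D.k :=
  continuous_iff_continuousAt.2 fun v => (D.hk v).continuousAt

private theorem mv_PolF {φ φ' : ℝ → ℝ} {C : ℝ} (hφ : ∀ s, HasDerivAt φ (φ' s) s)
    (hb : ∀ s, |φ' s| ≤ C) (s : ℝ) : |φ s - φ 0| ≤ C * |s| := by
  have h := convex_univ.norm_image_sub_le_of_norm_hasDerivWithin_le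
    (f := φ) (f' := φ') (C := C) (x := 0) (y := s)
    (fun x _ => (hφ x).hasDerivWithinAt) (fun x _ => by rw [Real.norm_eq_abs]; exact hb x)
    (mem_univ _) (mem_univ _)
  rw [Real.norm_eq_abs, Real.norm_eq_abs, sub_zero] at h
  exact h

/-- Chain rule. -/
private theorem pols_comp_PolF {P : E × E × H → ℝ} {P' : E × E × H → E × E × H → ℝ}
    (hP : PolS P P') {φ φ' : ℝ → ℝ} {C : ℝ} (hφ : ∀ s, HasDerivAt φ (φ' s) s)
    (hc : Continuous φ') (hb : ∀ s, |φ' s| ≤ C) :
    PolS (fun w => φ (P w)) (fun w u => φ' (P w) * P' w u) where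
  hd := by
    intro w u
    have h1 : HasDerivAt (fun t : ℝ => P (w + t • u)) (P' w u) 0 := hP.hd w u
    have h2 : HasDerivAt φ (φ' (P w)) (P (w + (0 : ℝ) • u)) := by
      rw [zero_smul, add_zero]
      exact hφ (P w)
    exact HasDerivAt.comp (h₂ := φ) (0 : ℝ) h2 h1
  lin := by
    intro w
    refine ⟨fun u v => ?_, fun c u => ?_⟩
    · rw [(hP.lin w).map_add, mul_add]
    · rw [(hP.lin w).map_smul, smul_eq_mul, smul_eq_mul]
      ring
  cP := (continuous_iff_continuousAt.2 fun v => (hφ v).continuousAt).comp hP.cP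
  cP' := fun u => (hc.comp hP.cP).mul (hP.cP' u)
  pP := by
    obtain ⟨A, k, hA⟩ := hP.pP
    have hC : 0 ≤ C := (abs_nonneg _).trans (hb 0)
    refine ⟨|φ 0| + C * A, k, fun w => ?_⟩
    have h1 := mv_PolF hφ hb (P w)
    have h2 : |φ (P w)| ≤ |φ 0| + |φ (P w) - φ 0| := by
      have h3 := abs_add_le (φ 0) (φ (P w) - φ 0)
      rw [add_sub_cancel] at h3
      exact h3
    have h3 : 1 ≤ (1 + qq w) ^ k := one_le_pow₀ (by linarith [qq_nonneg w])
    have h4 : C * |P w| ≤ C * (A * (1 + qq w) ^ k) := mul_le_mul_of_nonneg_left (hA w) hC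
    have h5 : |φ 0| * 1 ≤ |φ 0| * (1 + qq w) ^ k := mul_le_mul_of_nonneg_left h3 (abs_nonneg _)
    calc |φ (P w)| ≤ |φ 0| + C * |P w| := by linarith
      _ ≤ |φ 0| * (1 + qq w) ^ k + C * (A * (1 + qq w) ^ k) := by linarith
      _ = _ := by ring
  pP' := fun u => pol_mul (pol_of_bound fun w => hb (P w)) (hP.pP' u)

/-- Sums. -/
private theorem pols_sum_PolF {P : Fin n → E × E × H → ℝ}
    {P' : Fin n → E × E × H → E × E × H → ℝ} (hP : ∀ l, PolS (P l) (P' l)) :
    PolS (fun w => ∑ l, P l w) (fun w u => ∑ l, P' l w u) := by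
  have key : ∀ s : Finset (Fin n),
      PolS (fun w => ∑ l ∈ s, P l w) (fun w u => ∑ l ∈ s, P' l w u) := by
    intro s
    classical
    induction s using Finset.induction_on with
    | empty => simpa using pols_const (E := E) (H := H) 0
    | insert a s ha ih =>
      have h1 := pols_add (hP a) ih
      simp only [Finset.sum_insert ha]
      exact h1
  exact key Finset.univ

private theorem pols_S_PolF (D : Dat) (x : Fin n → E) (r : Fin n → H) :
    PolS (D.S x r) (fun w u => ∑ l, D.b (vv x r l w) * dv x r l w u) :=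
  pols_sum_PolF fun l => pols_comp_PolF (pols_vv x r l) D.ha (continuous_b_PolF D) D.bb

private theorem S_nonneg_PolF (D : Dat) (x : Fin n → E) (r : Fin n → H) (w : E × E × H) :
    0 ≤ D.S x r w := Finset.sum_nonneg fun _ _ => D.a_nonneg _

private theorem S_le_PolF (D : Dat) (x : Fin n → E) (r : Fin n → H) (w : E × E × H) :
    D.S x r w ≤ n := by
  have h := Finset.sum_le_sum (s := (Finset.univ : Finset (Fin n)))
    (f := fun l => D.a (vv x r l w)) (g := fun _ => 1) fun l _ => D.a_le_one _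
  rw [Dat.S]
  simpa using h

theorem abs_F_le (D : Dat) (x : Fin n → E) (r : Fin n → H) (w : E × E × H) :
    |D.F x r w| ≤ D.K * n := by
  have hK : 0 ≤ D.K := (abs_nonneg _).trans (D.bk 0)
  have h := mv_PolF D.hphi D.bk (D.S x r w)
  rw [D.phi0, sub_zero, abs_of_nonneg (S_nonneg_PolF D x r w)] at h
  exact h.trans (mul_le_mul_of_nonneg_left (S_le_PolF D x r w) hK)

theorem F_eq_zero (D : Dat) (x : Fin n → E) (r : Fin n → H) {w : E × E × H}
    (hw : ∀ l, 1 < vv x r l w) : D.F x r w = 0 := by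
  have h : D.S x r w = 0 := Finset.sum_eq_zero fun l _ => D.a_zero _ (hw l)
  rw [Dat.F, h, D.phi0]

theorem f_eq_zero (D : Dat) (x : Fin n → E) (r : Fin n → H) (i : Fin n) {w : E × E × H}
    (hw : 1 < vv x r i w) : D.f x r i w = 0 := by
  rw [Dat.f, D.b_zero _ hw, mul_zero]

theorem g_eq_zero (D : Dat) (x : Fin n → E) (r : Fin n → H) (i j : Fin n) {w : E × E × H}
    (hw : ∀ l, 1 < vv x r l w) : D.g x r i j w = 0 := by
  rw [Dat.g, D.b_zero _ (hw i), zero_mul, mul_zero]

theorem h_eq_zero (D : Dat) (x : Fin n → E) (r : Fin n → H) (i : Fin n) {w : E × E × H}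
    (hw : 1 < vv x r i w) : D.h x r i w = 0 := by
  rw [Dat.h, D.b'_zero _ hw, mul_zero]

theorem continuous_g (D : Dat) (x : Fin n → E) (r : Fin n → H) (i j : Fin n) :
    Continuous (D.g x r i j) :=
  (D.ck'.comp (pols_S_PolF D x r).cP).mul
    (((continuous_b_PolF D).comp (pols_vv x r i).cP).mul
      ((continuous_b_PolF D).comp (pols_vv x r j).cP))

theorem pol_g (D : Dat) (x : Fin n → E) (r : Fin n → H) (i j : Fin n) :
    Pol (D.g x r i j) :=
  pol_mul (pol_of_bound fun w => D.bk' (D.S x r w))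
    (pol_mul (pol_of_bound fun w => D.bb (vv x r i w)) (pol_of_bound fun w => D.bb (vv x r j w)))

theorem pols_F (D : Dat) (x : Fin n → E) (r : Fin n → H) :
    PolS (D.F x r) (D.dF x r) := by
  have h := pols_comp_PolF (pols_S_PolF D x r) D.hphi (continuous_k_PolF D) D.bk
  have h1 : (fun w u => D.k (D.S x r w) * ∑ l, D.b (vv x r l w) * dv x r l w u) =
      D.dF x r := by
    funext w u
    rw [Dat.dF, Finset.mul_sum]
    refine Finset.sum_congr rfl fun l _ => ?_
    rw [Dat.f]
    ring
  rw [h1] at h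
  exact h

theorem pols_f (D : Dat) (x : Fin n → E) (r : Fin n → H) (i : Fin n) :
    PolS (D.f x r i) (D.df x r i) := by
  have h := pols_mul (pols_comp_PolF (pols_S_PolF D x r) D.hk D.ck' D.bk')
    (pols_comp_PolF (pols_vv x r i) D.hb D.cb' D.bb')
  have h1 : (fun w u => D.k' (D.S x r w) * (∑ l, D.b (vv x r l w) * dv x r l w u) *
      D.b (vv x r i w) + D.k (D.S x r w) * (D.b' (vv x r i w) * dv x r i w u)) =
      D.df x r i := by
    funext w u
    rw [Dat.df, Dat.h, Finset.mul_sum, Finset.sum_mul]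
    congr 1
    · refine Finset.sum_congr rfl fun l _ => ?_
      rw [Dat.g]
      ring
    · ring
  rw [h1] at h
  exact h

end Pool.Agent.KneserBridge
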