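import Pool.Agent.KneserBridge.PolEx
import Pool.Agent.KneserBridge.PolF

/-!
# Directional derivatives of the test functions with the Gaussian factor

PROOF. `smth_of_pols` with `pols_zz`, `pols_sub pols_zz (pols_vv ..)`,
`pols_add (pols_add (pols_const a) (pols_smul b pols_zz)) (pols_smul c pols_xx)`.
-/

set_option autoImplicit false
set_option linter.unusedSectionVars false

namespace Pool.Agent.KneserBridge

open MeasureTheory Set Filter Topology
open scoped InnerProductSpace

variable {E H : Type*} [NormedAddCommGroup E] [InnerProductSpace ℝ E] [FiniteDimensional ℝ E]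
  [MeasurableSpace E] [BorelSpace E] [NormedAddCommGroup H] [InnerProductSpace ℝ H]
  [FiniteDimensional ℝ H] [MeasurableSpace H] [BorelSpace H] {n : ℕ}

theorem continuous_F (D : Dat) (x : Fin n → E) (r : Fin n → H) : Continuous (D.F x r) :=
  (pols_F D x r).cP

theorem continuous_f (D : Dat) (x : Fin n → E) (r : Fin n → H) (i : Fin n) :
    Continuous (D.f x r i) :=
  (pols_f D x r i).cP

theorem df_eq_zero (D : Dat) (x : Fin n → E) (r : Fin n → H) (i : Fin n) {w : E × E × H}
    (hw : ∀ l, 1 < vv x r l w) (u : E × E × H) : D.df x r i w u = 0 := by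
  unfold Dat.df
  rw [h_eq_zero D x r i (hw i), zero_mul, add_zero]
  exact Finset.sum_eq_zero fun j _ => by rw [g_eq_zero D x r i j hw, zero_mul]

theorem dF_eq_zero (D : Dat) (x : Fin n → E) (r : Fin n → H) {w : E × E × H}
    (hw : ∀ l, 1 < vv x r l w) (u : E × E × H) : D.dF x r w u = 0 := by
  unfold Dat.dF
  exact Finset.sum_eq_zero fun j _ => by rw [f_eq_zero D x r j (hw j), zero_mul]

/-- `zz * (ex * f i)`. -/
theorem smth_zf (D : Dat) (x : Fin n → E) (r : Fin n → H) {lam : ℝ} (h : 0 < lam) (i : Fin n) :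
    Smth (fun w : E × E × H => zz w * (ex lam w * D.f x r i w))
      (fun w u => 2 * ⟪w.2.1, u.2.1⟫_ℝ * (ex lam w * D.f x r i w) +
        zz w * (dex lam w u * D.f x r i w + ex lam w * D.df x r i w u)) :=
  smth_of_pols x r h pols_zz (pols_f D x r i) (fun w hw => f_eq_zero D x r i (hw i))
    (fun w hw u => df_eq_zero D x r i hw u)

/-- `(zz - v i) * (ex * f i)`. -/
theorem smth_vf (D : Dat) (x : Fin n → E) (r : Fin n → H) {lam : ℝ} (h : 0 < lam) (i : Fin n) :
    Smth (fun w : E × E × H => (zz w - vv x r i w) * (ex lam w * D.f x r i w))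
      (fun w u => (2 * ⟪w.2.1, u.2.1⟫_ℝ - dv x r i w u) * (ex lam w * D.f x r i w) +
        (zz w - vv x r i w) * (dex lam w u * D.f x r i w + ex lam w * D.df x r i w u)) :=
  smth_of_pols x r h (pols_sub pols_zz (pols_vv x r i)) (pols_f D x r i)
    (fun w hw => f_eq_zero D x r i (hw i)) (fun w hw u => df_eq_zero D x r i hw u)

/-- `(a + b * zz + c * xx) * (ex * F)`. -/
theorem smth_F (D : Dat) (x : Fin n → E) (r : Fin n → H) {lam : ℝ} (h : 0 < lam)
    (a b c : ℝ) :
    Smth (fun w : E × E × H => (a + b * zz w + c * xx w) * (ex lam w * D.F x r w))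
      (fun w u => (b * (2 * ⟪w.2.1, u.2.1⟫_ℝ) + c * (2 * ⟪w.2.2, u.2.2⟫_ℝ)) *
          (ex lam w * D.F x r w) +
        (a + b * zz w + c * xx w) *
          (dex lam w u * D.F x r w + ex lam w * D.dF x r w u)) := by
  have := smth_of_pols x r h
    (pols_add (pols_add (pols_const a) (pols_smul b pols_zz)) (pols_smul c pols_xx))
    (pols_F D x r) (fun w hw => F_eq_zero D x r hw) (fun w hw u => dF_eq_zero D x r hw u)
  simpa only [zero_add] using this

end Pool.Agent.KneserBridge
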