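import Pool.Agent.KneserBridge.DivLin

/-!
# Divergence in the first component

PROOF. With an orthonormal basis `b` of `E` (`stdOrthonormalBasis ℝ E`, indexed by
`Fin (finrank ℝ E)`) apply `div_lin` in the direction `(b k, 0, 0)` with
`ℓ w = ⟪w.1 - x0, b k⟫`, `c = ⟪b k, b k⟫ = 1` (`pol_inner_fst`), sum over `k` and use
`∑ k, ⟪w.1 - x0, b k⟫ • b k = w.1 - x0` (`OrthonormalBasis.sum_repr`) and the linearity
of `G' w`.
-/

set_option autoImplicit false
set_option linter.unusedSectionVars false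

namespace Pool.Agent.KneserBridge

open MeasureTheory Set Filter Topology
open scoped InnerProductSpace

variable {E H : Type*} [NormedAddCommGroup E] [InnerProductSpace ℝ E] [FiniteDimensional ℝ E]
  [MeasurableSpace E] [BorelSpace E] [NormedAddCommGroup H] [InnerProductSpace ℝ H]
  [FiniteDimensional ℝ H] [MeasurableSpace H] [BorelSpace H] {n : ℕ}

private theorem sum_DivF {ι : Type*} [Fintype ι] {G : E × E × H → ℝ}
    {G' : E × E × H → E × E × H → ℝ} (h : Smth G G') (u : ι → E × E × H)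
    (ℓ : ι → E × E × H → ℝ) (hl : ∀ i w, HasLineDerivAt ℝ (ℓ i) 1 w (u i))
    (cl : ∀ i, Continuous (ℓ i)) (pl : ∀ i, Pol (ℓ i)) (V : E × E × H → E × E × H)
    (hV : ∀ w, ∑ i, ℓ i w • u i = V w) :
    Integrable (fun w => G' w (V w)) ∧
      ∫ w, ((Fintype.card ι : ℝ) * G w + G' w (V w)) = 0 := by
  have h1 : ∀ w, G' w (V w) = ∑ i, ℓ i w * G' w (u i) := by
    intro w
    have h2 : ∀ v, G' w v = (h.lin w).mk' _ v := fun v => rfl
    rw [← hV, h2, map_sum]
    refine Finset.sum_congr rfl fun i _ => ?_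
    rw [map_smul, ← h2, smul_eq_mul]
  have h3 : ∀ i, Integrable (fun w => ℓ i w * G' w (u i)) := fun i =>
    (div_lin h (u i) (hl i) (cl i) (pl i)).1
  have hG : Integrable G := smth_integrable h
  refine ⟨?_, ?_⟩
  · simp only [h1]
    exact integrable_finsetSum _ fun i _ => h3 i
  · have h4 : ∀ w, (Fintype.card ι : ℝ) * G w + G' w (V w) =
        ∑ i, (1 * G w + ℓ i w * G' w (u i)) := by
      intro w
      rw [h1, Finset.sum_add_distrib, Finset.sum_const, Finset.card_univ, nsmul_eq_mul, one_mul]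
    have h5 : ∀ i, Integrable (fun w => 1 * G w + ℓ i w * G' w (u i)) := fun i =>
      (hG.const_mul 1).add (h3 i)
    simp only [h4]
    rw [integral_finsetSum _ fun i _ => h5 i]
    exact Finset.sum_eq_zero fun i _ => (div_lin h (u i) (hl i) (cl i) (pl i)).2

theorem div_fst {G : E × E × H → ℝ} {G' : E × E × H → E × E × H → ℝ} (h : Smth G G') (x0 : E) :
    Integrable (fun w => G' w (w.1 - x0, 0, 0)) ∧
      ∫ w, ((Module.finrank ℝ E : ℝ) * G w + G' w (w.1 - x0, 0, 0)) = 0 := by
  set b := stdOrthonormalBasis ℝ E with hb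
  have key := sum_DivF h (fun k => (b k, (0 : E), (0 : H))) (fun k w => ⟪w.1 - x0, b k⟫_ℝ) ?_ ?_ ?_
    (fun w => (w.1 - x0, 0, 0)) ?_
  · rwa [Fintype.card_fin] at key
  · intro k w
    have h1 : ∀ t : ℝ, ⟪(w + t • ((b k, (0 : E), (0 : H)) : E × E × H)).1 - x0, b k⟫_ℝ =
        ⟪w.1 - x0, b k⟫_ℝ + t := by
      intro t
      have h2 : (w + t • ((b k, (0 : E), (0 : H)) : E × E × H)).1 - x0 =
          (w.1 - x0) + t • b k := by
        simp only [Prod.fst_add, Prod.smul_fst]
        abel
      rw [h2, inner_add_left, real_inner_smul_left, real_inner_self_eq_norm_sq,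
        b.orthonormal.1 k]
      ring
    show HasDerivAt (fun t : ℝ => ⟪(w + t • ((b k, (0 : E), (0 : H)) : E × E × H)).1 - x0,
      b k⟫_ℝ) 1 0
    simp only [h1]
    exact (hasDerivAt_id (0 : ℝ)).const_add _
  · intro k
    exact (continuous_fst.sub continuous_const).inner continuous_const
  · intro k
    exact pol_inner_fst _ _
  · intro w
    have h1 := b.sum_repr' (w.1 - x0)
    have h2 : ∑ k, ⟪w.1 - x0, b k⟫_ℝ • ((b k, (0 : E), (0 : H)) : E × E × H) =
        (∑ k, ⟪b k, w.1 - x0⟫_ℝ • b k, 0, 0) := by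
      refine Prod.ext ?_ (Prod.ext ?_ ?_)
      · rw [Prod.fst_sum]
        refine Finset.sum_congr rfl fun k _ => ?_
        rw [real_inner_comm]
        rfl
      · rw [Prod.snd_sum, Prod.fst_sum]
        refine Finset.sum_eq_zero fun k _ => ?_
        simp
      · rw [Prod.snd_sum, Prod.snd_sum]
        refine Finset.sum_eq_zero fun k _ => ?_
        simp
    rw [h2, h1]

end Pool.Agent.KneserBridge
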