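import Pool.Agent.KneserBridge.Rapid

/-!
# Integrals of divergences, one direction

PROOF of `div_lin`. Mathlib's
`integral_bilinear_hasLineDerivAt_right_eq_neg_left_of_integrable` (see
`Pool.Agent.Kneser.integral_lineDeriv_eq_zero` for a use with the constant function `1`; the
measure `volume` on `E × E × H` is a product of Haar measures, `Measure.volume_eq_prod`) applied
to the function `w ↦ ℓ w * G w`, whose line derivative in direction `u` is
`c * G w + ℓ w * G' w u`, and the constant `1`; or directly to `ℓ` and `G`. Integrability from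
`rap_integrable`, `rap_mul_pol`.
-/

set_option autoImplicit false
set_option linter.unusedSectionVars false

namespace Pool.Agent.KneserBridge

open MeasureTheory Set Filter Topology
open scoped InnerProductSpace

variable {E H : Type*} [NormedAddCommGroup E] [InnerProductSpace ℝ E] [FiniteDimensional ℝ E]
  [MeasurableSpace E] [BorelSpace E] [NormedAddCommGroup H] [InnerProductSpace ℝ H]
  [FiniteDimensional ℝ H] [MeasurableSpace H] [BorelSpace H] {n : ℕ}

/-- `G` is differentiable with directional derivatives `G' w u`, everything rapidly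
decreasing. -/
structure Smth (G : E × E × H → ℝ) (G' : E × E × H → E × E × H → ℝ) : Prop where
  hd : ∀ w u, HasLineDerivAt ℝ G (G' w u) w u
  lin : ∀ w, IsLinearMap ℝ (G' w)
  cG : Continuous G
  cG' : ∀ u, Continuous fun w => G' w u
  rG : Rap G
  rG' : ∀ u, Rap fun w => G' w u

theorem div_lin {G : E × E × H → ℝ} {G' : E × E × H → E × E × H → ℝ} (h : Smth G G')
    (u : E × E × H) {ℓ : E × E × H → ℝ} {c : ℝ} (hl : ∀ w, HasLineDerivAt ℝ ℓ c w u)
    (cl : Continuous ℓ) (pl : Pol ℓ) :
    Integrable (fun w => ℓ w * G' w u) ∧ ∫ w, (c * G w + ℓ w * G' w u) = 0 := by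
  have i1 : Integrable (fun w => ℓ w * G' w u) := by
    have h1 := rap_integrable (rap_mul_pol (h.rG' u) pl)
      ((h.cG' u).mul cl).aestronglyMeasurable
    refine h1.congr (Eventually.of_forall fun w => ?_)
    exact mul_comm _ _
  have i2 : Integrable (fun w => c * G w) :=
    (rap_integrable h.rG h.cG.aestronglyMeasurable).const_mul c
  have i3 : Integrable (fun w => ℓ w * G w) := by
    have h1 := rap_integrable (rap_mul_pol h.rG pl) (h.cG.mul cl).aestronglyMeasurable
    refine h1.congr (Eventually.of_forall fun w => ?_)
    exact mul_comm _ _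
  refine ⟨i1, ?_⟩
  have hEH : (volume : Measure (E × H)).IsAddHaarMeasure :=
    Measure.prod.instIsAddHaarMeasure volume volume
  have hV : (volume : Measure (E × E × H)).IsAddHaarMeasure :=
    Measure.prod.instIsAddHaarMeasure volume volume
  have key := integral_bilinear_hasLineDerivAt_right_eq_neg_left_of_integrable
    (μ := (volume : Measure (E × E × H))) (f := ℓ) (f' := fun _ => c) (g := G)
    (g' := fun w => G' w u) (v := u) (B := ContinuousLinearMap.mul ℝ ℝ)
    (by simpa using i2) (by simpa using i1) (by simpa using i3) (fun w _ => hl w)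
    (fun w _ => h.hd w u)
  simp only [ContinuousLinearMap.mul_apply'] at key
  rw [integral_add i2 i1, key]
  ring

theorem smth_integrable {G : E × E × H → ℝ} {G' : E × E × H → E × E × H → ℝ}
    (h : Smth G G') : Integrable G :=
  rap_integrable h.rG h.cG.aestronglyMeasurable

theorem div_const {G : E × E × H → ℝ} {G' : E × E × H → E × E × H → ℝ} (h : Smth G G')
    (u : E × E × H) :
    Integrable (fun w => G' w u) ∧ ∫ w, G' w u = 0 := by
  have := div_lin h u (ℓ := fun _ => 1) (c := 0) (fun w => by
    simpa [HasLineDerivAt] using hasDerivAt_const (0 : ℝ) (1 : ℝ)) continuous_const (pol_const 1)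
  simpa using this

end Pool.Agent.KneserBridge
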