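import Pool.Agent.KneserBridge.DivLin

/-!
# Divergence in the second component

PROOF. With an orthonormal basis `b` of `E` (`stdOrthonormalBasis ℝ E`, indexed by
`Fin (finrank ℝ E)`) apply `div_lin` in the direction `(0, b k, 0)` with
`ℓ w = ⟪w.2.1, b k⟫`, `c = ⟪b k, b k⟫ = 1` (`pol_inner_snd`), sum over `k` and use
`∑ k, ⟪w.2.1, b k⟫ • b k = w.2.1` (`OrthonormalBasis.sum_repr`) and the linearity of `G' w`.
-/

set_option autoImplicit false
set_option linter.unusedSectionVars false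

namespace Pool.Agent.KneserBridge

open MeasureTheory Set Filter Topology
open scoped InnerProductSpace

variable {E H : Type*} [NormedAddCommGroup E] [InnerProductSpace ℝ E] [FiniteDimensional ℝ E]
  [MeasurableSpace E] [BorelSpace E] [NormedAddCommGroup H] [InnerProductSpace ℝ H]
  [FiniteDimensional ℝ H] [MeasurableSpace H] [BorelSpace H] {n : ℕ}

private theorem divS_repr (G' : E × E × H → E × E × H → ℝ) (hl : ∀ w, IsLinearMap ℝ (G' w))
    (w : E × E × H) : G' w (0, w.2.1, 0) =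
      ∑ k, ⟪w.2.1, stdOrthonormalBasis ℝ E k⟫_ℝ * G' w (0, stdOrthonormalBasis ℝ E k, 0) := by
  set b := stdOrthonormalBasis ℝ E with hb
  let L : E × E × H →ₗ[ℝ] ℝ := (hl w).mk' (G' w)
  have hL : ∀ v, L v = G' w v := fun v => rfl
  let J : E →ₗ[ℝ] E × E × H := (LinearMap.inr ℝ E (E × H)).comp (LinearMap.inl ℝ E H)
  have hJ : ∀ v, J v = (0, v, 0) := fun v => rfl
  have h1 : w.2.1 = ∑ k, ⟪w.2.1, b k⟫_ℝ • b k := by
    conv_lhs => rw [← b.sum_repr' w.2.1]
    refine Finset.sum_congr rfl fun k _ => ?_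
    rw [real_inner_comm]
  calc G' w (0, w.2.1, 0) = L (J w.2.1) := rfl
    _ = L (J (∑ k, ⟪w.2.1, b k⟫_ℝ • b k)) := by rw [← h1]
    _ = ∑ k, ⟪w.2.1, b k⟫_ℝ * G' w (0, b k, 0) := by
        rw [map_sum, map_sum]
        refine Finset.sum_congr rfl fun k _ => ?_
        rw [map_smul, map_smul, smul_eq_mul, hL, hJ]

private theorem divS_line (w : E × E × H) (v : E) (hv : ‖v‖ = 1) :
    HasLineDerivAt ℝ (fun w : E × E × H => ⟪w.2.1, v⟫_ℝ) 1 w (0, v, 0) := by
  have h1 : HasDerivAt (fun t : ℝ => ⟪w.2.1, v⟫_ℝ + t * 1) (1 : ℝ) 0 := by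
    have h2 := ((hasDerivAt_id (0 : ℝ)).mul_const (1 : ℝ)).const_add ⟪w.2.1, v⟫_ℝ
    simpa using h2
  refine h1.congr_of_eventuallyEq (Eventually.of_forall fun t => ?_)
  simp only [Prod.snd_add, Prod.fst_add, Prod.smul_mk, smul_zero]
  rw [inner_add_left, real_inner_smul_left, real_inner_self_eq_norm_sq, hv, one_pow]

theorem div_snd {G : E × E × H → ℝ} {G' : E × E × H → E × E × H → ℝ} (h : Smth G G') :
    Integrable (fun w => G' w (0, w.2.1, 0)) ∧
      ∫ w, ((Module.finrank ℝ E : ℝ) * G w + G' w (0, w.2.1, 0)) = 0 := by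
  set b := stdOrthonormalBasis ℝ E with hb
  have hk : ∀ k, Integrable (fun w : E × E × H => ⟪w.2.1, b k⟫_ℝ * G' w (0, b k, 0)) ∧
      ∫ w, ((1 : ℝ) * G w + ⟪w.2.1, b k⟫_ℝ * G' w (0, b k, 0)) = 0 := fun k =>
    div_lin h (0, b k, 0) (ℓ := fun w => ⟪w.2.1, b k⟫_ℝ) (c := 1)
      (fun w => divS_line w (b k) (b.orthonormal.1 k)) (by fun_prop) (pol_inner_snd (b k))
  have hfun : (fun w => G' w (0, w.2.1, 0)) =
      fun w => ∑ k, ⟪w.2.1, b k⟫_ℝ * G' w (0, b k, 0) := by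
    funext w
    exact divS_repr G' h.lin w
  have hint : Integrable (fun w => G' w (0, w.2.1, 0)) := by
    rw [hfun]
    exact integrable_finsetSum _ fun k _ => (hk k).1
  refine ⟨hint, ?_⟩
  have hG := smth_integrable h
  have h1 : (fun w => (Module.finrank ℝ E : ℝ) * G w + G' w (0, w.2.1, 0)) =
      fun w => ∑ k, ((1 : ℝ) * G w + ⟪w.2.1, b k⟫_ℝ * G' w (0, b k, 0)) := by
    funext w
    rw [divS_repr G' h.lin w, Finset.sum_add_distrib]
    simp [hb]
  have h2 : ∀ k ∈ (Finset.univ : Finset (Fin (Module.finrank ℝ E))),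
      Integrable (fun w => (1 : ℝ) * G w + ⟪w.2.1, b k⟫_ℝ * G' w (0, b k, 0)) :=
    fun k _ => (hG.const_mul 1).add (hk k).1
  rw [h1, integral_finsetSum _ h2]
  exact Finset.sum_eq_zero fun k _ => (hk k).2

end Pool.Agent.KneserBridge
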