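import Pool.Agent.KneserBridge.DivLin

/-!
# Divergence in the third component

PROOF. With an orthonormal basis `b` of `H` (`stdOrthonormalBasis ℝ H`, indexed by
`Fin (finrank ℝ H)`) apply `div_lin` in the direction `(0, 0, b k)` with
`ℓ w = ⟪w.2.2, b k⟫`, `c = ⟪b k, b k⟫ = 1` (`pol_inner_thd`), sum over `k` and use
`∑ k, ⟪w.2.2, b k⟫ • b k = w.2.2` (`OrthonormalBasis.sum_repr`) and the linearity of `G' w`.
-/

set_option autoImplicit false
set_option linter.unusedSectionVars false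

namespace Pool.Agent.KneserBridge

open MeasureTheory Set Filter Topology
open scoped InnerProductSpace

variable {E H : Type*} [NormedAddCommGroup E] [InnerProductSpace ℝ E] [FiniteDimensional ℝ E]
  [MeasurableSpace E] [BorelSpace E] [NormedAddCommGroup H] [InnerProductSpace ℝ H]
  [FiniteDimensional ℝ H] [MeasurableSpace H] [BorelSpace H] {n : ℕ}

private theorem lin_DivT {f : E × E × H → ℝ} (hf : IsLinearMap ℝ f) (v : H) :
    f (0, 0, v) = ∑ k, ⟪v, stdOrthonormalBasis ℝ H k⟫_ℝ *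
      f (0, 0, stdOrthonormalBasis ℝ H k) := by
  have h1 : ((0, 0, v) : E × E × H) = ∑ k, ⟪v, stdOrthonormalBasis ℝ H k⟫_ℝ •
      ((0, 0, stdOrthonormalBasis ℝ H k) : E × E × H) := by
    refine Prod.ext ?_ (Prod.ext ?_ ?_)
    · simp [Prod.fst_sum]
    · simp [Prod.snd_sum, Prod.fst_sum]
    · simp only [Prod.snd_sum, Prod.smul_snd]
      conv_lhs => rw [← (stdOrthonormalBasis ℝ H).sum_repr' v]
      exact Finset.sum_congr rfl fun k _ => by rw [real_inner_comm]
  have h2 := map_sum hf.mk' (fun k => ⟪v, stdOrthonormalBasis ℝ H k⟫_ℝ •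
      ((0, 0, stdOrthonormalBasis ℝ H k) : E × E × H)) Finset.univ
  rw [← h1] at h2
  simp only [map_smul, smul_eq_mul] at h2
  exact h2

theorem div_thd {G : E × E × H → ℝ} {G' : E × E × H → E × E × H → ℝ} (h : Smth G G') :
    Integrable (fun w => G' w (0, 0, w.2.2)) ∧
      ∫ w, ((Module.finrank ℝ H : ℝ) * G w + G' w (0, 0, w.2.2)) = 0 := by
  have key : ∀ k, Integrable (fun w : E × E × H => ⟪w.2.2, stdOrthonormalBasis ℝ H k⟫_ℝ *
      G' w (0, 0, stdOrthonormalBasis ℝ H k)) ∧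
      ∫ w : E × E × H, ((1 : ℝ) * G w + ⟪w.2.2, stdOrthonormalBasis ℝ H k⟫_ℝ *
        G' w (0, 0, stdOrthonormalBasis ℝ H k)) = 0 := by
    intro k
    refine div_lin h (0, 0, stdOrthonormalBasis ℝ H k)
      (ℓ := fun w => ⟪w.2.2, stdOrthonormalBasis ℝ H k⟫_ℝ) (c := 1) (fun w => ?_)
      (by fun_prop) (pol_inner_thd _)
    have h1 : ∀ t : ℝ, ⟪(w + t • ((0, 0, stdOrthonormalBasis ℝ H k) : E × E × H)).2.2,
        stdOrthonormalBasis ℝ H k⟫_ℝ = ⟪w.2.2, stdOrthonormalBasis ℝ H k⟫_ℝ + t := by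
      intro t
      simp only [Prod.snd_add, Prod.smul_snd, inner_add_left, inner_smul_left,
        real_inner_self_eq_norm_sq, (stdOrthonormalBasis ℝ H).norm_eq_one]
      simp
    unfold HasLineDerivAt
    simp only [h1]
    simpa using (hasDerivAt_id (0 : ℝ)).const_add ⟪w.2.2, stdOrthonormalBasis ℝ H k⟫_ℝ
  have hG := smth_integrable h
  have e1 : ∀ w : E × E × H, G' w (0, 0, w.2.2) =
      ∑ k, ⟪w.2.2, stdOrthonormalBasis ℝ H k⟫_ℝ * G' w (0, 0, stdOrthonormalBasis ℝ H k) :=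
    fun w => lin_DivT (h.lin w) w.2.2
  refine ⟨?_, ?_⟩
  · simp only [e1]
    exact integrable_finsetSum _ fun k _ => (key k).1
  · have e2 : ∀ w : E × E × H, (Module.finrank ℝ H : ℝ) * G w + G' w (0, 0, w.2.2) =
        ∑ k, ((1 : ℝ) * G w + ⟪w.2.2, stdOrthonormalBasis ℝ H k⟫_ℝ *
          G' w (0, 0, stdOrthonormalBasis ℝ H k)) := by
      intro w
      rw [e1, Finset.sum_add_distrib]
      simp
    simp only [e2]
    have hI : ∀ k ∈ (Finset.univ : Finset (Fin (Module.finrank ℝ H))),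
        Integrable (fun w : E × E × H => (1 : ℝ) * G w +
          ⟪w.2.2, stdOrthonormalBasis ℝ H k⟫_ℝ * G' w (0, 0, stdOrthonormalBasis ℝ H k)) :=
      fun k _ => (hG.const_mul 1).add (key k).1
    rw [integral_finsetSum _ hI]
    exact Finset.sum_eq_zero fun k _ => (key k).2

end Pool.Agent.KneserBridge
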