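import Pool.Agent.KneserBridge.Defs

/-!
# Gaussian domination, integrability

PROOF. `(1 + q) ^ k * exp (-c q) ≤ C' * exp (-c q / 2)` for `q ≥ 0` (for instance
`Real.add_one_le_exp` for `1 + c' q`, or `x ^ k ≤ k! exp x`), and `exp (-c qq / 2)` is a product of
three Gaussians on `E`, `E`, `H` (`Integrable.mul_prod`; each factor
`GaussianFourier.integrable_cexp_neg_mul_sq_norm_add` or an `integrable_exp_neg_mul_sq_norm`-type
lemma; see also `Pool.Agent.KneserRank.Gauss`). Then `Integrable.mono'`.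
-/

set_option autoImplicit false
set_option linter.unusedSectionVars false

namespace Pool.Agent.KneserBridge

open MeasureTheory Set Filter Topology
open scoped InnerProductSpace

variable {E H : Type*} [NormedAddCommGroup E] [InnerProductSpace ℝ E] [FiniteDimensional ℝ E]
  [MeasurableSpace E] [BorelSpace E] [NormedAddCommGroup H] [InnerProductSpace ℝ H]
  [FiniteDimensional ℝ H] [MeasurableSpace H] [BorelSpace H] {n : ℕ}

private theorem dom_gauss {c : ℝ} (hc : 0 < c) (X : Type*) [NormedAddCommGroup X]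
    [InnerProductSpace ℝ X] [FiniteDimensional ℝ X] [MeasurableSpace X] [BorelSpace X] :
    Integrable (fun x : X => Real.exp (-c * ‖x‖ ^ 2)) := by
  by_contra h
  have h1 := GaussianFourier.integral_rexp_neg_mul_sq_norm (V := X) hc
  rw [integral_undef h] at h1
  have h2 : 0 < (Real.pi / c) ^ ((Module.finrank ℝ X : ℝ) / 2) :=
    Real.rpow_pos_of_pos (div_pos Real.pi_pos hc) _
  exact h2.ne h1

private theorem dom_pow {c : ℝ} (hc : 0 < c) (k : ℕ) :
    ∃ C : ℝ, 0 ≤ C ∧ ∀ t : ℝ, 0 ≤ t →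
      (1 + t) ^ k * Real.exp (-c * t) ≤ C * Real.exp (-(c / 2) * t) := by
  refine ⟨(Nat.factorial k : ℝ) / (c / 2) ^ k * Real.exp (c / 2), by positivity, ?_⟩
  intro t ht
  have h1 : (c / 2 * (1 + t)) ^ k / (Nat.factorial k : ℝ) ≤ Real.exp (c / 2 * (1 + t)) :=
    Real.pow_div_factorial_le_exp _ (by positivity) k
  have hf : (0 : ℝ) < (Nat.factorial k : ℝ) := by exact_mod_cast Nat.factorial_pos k
  have hck : (0 : ℝ) < (c / 2) ^ k := by positivity
  have h2 : (1 + t) ^ k ≤ (Nat.factorial k : ℝ) / (c / 2) ^ k * Real.exp (c / 2 * (1 + t)) := by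
    rw [div_mul_eq_mul_div, le_div_iff₀ hck]
    rw [div_le_iff₀ hf, mul_pow] at h1
    nlinarith [h1]
  calc (1 + t) ^ k * Real.exp (-c * t)
      ≤ ((Nat.factorial k : ℝ) / (c / 2) ^ k * Real.exp (c / 2 * (1 + t))) *
          Real.exp (-c * t) := mul_le_mul_of_nonneg_right h2 (Real.exp_pos _).le
    _ = (Nat.factorial k : ℝ) / (c / 2) ^ k * Real.exp (c / 2) * Real.exp (-(c / 2) * t) := by
        rw [mul_assoc, mul_assoc, ← Real.exp_add, ← Real.exp_add]
        congr 2
        ring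

theorem rap_integrable {g : E × E × H → ℝ} (hg : Rap g) (hm : AEStronglyMeasurable g volume) :
    Integrable g := by
  obtain ⟨C, c, hc, k, hb⟩ := hg
  obtain ⟨C', hC', hp⟩ := dom_pow hc k
  have hc2 : 0 < c / 2 := half_pos hc
  have hI : Integrable (fun w : E × E × H => Real.exp (-(c / 2) * ‖w.1‖ ^ 2) *
      (Real.exp (-(c / 2) * ‖w.2.1‖ ^ 2) * Real.exp (-(c / 2) * ‖w.2.2‖ ^ 2))) :=
    (dom_gauss hc2 E).mul_prod ((dom_gauss hc2 E).mul_prod (dom_gauss hc2 H))
  refine Integrable.mono' (hI.const_mul (|C| * C')) hm (Eventually.of_forall fun w => ?_)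
  have hq : 0 ≤ qq w := by
    unfold qq
    positivity
  have h1 := hb w
  have h2 := hp (qq w) hq
  have h3 : Real.exp (-(c / 2) * qq w) = Real.exp (-(c / 2) * ‖w.1‖ ^ 2) *
      (Real.exp (-(c / 2) * ‖w.2.1‖ ^ 2) * Real.exp (-(c / 2) * ‖w.2.2‖ ^ 2)) := by
    rw [← Real.exp_add, ← Real.exp_add]
    congr 1
    unfold qq
    ring
  rw [Real.norm_eq_abs, ← h3]
  have h4 : 0 ≤ (1 + qq w) ^ k * Real.exp (-c * qq w) := by positivity
  calc |g w| ≤ C * (1 + qq w) ^ k * Real.exp (-c * qq w) := h1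
    _ = C * ((1 + qq w) ^ k * Real.exp (-c * qq w)) := by ring
    _ ≤ |C| * ((1 + qq w) ^ k * Real.exp (-c * qq w)) :=
        mul_le_mul_of_nonneg_right (le_abs_self C) h4
    _ ≤ |C| * (C' * Real.exp (-(c / 2) * qq w)) :=
        mul_le_mul_of_nonneg_left h2 (abs_nonneg C)
    _ = |C| * C' * Real.exp (-(c / 2) * qq w) := by ring

end Pool.Agent.KneserBridge
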