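import Pool.Agent.KneserBridge.Defs

/-!
# Gaussian domination on the support

PROOF. If `v l ≤ 1` then `‖η - x l‖² ≤ 2 ‖ξ‖ ‖r l‖ + ‖r l‖² + 1`, so
`‖η‖² ≤ 2 ‖η - x l‖² + 2 ‖x l‖² ≤ (lam0 / 2) ‖ξ‖² + A`, `A = 8 ‖r l‖² / lam0 + 2 ‖r l‖² + 2 +
2 ‖x l‖²` (`4 ‖ξ‖ ‖r‖ ≤ (lam0 / 2) ‖ξ‖² + (8 / lam0) ‖r‖²`); take the sum over `l` for `A`,
`C = exp A`, `c = min 1 (lam0 / 2)`:
`-lam (z + X) ≤ -lam0 z - lam0 X ≤ A - ‖η‖² - lam0 z - (lam0 / 2) X ≤ A - c qq`.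
-/

set_option autoImplicit false
set_option linter.unusedSectionVars false

namespace Pool.Agent.KneserBridge

open MeasureTheory Set Filter Topology
open scoped InnerProductSpace

variable {E H : Type*} [NormedAddCommGroup E] [InnerProductSpace ℝ E] [FiniteDimensional ℝ E]
  [MeasurableSpace E] [BorelSpace E] [NormedAddCommGroup H] [InnerProductSpace ℝ H]
  [FiniteDimensional ℝ H] [MeasurableSpace H] [BorelSpace H] {n : ℕ}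

theorem ex_le_of_vv (x : Fin n → E) (r : Fin n → H) {lam0 : ℝ} (h : 0 < lam0) :
    ∃ C c : ℝ, 0 ≤ C ∧ 0 < c ∧ ∀ lam, lam0 ≤ lam → ∀ w : E × E × H,
      (∃ l, vv x r l w ≤ 1) → ex lam w ≤ C * Real.exp (-c * qq w) := by
  set A : Fin n → ℝ := fun l => 8 / lam0 * ‖r l‖ ^ 2 + 2 * ‖r l‖ ^ 2 + 2 + 2 * ‖x l‖ ^ 2 with hA
  have hA0 : ∀ l, 0 ≤ A l := fun l => by
    rw [hA]
    positivity
  refine ⟨Real.exp (∑ l, A l), min 1 (lam0 / 2), (Real.exp_pos _).le,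
    lt_min one_pos (half_pos h), ?_⟩
  rintro lam hlam w ⟨l, hl⟩
  have hAl : A l ≤ ∑ l, A l := Finset.single_le_sum (fun i _ => hA0 i) (Finset.mem_univ l)
  have hz : 0 ≤ zz w := sq_nonneg _
  have hx : 0 ≤ xx w := sq_nonneg _
  have h1 : ‖w.1 - x l‖ ^ 2 ≤ 1 + 2 * (‖w.2.2‖ * ‖r l‖) + ‖r l‖ ^ 2 := by
    have h2 := real_inner_le_norm w.2.2 (r l)
    have h3 : ‖w.1 - x l‖ ^ 2 + zz w - 2 * ⟪w.2.2, r l⟫_ℝ - ‖r l‖ ^ 2 ≤ 1 := hl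
    linarith
  have h4 : ‖w.1‖ ^ 2 ≤ 2 * ‖w.1 - x l‖ ^ 2 + 2 * ‖x l‖ ^ 2 := by
    have h5 : ‖w.1‖ ≤ ‖w.1 - x l‖ + ‖x l‖ := by
      calc ‖w.1‖ = ‖(w.1 - x l) + x l‖ := by rw [sub_add_cancel]
        _ ≤ _ := norm_add_le _ _
    have h6 : ‖w.1‖ ^ 2 ≤ (‖w.1 - x l‖ + ‖x l‖) ^ 2 := by
      have := norm_nonneg w.1
      gcongr
    nlinarith [sq_nonneg (‖w.1 - x l‖ - ‖x l‖)]
  have h7 : 4 * (‖w.2.2‖ * ‖r l‖) ≤ lam0 / 2 * xx w + 8 / lam0 * ‖r l‖ ^ 2 := by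
    have h8 : lam0 / 2 * xx w + 8 / lam0 * ‖r l‖ ^ 2 - 4 * (‖w.2.2‖ * ‖r l‖) =
        1 / (2 * lam0) * (lam0 * ‖w.2.2‖ - 4 * ‖r l‖) ^ 2 := by
      unfold xx
      field_simp
      ring
    have h9 : 0 ≤ 1 / (2 * lam0) * (lam0 * ‖w.2.2‖ - 4 * ‖r l‖) ^ 2 := by positivity
    linarith
  have h10 : ‖w.1‖ ^ 2 ≤ lam0 / 2 * xx w + A l := by
    rw [hA]
    linarith
  have hc1 : min 1 (lam0 / 2) ≤ 1 := min_le_left _ _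
  have hc2 : min 1 (lam0 / 2) ≤ lam0 / 2 := min_le_right _ _
  have e1 : min 1 (lam0 / 2) * ‖w.1‖ ^ 2 ≤ 1 * ‖w.1‖ ^ 2 :=
    mul_le_mul_of_nonneg_right hc1 (sq_nonneg _)
  have e2 : min 1 (lam0 / 2) * zz w ≤ lam0 / 2 * zz w := mul_le_mul_of_nonneg_right hc2 hz
  have e3 : min 1 (lam0 / 2) * xx w ≤ lam0 / 2 * xx w := mul_le_mul_of_nonneg_right hc2 hx
  have e4 : lam0 * (zz w + xx w) ≤ lam * (zz w + xx w) :=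
    mul_le_mul_of_nonneg_right hlam (add_nonneg hz hx)
  have e5 : 0 ≤ lam0 / 2 * zz w := mul_nonneg (half_pos h).le hz
  have hq : qq w = ‖w.1‖ ^ 2 + zz w + xx w := rfl
  unfold ex
  rw [← Real.exp_add]
  apply Real.exp_le_exp.mpr
  rw [hq]
  linarith

end Pool.Agent.KneserBridge
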