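import Pool.Agent.KneserBridge.IntOne

/-!
# The error term is small

PROOF. Put `s = (d + N) / 2`. For `lam ∈ [lam0, lam1]`, `ex_le_of_vv` (with `lam0`) gives
`|err| ≤ (2 lam1 z + d) C1 exp (-c qq) |∑ v f|`: if all `f i w` vanish both sides are `0`, otherwise
some `v i ≤ 1` (`f_eq_zero`). `lam ^ (s - 1) ≤ lam0 ^ (s - 1) + lam1 ^ (s - 1)` (monotone or
antitone in `lam`). Take `C = (lam0 ^ (s - 1) + lam1 ^ (s - 1)) * (2 lam1 + d) * C1`. The right
integrand is integrable: `|v i f i|` is polynomially bounded, and a polynomial times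
`exp (-c qq)` is `Rap`. The constants depend on `lam0, lam1, x, r` only.
-/

set_option autoImplicit false
set_option linter.unusedSectionVars false

namespace Pool.Agent.KneserBridge

open MeasureTheory Set Filter Topology
open scoped InnerProductSpace

variable {E H : Type*} [NormedAddCommGroup E] [InnerProductSpace ℝ E] [FiniteDimensional ℝ E]
  [MeasurableSpace E] [BorelSpace E] [NormedAddCommGroup H] [InnerProductSpace ℝ H]
  [FiniteDimensional ℝ H] [MeasurableSpace H] [BorelSpace H] {n : ℕ}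

private theorem sum_pol_ErrLe (D : Dat) (x : Fin n → E) (r : Fin n → H) :
    Pol fun w : E × E × H => ∑ i, vv x r i w * D.f x r i w :=
  pol_sum Finset.univ fun i _ => pol_mul (pol_vv x r i) (pols_f D x r i).pP

private theorem sum_cont_ErrLe (D : Dat) (x : Fin n → E) (r : Fin n → H) :
    Continuous fun w : E × E × H => ∑ i, vv x r i w * D.f x r i w :=
  continuous_finsetSum _ fun i _ => (pols_vv x r i).cP.mul (pols_f D x r i).cP

private theorem integrable_ErrLe (D : Dat) (x : Fin n → E) (r : Fin n → H) {c : ℝ}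
    (hc : 0 < c) : Integrable fun w : E × E × H => (1 + zz w) * Real.exp (-c * qq w) *
      |∑ i, vv x r i w * D.f x r i w| := by
  refine rap_integrable ?_ ?_
  · obtain ⟨C, k, hC⟩ := pol_mul (pol_add (pol_const (E := E) (H := H) 1) pol_zz)
      (sum_pol_ErrLe D x r)
    refine ⟨C, c, hc, k, fun w => ?_⟩
    have h1 := hC w
    rw [abs_mul] at h1
    rw [abs_mul, abs_mul, abs_abs, abs_of_pos (Real.exp_pos _)]
    calc |1 + zz w| * Real.exp (-c * qq w) * |∑ i, vv x r i w * D.f x r i w|
        = |1 + zz w| * |∑ i, vv x r i w * D.f x r i w| * Real.exp (-c * qq w) := by ring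
      _ ≤ C * (1 + qq w) ^ k * Real.exp (-c * qq w) :=
        mul_le_mul_of_nonneg_right h1 (Real.exp_pos _).le
  · refine Continuous.aestronglyMeasurable ?_
    have h1 : Continuous (zz : E × E × H → ℝ) := pols_zz.cP
    have h2 : Continuous (qq : E × E × H → ℝ) := by
      unfold qq
      fun_prop
    exact ((continuous_const.add h1).mul
      (Real.continuous_exp.comp (continuous_const.mul h2))).mul (sum_cont_ErrLe D x r).abs

private theorem rpow_ErrLe {lam0 lam1 lam : ℝ} (h0 : 0 < lam0) (h1 : lam0 ≤ lam)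
    (h2 : lam ≤ lam1) (s : ℝ) : lam ^ s ≤ lam0 ^ s + lam1 ^ s := by
  have p0 : 0 < lam0 ^ s := Real.rpow_pos_of_pos h0 s
  have p1 : 0 < lam1 ^ s := Real.rpow_pos_of_pos (h0.trans_le (h1.trans h2)) s
  rcases le_total 0 s with hs | hs
  · have := Real.rpow_le_rpow (h0.le.trans h1) h2 hs
    linarith
  · have := Real.rpow_le_rpow_of_nonpos h0 h1 hs
    linarith

theorem err_le (x : Fin n → E) (r : Fin n → H) {lam0 lam1 : ℝ} (h0 : 0 < lam0)
    (h1 : lam0 ≤ lam1) :
    ∃ C c : ℝ, 0 ≤ C ∧ 0 < c ∧ ∀ D : Dat, ∀ lam, lam0 ≤ lam → lam ≤ lam1 →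
      lam ^ (((Module.finrank ℝ E : ℝ) + (Module.finrank ℝ H : ℝ)) / 2 - 1) *
        ∫ w, |D.err x r lam w| ≤
      C * ∫ w : E × E × H, (1 + zz w) * Real.exp (-c * qq w) *
          |∑ i, vv x r i w * D.f x r i w| := by
  obtain ⟨C1, c, hC1, hc, hex⟩ := ex_le_of_vv x r h0
  set d : ℝ := (Module.finrank ℝ E : ℝ) with hd
  have hd0 : 0 ≤ d := Nat.cast_nonneg _
  set s : ℝ := (d + (Module.finrank ℝ H : ℝ)) / 2 - 1 with hs
  have hlam1 : 0 < lam1 := h0.trans_le h1
  have q0 : 0 < lam0 ^ s := Real.rpow_pos_of_pos h0 s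
  have q1 : 0 < lam1 ^ s := Real.rpow_pos_of_pos hlam1 s
  refine ⟨(lam0 ^ s + lam1 ^ s) * ((2 * lam1 + d) * C1), c, by positivity, hc, ?_⟩
  intro D lam hl0 hl1
  have hpt : ∀ w : E × E × H, |D.err x r lam w| ≤ ((2 * lam1 + d) * C1) *
      ((1 + zz w) * Real.exp (-c * qq w) * |∑ i, vv x r i w * D.f x r i w|) := by
    intro w
    have hz : 0 ≤ zz w := by
      unfold zz
      positivity
    have hex0 : 0 < ex lam w := Real.exp_pos _
    have hfac : |2 * lam * zz w - d| ≤ (2 * lam1 + d) * (1 + zz w) := by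
      have e1 : lam * zz w ≤ lam1 * zz w := mul_le_mul_of_nonneg_right hl1 hz
      have e2 : 0 ≤ lam * zz w := mul_nonneg (h0.le.trans hl0) hz
      have e3 : 0 ≤ d * zz w := mul_nonneg hd0 hz
      rw [abs_le]
      constructor <;> nlinarith
    by_cases hsum : ∑ i, vv x r i w * D.f x r i w = 0
    · have : D.err x r lam w = 0 := by
        unfold Dat.err
        rw [hsum]
        ring
      rw [this, hsum, abs_zero, mul_zero, mul_zero]
    · have hl : ∃ l, vv x r l w ≤ 1 := by
        by_contra hcon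
        push Not at hcon
        apply hsum
        exact Finset.sum_eq_zero fun i _ => by rw [f_eq_zero D x r i (hcon i), mul_zero]
      have hE := hex lam hl0 w hl
      have hS : 0 ≤ |∑ i, vv x r i w * D.f x r i w| := abs_nonneg _
      unfold Dat.err
      rw [abs_mul, abs_mul, abs_of_pos hex0]
      calc |2 * lam * zz w - (Module.finrank ℝ E : ℝ)| * |∑ i, vv x r i w * D.f x r i w| *
            ex lam w
          ≤ ((2 * lam1 + d) * (1 + zz w)) * |∑ i, vv x r i w * D.f x r i w| *
            (C1 * Real.exp (-c * qq w)) := by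
            refine mul_le_mul (mul_le_mul_of_nonneg_right hfac hS) hE hex0.le ?_
            positivity
        _ = _ := by ring
  have hint := (integrable_ErrLe D x r hc).const_mul ((2 * lam1 + d) * C1)
  have hI := integral_mono_of_nonneg (μ := volume)
    (Filter.Eventually.of_forall fun w => abs_nonneg (D.err x r lam w)) hint
    (Filter.Eventually.of_forall hpt)
  rw [integral_const_mul] at hI
  have hIn : 0 ≤ ∫ w, |D.err x r lam w| := integral_nonneg fun w => abs_nonneg _
  have hp := rpow_ErrLe h0 hl0 hl1 s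
  calc lam ^ s * ∫ w, |D.err x r lam w|
      ≤ (lam0 ^ s + lam1 ^ s) * ∫ w, |D.err x r lam w| := mul_le_mul_of_nonneg_right hp hIn
    _ ≤ (lam0 ^ s + lam1 ^ s) * (((2 * lam1 + d) * C1) * ∫ w : E × E × H,
          (1 + zz w) * Real.exp (-c * qq w) * |∑ i, vv x r i w * D.f x r i w|) :=
        mul_le_mul_of_nonneg_left hI (by positivity)
    _ = _ := by ring

end Pool.Agent.KneserBridge
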