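import Pool.Agent.KneserBridge.Defs

/-!
# Scaling

PROOF. General: for `a b c > 0` and any function `G : E × E × H → ℝ`, `∫ G (a • η, b • ζ, c • ξ) =
(a ^ d * b ^ d * c ^ N)⁻¹ * ∫ G`. Proof: apply `Measure.addHaar` scaling on each factor:
`Measure.prod` maps; or the linear equivalence `(η, ζ, ξ) ↦ (a η, b ζ, c ξ)` and
`MeasureTheory.Measure.map_linearMap_addHaar_eq_smul_addHaar` with its determinant
(`LinearMap.det_prodMap`, `LinearMap.det_smul`), or `MeasurePreserving` of a rescaled product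
measure: `map (a • ·) volume = (a ^ d)⁻¹ • volume` (`Measure.map_addHaar_smul`),
`Measure.map_prod_map`, `integral_map` of a measurable equivalence
(`MeasurableEmbedding.integral_map` needs no integrability or measurability). `JJ_scale`:
substitution `w = (η, Z / t, Y / t)`, `lam = t ^ 2`, `lam ^ ((d + N) / 2) = t ^ (d + N)`.
`JJ_scale_zero`: `η = y / θ`, `ζ = w / θ`, `ξ = Y / θ²`, `lam = θ ^ 4`; the Jacobian `θ ^ (-2 d - 2
N)` cancels against `lam ^ ((d + N) / 2) = θ ^ (2 d + 2 N)`, and `v i ≤ 0` iff `θ² v i ≤ 0`, `θ² v i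
= ‖y - θ x i‖² + ‖w‖² - 2 ⟪Y, r i⟫ - θ² ‖r i‖²`. -/

set_option autoImplicit false
set_option linter.unusedSectionVars false

namespace Pool.Agent.KneserBridge

open MeasureTheory Set Filter Topology
open scoped InnerProductSpace

variable {E H : Type*} [NormedAddCommGroup E] [InnerProductSpace ℝ E] [FiniteDimensional ℝ E]
  [MeasurableSpace E] [BorelSpace E] [NormedAddCommGroup H] [InnerProductSpace ℝ H]
  [FiniteDimensional ℝ H] [MeasurableSpace H] [BorelSpace H] {n : ℕ}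

theorem integral_scale (G : E × E × H → ℝ) {a b c : ℝ} (ha : 0 < a) (hb : 0 < b) (hc : 0 < c) :
    ∫ w, G w = a ^ Module.finrank ℝ E * b ^ Module.finrank ℝ E * c ^ Module.finrank ℝ H *
      ∫ w : E × E × H, G (a • w.1, b • w.2.1, c • w.2.2) := by
  set L : (E × E × H) →ₗ[ℝ] (E × E × H) :=
    (a • (LinearMap.id : E →ₗ[ℝ] E)).prodMap
      ((b • (LinearMap.id : E →ₗ[ℝ] E)).prodMap (c • (LinearMap.id : H →ₗ[ℝ] H))) with hL
  have hdet : LinearMap.det L =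
      a ^ Module.finrank ℝ E * b ^ Module.finrank ℝ E * c ^ Module.finrank ℝ H := by
    rw [hL, LinearMap.det_prodMap, LinearMap.det_prodMap, LinearMap.det_smul,
      LinearMap.det_smul, LinearMap.det_smul, LinearMap.det_id, LinearMap.det_id]
    ring
  have hpos : 0 < a ^ Module.finrank ℝ E * b ^ Module.finrank ℝ E * c ^ Module.finrank ℝ H := by
    positivity
  have hdet0 : LinearMap.det L ≠ 0 := by rw [hdet]; exact hpos.ne'
  have i1 : ((volume : Measure E).prod (volume : Measure H)).IsAddHaarMeasure := inferInstance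
  have i2 : (volume : Measure (E × E × H)).IsAddHaarMeasure :=
    MeasureTheory.Measure.prod.instIsAddHaarMeasure _ _
  have hmap := MeasureTheory.Measure.map_linearMap_addHaar_eq_smul_addHaar
    (volume : Measure (E × E × H)) hdet0
  have hLfun : (L : E × E × H → E × E × H) =
      ((Homeomorph.smulOfNeZero a ha.ne').prodCongr
        ((Homeomorph.smulOfNeZero b hb.ne').prodCongr (Homeomorph.smulOfNeZero c hc.ne')) :
        E × E × H → E × E × H) := by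
    funext w
    rfl
  have hemb : MeasurableEmbedding (L : E × E × H → E × E × H) := by
    rw [hLfun]
    exact Homeomorph.measurableEmbedding _
  have h1 : ∫ w : E × E × H, G (a • w.1, b • w.2.1, c • w.2.2) = ∫ w, G (L w) := rfl
  have h2 := hemb.integral_map (μ := (volume : Measure (E × E × H))) G
  rw [h1, ← h2, hmap, integral_smul_measure, hdet, abs_of_pos (inv_pos.mpr hpos),
    ENNReal.toReal_ofReal (inv_pos.mpr hpos).le, smul_eq_mul, ← mul_assoc,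
    mul_inv_cancel₀ hpos.ne', one_mul]

theorem JJ_scale (x : Fin n → E) (r : Fin n → H) (m : ℝ) {t : ℝ} (ht : 0 < t) :
    JJ x r m (t ^ 2) = ∫ w : E × E × H,
      tr m (∑ i, if ‖w.1 - x i‖ ^ 2 + ‖w.2.1‖ ^ 2 / t ^ 2 - 2 * ⟪w.2.2, r i⟫_ℝ / t - ‖r i‖ ^ 2 ≤ 0
        then (1 : ℝ) else 0) *
        (((Module.finrank ℝ E : ℝ) - zz w) * Real.exp (-(zz w + xx w))) := by
  have hT : ∫ w : E × E × H, tr m (cv x r w) * om (t ^ 2) w = _ :=
    integral_scale (fun w => tr m (cv x r w) * om (t ^ 2) w) one_pos (inv_pos.mpr ht)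
      (inv_pos.mpr ht)
  rw [JJ, hT, ← integral_const_mul]
  refine integral_congr_ae (Eventually.of_forall fun w => ?_)
  have e1 : cv x r ((1 : ℝ) • w.1, t⁻¹ • w.2.1, t⁻¹ • w.2.2) =
      ∑ i, if ‖w.1 - x i‖ ^ 2 + ‖w.2.1‖ ^ 2 / t ^ 2 - 2 * ⟪w.2.2, r i⟫_ℝ / t - ‖r i‖ ^ 2 ≤ 0
        then (1 : ℝ) else 0 := by
    unfold cv
    refine Finset.sum_congr rfl fun i _ => ?_
    have e2 : vv x r i ((1 : ℝ) • w.1, t⁻¹ • w.2.1, t⁻¹ • w.2.2) =
        ‖w.1 - x i‖ ^ 2 + ‖w.2.1‖ ^ 2 / t ^ 2 - 2 * ⟪w.2.2, r i⟫_ℝ / t - ‖r i‖ ^ 2 := by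
      simp only [vv, zz, one_smul, norm_smul, norm_inv, Real.norm_eq_abs, abs_of_pos ht,
        real_inner_smul_left]
      field_simp
    rw [e2]
  have e3 : om (t ^ 2) ((1 : ℝ) • w.1, t⁻¹ • w.2.1, t⁻¹ • w.2.2) =
      t ^ (Module.finrank ℝ E + Module.finrank ℝ H) *
        (((Module.finrank ℝ E : ℝ) - zz w) * Real.exp (-(zz w + xx w))) := by
    have e4 : t ^ 2 * zz ((1 : ℝ) • w.1, t⁻¹ • w.2.1, t⁻¹ • w.2.2) = zz w := by
      simp only [zz, norm_smul, norm_inv, Real.norm_eq_abs, abs_of_pos ht]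
      field_simp
    have e5 : t ^ 2 * xx ((1 : ℝ) • w.1, t⁻¹ • w.2.1, t⁻¹ • w.2.2) = xx w := by
      simp only [xx, norm_smul, norm_inv, Real.norm_eq_abs, abs_of_pos ht]
      field_simp
    have e6 : (t ^ 2) ^ (((Module.finrank ℝ E : ℝ) + (Module.finrank ℝ H : ℝ)) / 2) =
        t ^ (Module.finrank ℝ E + Module.finrank ℝ H) := by
      rw [← Real.rpow_natCast t 2, ← Real.rpow_mul ht.le, ← Real.rpow_natCast]
      congr 1
      push_cast
      ring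
    unfold om ex
    rw [e6, e4]
    have e7 : -t ^ 2 * (zz ((1 : ℝ) • w.1, t⁻¹ • w.2.1, t⁻¹ • w.2.2) +
        xx ((1 : ℝ) • w.1, t⁻¹ • w.2.1, t⁻¹ • w.2.2)) = -(zz w + xx w) := by
      rw [neg_mul, mul_add, e4, e5]
    rw [e7]
  have e8 : (1 : ℝ) ^ Module.finrank ℝ E * t⁻¹ ^ Module.finrank ℝ E *
      t⁻¹ ^ Module.finrank ℝ H * t ^ (Module.finrank ℝ E + Module.finrank ℝ H) = 1 := by
    rw [one_pow, one_mul, inv_pow, inv_pow, pow_add]
    have : t ^ Module.finrank ℝ E ≠ 0 := (pow_pos ht _).ne'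
    have : t ^ Module.finrank ℝ H ≠ 0 := (pow_pos ht _).ne'
    field_simp
  simp only [e1, e3]
  rw [mul_left_comm, ← mul_assoc (_ * _ * _) (t ^ _), e8, one_mul]

theorem JJ_scale_zero (x : Fin n → E) (r : Fin n → H) (m : ℝ) {θ : ℝ} (ht : 0 < θ) :
    JJ x r m (θ ^ 4) = ∫ w : E × E × H,
      tr m (∑ i, if ‖w.1 - θ • x i‖ ^ 2 + zz w - 2 * ⟪w.2.2, r i⟫_ℝ - θ ^ 2 * ‖r i‖ ^ 2 ≤ 0
        then (1 : ℝ) else 0) *
        (((Module.finrank ℝ E : ℝ) - θ ^ 2 * zz w) * Real.exp (-(θ ^ 2 * zz w + xx w))) := by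
  have hti : 0 < (θ ^ 2)⁻¹ := by positivity
  have hT : ∫ w : E × E × H, tr m (cv x r w) * om (θ ^ 4) w = _ :=
    integral_scale (fun w => tr m (cv x r w) * om (θ ^ 4) w) (inv_pos.mpr ht)
      (inv_pos.mpr ht) hti
  rw [JJ, hT, ← integral_const_mul]
  refine integral_congr_ae (Eventually.of_forall fun w => ?_)
  have e1 : cv x r (θ⁻¹ • w.1, θ⁻¹ • w.2.1, (θ ^ 2)⁻¹ • w.2.2) =
      ∑ i, if ‖w.1 - θ • x i‖ ^ 2 + zz w - 2 * ⟪w.2.2, r i⟫_ℝ - θ ^ 2 * ‖r i‖ ^ 2 ≤ 0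
        then (1 : ℝ) else 0 := by
    unfold cv
    refine Finset.sum_congr rfl fun i _ => ?_
    have e2 : θ ^ 2 * vv x r i (θ⁻¹ • w.1, θ⁻¹ • w.2.1, (θ ^ 2)⁻¹ • w.2.2) =
        ‖w.1 - θ • x i‖ ^ 2 + zz w - 2 * ⟪w.2.2, r i⟫_ℝ - θ ^ 2 * ‖r i‖ ^ 2 := by
      have e9 : w.1 - θ • x i = θ • (θ⁻¹ • w.1 - x i) := by
        rw [smul_sub, smul_smul, mul_inv_cancel₀ ht.ne', one_smul]
      rw [e9]
      simp only [vv, zz, norm_smul, norm_inv, Real.norm_eq_abs, abs_of_pos ht,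
        real_inner_smul_left]
      field_simp
    have e10 : vv x r i (θ⁻¹ • w.1, θ⁻¹ • w.2.1, (θ ^ 2)⁻¹ • w.2.2) ≤ 0 ↔
        ‖w.1 - θ • x i‖ ^ 2 + zz w - 2 * ⟪w.2.2, r i⟫_ℝ - θ ^ 2 * ‖r i‖ ^ 2 ≤ 0 := by
      rw [← e2]
      have h2 : 0 < θ ^ 2 := by positivity
      constructor
      · intro h
        exact mul_nonpos_of_nonneg_of_nonpos h2.le h
      · intro h
        by_contra hc
        exact absurd h (not_le.mpr (mul_pos h2 (not_le.mp hc)))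
    simp only [e10]
  have e3 : om (θ ^ 4) (θ⁻¹ • w.1, θ⁻¹ • w.2.1, (θ ^ 2)⁻¹ • w.2.2) =
      θ ^ (2 * (Module.finrank ℝ E + Module.finrank ℝ H)) *
        (((Module.finrank ℝ E : ℝ) - θ ^ 2 * zz w) *
          Real.exp (-(θ ^ 2 * zz w + xx w))) := by
    have e4 : θ ^ 4 * zz (θ⁻¹ • w.1, θ⁻¹ • w.2.1, (θ ^ 2)⁻¹ • w.2.2) = θ ^ 2 * zz w := by
      simp only [zz, norm_smul, norm_inv, Real.norm_eq_abs, abs_of_pos ht]
      field_simp
    have e5 : θ ^ 4 * xx (θ⁻¹ • w.1, θ⁻¹ • w.2.1, (θ ^ 2)⁻¹ • w.2.2) = xx w := by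
      simp only [xx, norm_smul, norm_inv, norm_pow, Real.norm_eq_abs, abs_of_pos ht]
      field_simp
    have e6 : (θ ^ 4) ^ (((Module.finrank ℝ E : ℝ) + (Module.finrank ℝ H : ℝ)) / 2) =
        θ ^ (2 * (Module.finrank ℝ E + Module.finrank ℝ H)) := by
      rw [← Real.rpow_natCast θ 4, ← Real.rpow_mul ht.le, ← Real.rpow_natCast]
      congr 1
      push_cast
      ring
    unfold om ex
    rw [e6, e4]
    have e7 : -θ ^ 4 * (zz (θ⁻¹ • w.1, θ⁻¹ • w.2.1, (θ ^ 2)⁻¹ • w.2.2) +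
        xx (θ⁻¹ • w.1, θ⁻¹ • w.2.1, (θ ^ 2)⁻¹ • w.2.2)) = -(θ ^ 2 * zz w + xx w) := by
      rw [neg_mul, mul_add, e4, e5]
    rw [e7]
  have e8 : θ⁻¹ ^ Module.finrank ℝ E * θ⁻¹ ^ Module.finrank ℝ E *
      (θ ^ 2)⁻¹ ^ Module.finrank ℝ H *
      θ ^ (2 * (Module.finrank ℝ E + Module.finrank ℝ H)) = 1 := by
    rw [inv_pow, inv_pow, pow_mul, pow_add, pow_right_comm θ 2 (Module.finrank ℝ E)]
    have : θ ^ Module.finrank ℝ E ≠ 0 := (pow_pos ht _).ne'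
    have : (θ ^ 2) ^ Module.finrank ℝ H ≠ 0 := by positivity
    field_simp
  simp only [e1, e3]
  rw [mul_left_comm, ← mul_assoc (_ * _ * _) (θ ^ _), e8, one_mul]

end Pool.Agent.KneserBridge
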