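import Pool.Agent.KneserBridge.Dom
import Pool.Agent.KneserBridge.ConstC
import Pool.Agent.KneserBridge.Scale

/-!
# The limit `lam → ∞`

PROOF. `JJ_scale` with `t = k + 1`, then dominated convergence: put `s = 1 / t ≤ 1`; on
`{∃ i, ‖η - x i‖² + s²‖Z‖² - 2 s ⟪Y, r i⟫ - ‖r i‖² ≤ 0}` we have `‖η‖² ≤ A + ‖Y‖²/2`
(`‖η - x i‖² ≤ 2 ‖Y‖ ‖r i‖ + ‖r i‖²`, `‖η‖² ≤ 2 ‖η - x i‖² + 2 ‖x i‖²`), so the integrand is
dominated by `2 n (d + ‖Z‖²) exp (A - ‖η‖² - ‖Z‖² - ‖Y‖²/2)` (`|tr m s| ≤ 2 |s|`; if no condition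
holds the sum is `0` and `tr m 0 = 0`); pointwise convergence for all `(η, Z, Y)` with
`‖η - x i‖² ≠ ‖r i‖²` for all `i` (spheres are null sets, `Measure.addHaar_sphere`, needs
`Nontrivial E`; see `Pool.Agent.KneserRank.ae_ne_sphere`; null sets in the product via
`Measure.ae_prod...` or `Measure.quasiMeasurePreserving_fst`). The limit is
`∫ tr m (cnt) (η) * (d - ‖Z‖²) exp (-‖Z‖² - ‖Y‖²)`, a product (`integral_prod_mul`).
Measurability: `Measurable.ite`, `measurableSet_le`.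
-/

set_option autoImplicit false
set_option linter.unusedSectionVars false

namespace Pool.Agent.KneserBridge

open MeasureTheory Set Filter Topology
open scoped InnerProductSpace
open Pool.Agent.Kneser

variable {E H : Type*} [NormedAddCommGroup E] [InnerProductSpace ℝ E] [FiniteDimensional ℝ E]
  [MeasurableSpace E] [BorelSpace E] [NormedAddCommGroup H] [InnerProductSpace ℝ H]
  [FiniteDimensional ℝ H] [MeasurableSpace H] [BorelSpace H] {n : ℕ}

private theorem li_ae_ne [Nontrivial E] (p : E) (c : ℝ) : ∀ᵐ x : E, ‖x - p‖ ^ 2 ≠ c := by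
  rw [ae_iff]
  simp only [not_not]
  have h1 : {x : E | ‖x - p‖ ^ 2 = c} ⊆ Metric.sphere p (√c) := by
    intro x hx
    have hx' : ‖x - p‖ ^ 2 = c := hx
    rw [mem_sphere_iff_norm, ← hx', Real.sqrt_sq (norm_nonneg _)]
  exact measure_mono_null h1 (Measure.addHaar_sphere _ _ _)

private theorem li_tr_le (m s : ℝ) : |tr m s| ≤ 2 * |s| := by
  have h1 : |(|s - m| - |(-m)|)| ≤ |s - m - -m| := abs_abs_sub_abs_le _ _
  have h2 : s - m - -m = s := by ring
  rw [h2, abs_neg] at h1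
  have h3 : tr m s = s - (|s - m| - |m|) := by
    unfold tr
    ring
  rw [h3]
  have h4 := abs_sub s (|s - m| - |m|)
  linarith

private theorem li_tr_zero (m : ℝ) : tr m 0 = 0 := by
  unfold tr
  have h : |0 - m| = |m| := by rw [zero_sub, abs_neg]
  rw [h]
  ring

private theorem li_tr_cont (m : ℝ) : Continuous (tr m) := by
  unfold tr
  fun_prop

/-- The condition. -/
private noncomputable def cdn (x : Fin n → E) (r : Fin n → H) (t : ℝ) (i : Fin n)
    (w : E × E × H) : ℝ :=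
  ‖w.1 - x i‖ ^ 2 + ‖w.2.1‖ ^ 2 / t ^ 2 - 2 * ⟪w.2.2, r i⟫_ℝ / t - ‖r i‖ ^ 2

/-- The count. -/
private noncomputable def nn (x : Fin n → E) (r : Fin n → H) (t : ℝ) (w : E × E × H) : ℝ :=
  ∑ i, if cdn x r t i w ≤ 0 then (1 : ℝ) else 0

private theorem li_key (x : Fin n → E) (r : Fin n → H) {t : ℝ} (ht : 1 ≤ t) (i : Fin n)
    (w : E × E × H) (h : cdn x r t i w ≤ 0) :
    ‖w.1‖ ^ 2 ≤ (∑ j, (10 * ‖r j‖ ^ 2 + 2 * ‖x j‖ ^ 2)) + xx w / 2 := by
  unfold cdn at h
  have ht0 : 0 < t := by linarith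
  have h1 : 0 ≤ ‖w.2.1‖ ^ 2 / t ^ 2 := by positivity
  have h2 : 2 * ⟪w.2.2, r i⟫_ℝ / t ≤ 2 * (‖w.2.2‖ * ‖r i‖) := by
    rw [div_le_iff₀ ht0]
    have h3 := real_inner_le_norm w.2.2 (r i)
    have h4 : 0 ≤ ‖w.2.2‖ * ‖r i‖ := by positivity
    nlinarith
  have h5 : ‖w.1 - x i‖ ^ 2 ≤ 2 * (‖w.2.2‖ * ‖r i‖) + ‖r i‖ ^ 2 := by linarith
  have h6 : ‖w.1‖ ≤ ‖w.1 - x i‖ + ‖x i‖ := by
    have := norm_add_le (w.1 - x i) (x i)
    rwa [sub_add_cancel] at this
  have h7 : ‖w.1‖ ^ 2 ≤ 2 * ‖w.1 - x i‖ ^ 2 + 2 * ‖x i‖ ^ 2 := by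
    nlinarith [norm_nonneg w.1, norm_nonneg (w.1 - x i), norm_nonneg (x i),
      sq_nonneg (‖w.1 - x i‖ - ‖x i‖)]
  have h8 : 4 * (‖w.2.2‖ * ‖r i‖) ≤ ‖w.2.2‖ ^ 2 / 2 + 8 * ‖r i‖ ^ 2 := by
    nlinarith [sq_nonneg (‖w.2.2‖ - 4 * ‖r i‖)]
  have h9 : 10 * ‖r i‖ ^ 2 + 2 * ‖x i‖ ^ 2 ≤ ∑ j, (10 * ‖r j‖ ^ 2 + 2 * ‖x j‖ ^ 2) :=
    Finset.single_le_sum (f := fun j => 10 * ‖r j‖ ^ 2 + 2 * ‖x j‖ ^ 2)
      (fun j _ => by positivity) (Finset.mem_univ i)
  unfold xx
  linarith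

private theorem li_nn_nonneg (x : Fin n → E) (r : Fin n → H) (t : ℝ) (w : E × E × H) :
    0 ≤ nn x r t w :=
  Finset.sum_nonneg fun i _ => by split_ifs <;> norm_num

private theorem li_nn_le (x : Fin n → E) (r : Fin n → H) (t : ℝ) (w : E × E × H) :
    nn x r t w ≤ n := by
  have h : nn x r t w ≤ ∑ _i : Fin n, (1 : ℝ) :=
    Finset.sum_le_sum fun i _ => by split_ifs <;> norm_num
  simpa using h

/-- The dominating function. -/
private noncomputable def bb (A : ℝ) (w : E × E × H) : ℝ :=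
  2 * n * ((Module.finrank ℝ E : ℝ) + zz w) *
    (Real.exp A * Real.exp (-(‖w.1‖ ^ 2 + zz w + xx w / 2)))

private theorem li_bb_nonneg (A : ℝ) (w : E × E × H) : 0 ≤ bb (n := n) A w := by
  unfold bb zz
  positivity

private theorem li_bb_integrable (A : ℝ) : Integrable (bb (E := E) (H := H) (n := n) A) := by
  apply rap_integrable
  · refine ⟨2 * n * ((Module.finrank ℝ E : ℝ) + 1) * Real.exp A, 1 / 2, by norm_num, 1, ?_⟩
    intro w
    rw [abs_of_nonneg (li_bb_nonneg A w), pow_one]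
    have hz : 0 ≤ zz w := by unfold zz; positivity
    have hx : 0 ≤ xx w := by unfold xx; positivity
    have he : 0 ≤ ‖w.1‖ ^ 2 := by positivity
    have hq : qq w = ‖w.1‖ ^ 2 + zz w + xx w := rfl
    have hd : (0 : ℝ) ≤ (Module.finrank ℝ E : ℝ) := Nat.cast_nonneg _
    have hn : (0 : ℝ) ≤ n := Nat.cast_nonneg _
    have h1 : (Module.finrank ℝ E : ℝ) + zz w ≤ ((Module.finrank ℝ E : ℝ) + 1) * (1 + qq w) := by
      rw [hq]
      nlinarith [mul_nonneg hd he, mul_nonneg hd hz, mul_nonneg hd hx]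
    have h2 : Real.exp (-(‖w.1‖ ^ 2 + zz w + xx w / 2)) ≤ Real.exp (-(1 / 2) * qq w) := by
      apply Real.exp_le_exp.2
      rw [hq]
      linarith
    unfold bb
    calc 2 * (n : ℝ) * ((Module.finrank ℝ E : ℝ) + zz w) *
          (Real.exp A * Real.exp (-(‖w.1‖ ^ 2 + zz w + xx w / 2)))
        ≤ 2 * (n : ℝ) * (((Module.finrank ℝ E : ℝ) + 1) * (1 + qq w)) *
          (Real.exp A * Real.exp (-(1 / 2) * qq w)) := by
          apply mul_le_mul _ _ (by positivity) _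
          · exact mul_le_mul_of_nonneg_left h1 (by positivity)
          · exact mul_le_mul_of_nonneg_left h2 (Real.exp_pos _).le
          · have : 0 ≤ qq w := by rw [hq]; linarith
            positivity
      _ = 2 * n * ((Module.finrank ℝ E : ℝ) + 1) * Real.exp A * (1 + qq w) *
          Real.exp (-(1 / 2) * qq w) := by ring
  · have hc : Continuous (bb (E := E) (H := H) (n := n) A) := by
      unfold bb zz xx
      fun_prop
    exact hc.aestronglyMeasurable

private theorem li_bound (x : Fin n → E) (r : Fin n → H) (m : ℝ) {t : ℝ} (ht : 1 ≤ t)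
    (w : E × E × H) :
    ‖tr m (nn x r t w) * (((Module.finrank ℝ E : ℝ) - zz w) * Real.exp (-(zz w + xx w)))‖ ≤
      bb (n := n) (∑ j, (10 * ‖r j‖ ^ 2 + 2 * ‖x j‖ ^ 2)) w := by
  by_cases h : ∃ i, cdn x r t i w ≤ 0
  · obtain ⟨i, hi⟩ := h
    have h1 := li_key x r ht i w hi
    have hz : 0 ≤ zz w := by unfold zz; positivity
    have hd : (0 : ℝ) ≤ (Module.finrank ℝ E : ℝ) := Nat.cast_nonneg _
    have h2 : |tr m (nn x r t w)| ≤ 2 * n := by
      have h3 := li_tr_le m (nn x r t w)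
      rw [abs_of_nonneg (li_nn_nonneg x r t w)] at h3
      have h4 := li_nn_le x r t w
      linarith
    have h5 : |(Module.finrank ℝ E : ℝ) - zz w| ≤ (Module.finrank ℝ E : ℝ) + zz w := by
      rw [abs_le]
      constructor <;> linarith
    have h6 : Real.exp (-(zz w + xx w)) ≤
        Real.exp (∑ j, (10 * ‖r j‖ ^ 2 + 2 * ‖x j‖ ^ 2)) *
          Real.exp (-(‖w.1‖ ^ 2 + zz w + xx w / 2)) := by
      rw [← Real.exp_add]
      apply Real.exp_le_exp.2
      linarith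
    rw [Real.norm_eq_abs, abs_mul, abs_mul, abs_of_pos (Real.exp_pos _), ← mul_assoc]
    unfold bb
    apply mul_le_mul _ h6 (Real.exp_pos _).le (by positivity)
    exact mul_le_mul h2 h5 (abs_nonneg _) (by positivity)
  · have h1 : nn x r t w = 0 := by
      unfold nn
      apply Finset.sum_eq_zero
      intro i _
      rw [if_neg]
      intro hi
      exact h ⟨i, hi⟩
    rw [h1, li_tr_zero, zero_mul, norm_zero]
    exact li_bb_nonneg _ _

private theorem li_meas (x : Fin n → E) (r : Fin n → H) (m t : ℝ) :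
    Measurable fun w : E × E × H =>
      tr m (nn x r t w) * (((Module.finrank ℝ E : ℝ) - zz w) * Real.exp (-(zz w + xx w))) := by
  have h1 : ∀ i, Measurable fun w : E × E × H => cdn x r t i w := by
    intro i
    have hc : Continuous fun w : E × E × H => cdn x r t i w := by
      unfold cdn
      fun_prop
    exact hc.measurable
  have h2 : Measurable fun w : E × E × H => nn x r t w := by
    unfold nn
    refine Finset.measurable_fun_sum _ fun i _ => ?_
    exact Measurable.ite (measurableSet_le (h1 i) measurable_const) measurable_const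
      measurable_const
  have h3 : Measurable fun w : E × E × H => tr m (nn x r t w) :=
    (li_tr_cont m).measurable.comp h2
  have h4 : Continuous fun w : E × E × H =>
      ((Module.finrank ℝ E : ℝ) - zz w) * Real.exp (-(zz w + xx w)) := by
    unfold zz xx
    fun_prop
  exact h3.mul h4.measurable

private theorem li_lim (x : Fin n → E) (r : Fin n → H) (w : E × E × H)
    (hw : ∀ i, ‖w.1 - x i‖ ^ 2 ≠ ‖r i‖ ^ 2) :
    Tendsto (fun k : ℕ => nn x r ((k : ℝ) + 1) w) atTop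
      (𝓝 (cnt (fun i => ‖r i‖ ^ 2) x w.1)) := by
  unfold nn cnt
  refine tendsto_finsetSum _ fun i _ => ?_
  have ht : Tendsto (fun k : ℕ => (k : ℝ) + 1) atTop atTop :=
    tendsto_atTop_add_const_right _ _ tendsto_natCast_atTop_atTop
  have hc : Tendsto (fun k : ℕ => cdn x r ((k : ℝ) + 1) i w) atTop
      (𝓝 (‖w.1 - x i‖ ^ 2 + 0 - 0 - ‖r i‖ ^ 2)) := by
    unfold cdn
    refine Tendsto.sub (Tendsto.sub (Tendsto.add tendsto_const_nhds ?_) ?_) tendsto_const_nhds
    · exact Tendsto.div_atTop tendsto_const_nhds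
        ((tendsto_pow_atTop two_ne_zero).comp ht)
    · exact Tendsto.div_atTop tendsto_const_nhds ht
  rw [add_zero, sub_zero] at hc
  rcases lt_or_gt_of_ne (hw i) with h | h
  · rw [if_pos h.le]
    have h1 : ∀ᶠ k : ℕ in atTop, cdn x r ((k : ℝ) + 1) i w < 0 :=
      hc.eventually_lt_const (by linarith)
    refine tendsto_const_nhds.congr' ?_
    filter_upwards [h1] with k hk
    rw [if_pos hk.le]
  · rw [if_neg (not_le.2 h)]
    have h1 : ∀ᶠ k : ℕ in atTop, 0 < cdn x r ((k : ℝ) + 1) i w :=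
      hc.eventually_const_lt (by linarith)
    refine tendsto_const_nhds.congr' ?_
    filter_upwards [h1] with k hk
    rw [if_neg (not_le.2 hk)]

theorem tendsto_JJ_atTop [Nontrivial E] (x : Fin n → E) (r : Fin n → H) (m : ℝ) :
    Tendsto (fun k : ℕ => JJ x r m (((k : ℝ) + 1) ^ 2)) atTop
      (𝓝 (cc E H * ∫ y : E, (cnt (fun i => ‖r i‖ ^ 2) x y -
        |cnt (fun i => ‖r i‖ ^ 2) x y - m| + |m|))) := by
  have hJ : ∀ k : ℕ, JJ x r m (((k : ℝ) + 1) ^ 2) = ∫ w : E × E × H,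
      tr m (nn x r ((k : ℝ) + 1) w) *
        (((Module.finrank ℝ E : ℝ) - zz w) * Real.exp (-(zz w + xx w))) := by
    intro k
    have hk : (0 : ℝ) < (k : ℝ) + 1 := by positivity
    rw [JJ_scale x r m hk]
    rfl
  have hlim : cc E H * ∫ y : E, (cnt (fun i => ‖r i‖ ^ 2) x y -
        |cnt (fun i => ‖r i‖ ^ 2) x y - m| + |m|) = ∫ w : E × E × H,
      tr m (cnt (fun i => ‖r i‖ ^ 2) x w.1) *
        (((Module.finrank ℝ E : ℝ) - zz w) * Real.exp (-(zz w + xx w))) := by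
    have h1 := integral_prod_mul (μ := (volume : Measure E)) (ν := (volume : Measure (E × H)))
      (fun y : E => tr m (cnt (fun i => ‖r i‖ ^ 2) x y))
      (fun u : E × H => ((Module.finrank ℝ E : ℝ) - ‖u.1‖ ^ 2) *
        Real.exp (-(‖u.1‖ ^ 2 + ‖u.2‖ ^ 2)))
    have h2 : (∫ w : E × E × H, tr m (cnt (fun i => ‖r i‖ ^ 2) x w.1) *
        (((Module.finrank ℝ E : ℝ) - zz w) * Real.exp (-(zz w + xx w)))) =
        (∫ y : E, tr m (cnt (fun i => ‖r i‖ ^ 2) x y)) * cc E H := h1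
    rw [h2, mul_comm]
    rfl
  rw [hlim]
  simp only [hJ]
  refine tendsto_integral_of_dominated_convergence
    (bb (n := n) (∑ j, (10 * ‖r j‖ ^ 2 + 2 * ‖x j‖ ^ 2))) (fun k => ?_) (li_bb_integrable _)
    (fun k => Eventually.of_forall fun w => ?_) ?_
  · exact (li_meas x r m _).aestronglyMeasurable
  · exact li_bound x r m (by
      have : (0 : ℝ) ≤ (k : ℝ) := Nat.cast_nonneg k
      linarith) w
  · have h1 : ∀ᵐ y : E, ∀ i, ‖y - x i‖ ^ 2 ≠ ‖r i‖ ^ 2 :=
      ae_all_iff.2 fun i => li_ae_ne (x i) (‖r i‖ ^ 2)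
    have h2 : ∀ᵐ w : E × E × H, ∀ i, ‖w.1 - x i‖ ^ 2 ≠ ‖r i‖ ^ 2 :=
      Measure.quasiMeasurePreserving_fst.ae h1
    filter_upwards [h2] with w hw
    exact (((li_tr_cont m).tendsto _).comp (li_lim x r w hw)).mul_const _

end Pool.Agent.KneserBridge
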