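import Pool.Agent.KneserBridge.Dom
import Pool.Agent.KneserBridge.Scale

/-!
# The limit `lam → 0`

`JJ_scale_zero` with `θ = 1 / (k + 1) ≤ 1`, then dominated convergence. The limit does not depend
on `x`.
-/

set_option autoImplicit false
set_option linter.unusedSectionVars false

namespace Pool.Agent.KneserBridge

open MeasureTheory Set Filter Topology
open scoped InnerProductSpace

variable {E H : Type*} [NormedAddCommGroup E] [InnerProductSpace ℝ E] [FiniteDimensional ℝ E]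
  [MeasurableSpace E] [BorelSpace E] [NormedAddCommGroup H] [InnerProductSpace ℝ H]
  [FiniteDimensional ℝ H] [MeasurableSpace H] [BorelSpace H] {n : ℕ}

private theorem lz_ae_ne [Nontrivial E] (c : ℝ) : ∀ᵐ x : E, ‖x‖ ^ 2 ≠ c := by
  rw [ae_iff]
  simp only [not_not]
  have h1 : {x : E | ‖x‖ ^ 2 = c} ⊆ Metric.sphere 0 (√c) := by
    intro x hx
    have hx' : ‖x‖ ^ 2 = c := hx
    rw [mem_sphere_iff_norm, sub_zero, ← hx', Real.sqrt_sq (norm_nonneg _)]
  exact measure_mono_null h1 (Measure.addHaar_sphere _ _ _)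

theorem ae_ne_cone [Nontrivial E] (r : Fin n → H) :
    ∀ᵐ w : E × E × H, ∀ i, ‖w.1‖ ^ 2 + zz w - 2 * ⟪w.2.2, r i⟫_ℝ ≠ 0 := by
  refine ae_all_iff.2 fun i => ?_
  have hc : Continuous fun w : E × E × H => ‖w.1‖ ^ 2 + zz w - 2 * ⟪w.2.2, r i⟫_ℝ := by
    unfold zz
    fun_prop
  have hm : MeasurableSet {w : E × E × H | ‖w.1‖ ^ 2 + zz w - 2 * ⟪w.2.2, r i⟫_ℝ ≠ 0} :=
    (measurableSet_eq_fun hc.measurable measurable_const).compl
  rw [Measure.volume_eq_prod, Measure.ae_prod_iff_ae_ae hm, Measure.ae_ae_comm hm]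
  refine Eventually.of_forall fun u => ?_
  filter_upwards [lz_ae_ne (E := E) (2 * ⟪u.2, r i⟫_ℝ - ‖u.1‖ ^ 2)] with y hy
  intro h
  apply hy
  unfold zz at h
  simp only at h
  linarith

private theorem lz_tr_le (m s : ℝ) : |tr m s| ≤ 2 * |s| := by
  have h1 : |(|s - m| - |(-m)|)| ≤ |s - m - -m| := abs_abs_sub_abs_le _ _
  have h2 : s - m - -m = s := by ring
  rw [h2, abs_neg] at h1
  have h3 : tr m s = s - (|s - m| - |m|) := by
    unfold tr
    ring
  rw [h3]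
  have h4 := abs_sub s (|s - m| - |m|)
  linarith

private theorem lz_tr_zero (m : ℝ) : tr m 0 = 0 := by
  unfold tr
  have h : |0 - m| = |m| := by rw [zero_sub, abs_neg]
  rw [h]
  ring

private theorem lz_tr_cont (m : ℝ) : Continuous (tr m) := by
  unfold tr
  fun_prop

/-- The condition. -/
private noncomputable def cdz (x : Fin n → E) (r : Fin n → H) (t : ℝ) (i : Fin n)
    (w : E × E × H) : ℝ :=
  ‖w.1 - t • x i‖ ^ 2 + zz w - 2 * ⟪w.2.2, r i⟫_ℝ - t ^ 2 * ‖r i‖ ^ 2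

/-- The count. -/
private noncomputable def nz (x : Fin n → E) (r : Fin n → H) (t : ℝ) (w : E × E × H) : ℝ :=
  ∑ i, if cdz x r t i w ≤ 0 then (1 : ℝ) else 0

private theorem lz_key (x : Fin n → E) (r : Fin n → H) {t : ℝ} (ht0 : 0 ≤ t) (ht : t ≤ 1)
    (i : Fin n) (w : E × E × H) (h : cdz x r t i w ≤ 0) :
    ‖w.1‖ ^ 2 + zz w ≤ (∑ j, (10 * ‖r j‖ ^ 2 + 2 * ‖x j‖ ^ 2)) + xx w / 2 := by
  unfold cdz at h
  have ht2 : t ^ 2 ≤ 1 := by nlinarith
  have hz : 0 ≤ zz w := by unfold zz; positivity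
  have h2 : 2 * ⟪w.2.2, r i⟫_ℝ ≤ 2 * (‖w.2.2‖ * ‖r i‖) := by
    have h3 := real_inner_le_norm w.2.2 (r i)
    linarith
  have h2' : t ^ 2 * ‖r i‖ ^ 2 ≤ ‖r i‖ ^ 2 := by
    have : 0 ≤ ‖r i‖ ^ 2 := by positivity
    nlinarith
  have h5 : ‖w.1 - t • x i‖ ^ 2 + zz w ≤ 2 * (‖w.2.2‖ * ‖r i‖) + ‖r i‖ ^ 2 := by linarith
  have h6 : ‖w.1‖ ≤ ‖w.1 - t • x i‖ + ‖t • x i‖ := by
    have := norm_add_le (w.1 - t • x i) (t • x i)
    rwa [sub_add_cancel] at this
  have h6' : ‖t • x i‖ ≤ ‖x i‖ := by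
    rw [norm_smul, Real.norm_eq_abs, abs_of_nonneg ht0]
    exact mul_le_of_le_one_left (norm_nonneg _) ht
  have h7 : ‖w.1‖ ^ 2 ≤ 2 * ‖w.1 - t • x i‖ ^ 2 + 2 * ‖x i‖ ^ 2 := by
    have h8 : ‖w.1‖ ≤ ‖w.1 - t • x i‖ + ‖x i‖ := h6.trans (by linarith)
    nlinarith [norm_nonneg w.1, norm_nonneg (w.1 - t • x i), norm_nonneg (x i),
      sq_nonneg (‖w.1 - t • x i‖ - ‖x i‖)]
  have h8 : 4 * (‖w.2.2‖ * ‖r i‖) ≤ ‖w.2.2‖ ^ 2 / 2 + 8 * ‖r i‖ ^ 2 := by
    nlinarith [sq_nonneg (‖w.2.2‖ - 4 * ‖r i‖)]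
  have h9 : 10 * ‖r i‖ ^ 2 + 2 * ‖x i‖ ^ 2 ≤ ∑ j, (10 * ‖r j‖ ^ 2 + 2 * ‖x j‖ ^ 2) :=
    Finset.single_le_sum (f := fun j => 10 * ‖r j‖ ^ 2 + 2 * ‖x j‖ ^ 2)
      (fun j _ => by positivity) (Finset.mem_univ i)
  unfold xx
  linarith

private theorem lz_nz_nonneg (x : Fin n → E) (r : Fin n → H) (t : ℝ) (w : E × E × H) :
    0 ≤ nz x r t w :=
  Finset.sum_nonneg fun i _ => by split_ifs <;> norm_num

private theorem lz_nz_le (x : Fin n → E) (r : Fin n → H) (t : ℝ) (w : E × E × H) :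
    nz x r t w ≤ n := by
  have h : nz x r t w ≤ ∑ _i : Fin n, (1 : ℝ) :=
    Finset.sum_le_sum fun i _ => by split_ifs <;> norm_num
  simpa using h

/-- The dominating function. -/
private noncomputable def bz (A : ℝ) (w : E × E × H) : ℝ :=
  2 * n * ((Module.finrank ℝ E : ℝ) + zz w) *
    (Real.exp A * Real.exp (-(‖w.1‖ ^ 2 + zz w + xx w / 2)))

private theorem lz_bz_nonneg (A : ℝ) (w : E × E × H) : 0 ≤ bz (n := n) A w := by
  unfold bz zz
  positivity

private theorem lz_bz_integrable (A : ℝ) : Integrable (bz (E := E) (H := H) (n := n) A) := by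
  apply rap_integrable
  · refine ⟨2 * n * ((Module.finrank ℝ E : ℝ) + 1) * Real.exp A, 1 / 2, by norm_num, 1, ?_⟩
    intro w
    rw [abs_of_nonneg (lz_bz_nonneg A w), pow_one]
    have hz : 0 ≤ zz w := by unfold zz; positivity
    have hx : 0 ≤ xx w := by unfold xx; positivity
    have he : 0 ≤ ‖w.1‖ ^ 2 := by positivity
    have hq : qq w = ‖w.1‖ ^ 2 + zz w + xx w := rfl
    have hd : (0 : ℝ) ≤ (Module.finrank ℝ E : ℝ) := Nat.cast_nonneg _
    have hn : (0 : ℝ) ≤ n := Nat.cast_nonneg _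
    have h1 : (Module.finrank ℝ E : ℝ) + zz w ≤ ((Module.finrank ℝ E : ℝ) + 1) * (1 + qq w) := by
      rw [hq]
      nlinarith [mul_nonneg hd he, mul_nonneg hd hz, mul_nonneg hd hx]
    have h2 : Real.exp (-(‖w.1‖ ^ 2 + zz w + xx w / 2)) ≤ Real.exp (-(1 / 2) * qq w) := by
      apply Real.exp_le_exp.2
      rw [hq]
      linarith
    unfold bz
    calc 2 * (n : ℝ) * ((Module.finrank ℝ E : ℝ) + zz w) *
          (Real.exp A * Real.exp (-(‖w.1‖ ^ 2 + zz w + xx w / 2)))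
        ≤ 2 * (n : ℝ) * (((Module.finrank ℝ E : ℝ) + 1) * (1 + qq w)) *
          (Real.exp A * Real.exp (-(1 / 2) * qq w)) := by
          apply mul_le_mul _ _ (by positivity) _
          · exact mul_le_mul_of_nonneg_left h1 (by positivity)
          · exact mul_le_mul_of_nonneg_left h2 (Real.exp_pos _).le
          · have : 0 ≤ qq w := by rw [hq]; linarith
            positivity
      _ = 2 * n * ((Module.finrank ℝ E : ℝ) + 1) * Real.exp A * (1 + qq w) *
          Real.exp (-(1 / 2) * qq w) := by ring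
  · have hc : Continuous (bz (E := E) (H := H) (n := n) A) := by
      unfold bz zz xx
      fun_prop
    exact hc.aestronglyMeasurable

private theorem lz_bound (x : Fin n → E) (r : Fin n → H) (m : ℝ) {t : ℝ} (ht0 : 0 ≤ t)
    (ht : t ≤ 1) (w : E × E × H) :
    ‖tr m (nz x r t w) * (((Module.finrank ℝ E : ℝ) - t ^ 2 * zz w) *
        Real.exp (-(t ^ 2 * zz w + xx w)))‖ ≤
      bz (n := n) (∑ j, (10 * ‖r j‖ ^ 2 + 2 * ‖x j‖ ^ 2)) w := by
  by_cases h : ∃ i, cdz x r t i w ≤ 0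
  · obtain ⟨i, hi⟩ := h
    have h1 := lz_key x r ht0 ht i w hi
    have hz : 0 ≤ zz w := by unfold zz; positivity
    have hd : (0 : ℝ) ≤ (Module.finrank ℝ E : ℝ) := Nat.cast_nonneg _
    have ht2 : t ^ 2 ≤ 1 := by nlinarith
    have ht3 : 0 ≤ t ^ 2 * zz w := by positivity
    have ht4 : t ^ 2 * zz w ≤ zz w := by nlinarith
    have h2 : |tr m (nz x r t w)| ≤ 2 * n := by
      have h3 := lz_tr_le m (nz x r t w)
      rw [abs_of_nonneg (lz_nz_nonneg x r t w)] at h3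
      have h4 := lz_nz_le x r t w
      linarith
    have h5 : |(Module.finrank ℝ E : ℝ) - t ^ 2 * zz w| ≤ (Module.finrank ℝ E : ℝ) + zz w := by
      rw [abs_le]
      constructor <;> linarith
    have h6 : Real.exp (-(t ^ 2 * zz w + xx w)) ≤
        Real.exp (∑ j, (10 * ‖r j‖ ^ 2 + 2 * ‖x j‖ ^ 2)) *
          Real.exp (-(‖w.1‖ ^ 2 + zz w + xx w / 2)) := by
      rw [← Real.exp_add]
      apply Real.exp_le_exp.2
      linarith
    rw [Real.norm_eq_abs, abs_mul, abs_mul, abs_of_pos (Real.exp_pos _), ← mul_assoc]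
    unfold bz
    apply mul_le_mul _ h6 (Real.exp_pos _).le (by positivity)
    exact mul_le_mul h2 h5 (abs_nonneg _) (by positivity)
  · have h1 : nz x r t w = 0 := by
      unfold nz
      apply Finset.sum_eq_zero
      intro i _
      rw [if_neg]
      intro hi
      exact h ⟨i, hi⟩
    rw [h1, lz_tr_zero, zero_mul, norm_zero]
    exact lz_bz_nonneg _ _

private theorem lz_meas (x : Fin n → E) (r : Fin n → H) (m t : ℝ) :
    Measurable fun w : E × E × H =>
      tr m (nz x r t w) * (((Module.finrank ℝ E : ℝ) - t ^ 2 * zz w) *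
        Real.exp (-(t ^ 2 * zz w + xx w))) := by
  have h1 : ∀ i, Measurable fun w : E × E × H => cdz x r t i w := by
    intro i
    have hc : Continuous fun w : E × E × H => cdz x r t i w := by
      unfold cdz zz
      fun_prop
    exact hc.measurable
  have h2 : Measurable fun w : E × E × H => nz x r t w := by
    unfold nz
    refine Finset.measurable_fun_sum _ fun i _ => ?_
    exact Measurable.ite (measurableSet_le (h1 i) measurable_const) measurable_const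
      measurable_const
  have h3 : Measurable fun w : E × E × H => tr m (nz x r t w) :=
    (lz_tr_cont m).measurable.comp h2
  have h4 : Continuous fun w : E × E × H =>
      ((Module.finrank ℝ E : ℝ) - t ^ 2 * zz w) * Real.exp (-(t ^ 2 * zz w + xx w)) := by
    unfold zz xx
    fun_prop
  exact h3.mul h4.measurable

private theorem lz_theta : Tendsto (fun k : ℕ => 1 / ((k : ℝ) + 1)) atTop (𝓝 0) :=
  tendsto_one_div_add_atTop_nhds_zero_nat

private theorem lz_lim (x : Fin n → E) (r : Fin n → H) (w : E × E × H)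
    (hw : ∀ i, ‖w.1‖ ^ 2 + zz w - 2 * ⟪w.2.2, r i⟫_ℝ ≠ 0) :
    Tendsto (fun k : ℕ => nz x r (1 / ((k : ℝ) + 1)) w) atTop
      (𝓝 (∑ i, if ‖w.1‖ ^ 2 + zz w - 2 * ⟪w.2.2, r i⟫_ℝ ≤ 0 then (1 : ℝ) else 0)) := by
  unfold nz
  refine tendsto_finsetSum _ fun i _ => ?_
  have hc : Tendsto (fun k : ℕ => cdz x r (1 / ((k : ℝ) + 1)) i w) atTop
      (𝓝 (‖w.1‖ ^ 2 + zz w - 2 * ⟪w.2.2, r i⟫_ℝ)) := by
    have hcont : Continuous fun t : ℝ => cdz x r t i w := by
      unfold cdz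
      fun_prop
    have h0 : cdz x r 0 i w = ‖w.1‖ ^ 2 + zz w - 2 * ⟪w.2.2, r i⟫_ℝ := by
      unfold cdz
      simp
    rw [← h0]
    exact (hcont.tendsto 0).comp lz_theta
  rcases lt_or_gt_of_ne (hw i) with h | h
  · rw [if_pos h.le]
    have h1 : ∀ᶠ k : ℕ in atTop, cdz x r (1 / ((k : ℝ) + 1)) i w < 0 :=
      hc.eventually_lt_const h
    refine tendsto_const_nhds.congr' ?_
    filter_upwards [h1] with k hk
    rw [if_pos hk.le]
  · rw [if_neg (not_le.2 h)]
    have h1 : ∀ᶠ k : ℕ in atTop, 0 < cdz x r (1 / ((k : ℝ) + 1)) i w :=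
      hc.eventually_const_lt h
    refine tendsto_const_nhds.congr' ?_
    filter_upwards [h1] with k hk
    rw [if_neg (not_le.2 hk)]

theorem tendsto_JJ_zero [Nontrivial E] (x : Fin n → E) (r : Fin n → H) (m : ℝ) :
    Tendsto (fun k : ℕ => JJ x r m ((1 / ((k : ℝ) + 1)) ^ 4)) atTop
      (𝓝 (∫ w : E × E × H,
        tr m (∑ i, if ‖w.1‖ ^ 2 + zz w - 2 * ⟪w.2.2, r i⟫_ℝ ≤ 0 then (1 : ℝ) else 0) *
        ((Module.finrank ℝ E : ℝ) * Real.exp (-xx w)))) := by
  have hJ : ∀ k : ℕ, JJ x r m ((1 / ((k : ℝ) + 1)) ^ 4) = ∫ w : E × E × H,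
      tr m (nz x r (1 / ((k : ℝ) + 1)) w) *
        (((Module.finrank ℝ E : ℝ) - (1 / ((k : ℝ) + 1)) ^ 2 * zz w) *
          Real.exp (-((1 / ((k : ℝ) + 1)) ^ 2 * zz w + xx w))) := by
    intro k
    have hk : (0 : ℝ) < 1 / ((k : ℝ) + 1) := by positivity
    rw [JJ_scale_zero x r m hk]
    rfl
  simp only [hJ]
  refine tendsto_integral_of_dominated_convergence
    (bz (n := n) (∑ j, (10 * ‖r j‖ ^ 2 + 2 * ‖x j‖ ^ 2))) (fun k => ?_) (lz_bz_integrable _)
    (fun k => Eventually.of_forall fun w => ?_) ?_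
  · exact (lz_meas x r m _).aestronglyMeasurable
  · refine lz_bound x r m (by positivity) ?_ w
    rw [div_le_one (by positivity)]
    have : (0 : ℝ) ≤ (k : ℝ) := Nat.cast_nonneg k
    linarith
  · filter_upwards [ae_ne_cone (E := E) r] with w hw
    refine Tendsto.mul (((lz_tr_cont m).tendsto _).comp (lz_lim x r w hw)) ?_
    have hcont : Continuous fun t : ℝ => ((Module.finrank ℝ E : ℝ) - t ^ 2 * zz w) *
        Real.exp (-(t ^ 2 * zz w + xx w)) := by
      fun_prop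
    have h0 : ((Module.finrank ℝ E : ℝ) - (0 : ℝ) ^ 2 * zz w) *
        Real.exp (-((0 : ℝ) ^ 2 * zz w + xx w)) =
          (Module.finrank ℝ E : ℝ) * Real.exp (-xx w) := by
      simp
    rw [← h0]
    exact (hcont.tendsto 0).comp lz_theta

end Pool.Agent.KneserBridge
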