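import Pool.Agent.KneserBridge.Step
import Pool.Agent.KneserBridge.LimInf
import Pool.Agent.KneserBridge.LimZero

/-!
# The bridge theorem
-/

set_option autoImplicit false
set_option linter.unusedSectionVars false

namespace Pool.Agent.KneserBridge

open MeasureTheory Set Filter Topology
open scoped InnerProductSpace
open Pool.Agent.Kneser

variable {E H : Type*} [NormedAddCommGroup E] [InnerProductSpace ℝ E] [FiniteDimensional ℝ E]
  [MeasurableSpace E] [BorelSpace E] [NormedAddCommGroup H] [InnerProductSpace ℝ H]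
  [FiniteDimensional ℝ H] [MeasurableSpace H] [BorelSpace H] {n : ℕ}

/-- The truncated inequality. -/
theorem truncated_bridge [Nontrivial E] (p q : Fin n → E) (r : Fin n → H)
    (hq : ∀ i j, ‖q i - q j‖ ≤ ‖r i - r j‖) (hp : ∀ i j, ‖r i - r j‖ ≤ ‖p i - p j‖) (m : ℝ) :
    ∫ y, (cnt (fun i => ‖r i‖ ^ 2) q y - |cnt (fun i => ‖r i‖ ^ 2) q y - m| + |m|) ≤
      ∫ y, (cnt (fun i => ‖r i‖ ^ 2) p y - |cnt (fun i => ‖r i‖ ^ 2) p y - m| + |m|) := by
  set L : ℝ := ∫ w : E × E × H,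
        tr m (∑ i, if ‖w.1‖ ^ 2 + zz w - 2 * ⟪w.2.2, r i⟫_ℝ ≤ 0 then (1 : ℝ) else 0) *
        ((Module.finrank ℝ E : ℝ) * Real.exp (-xx w)) with hL
  have hpos : ∀ k : ℕ, 0 < (1 / ((k : ℝ) + 1)) ^ 4 := fun k => by positivity
  have hle : ∀ k : ℕ, (1 / ((k : ℝ) + 1)) ^ 4 ≤ 1 := fun k => by
    refine pow_le_one₀ (by positivity) ?_
    rw [div_le_one (by positivity)]
    linarith [(Nat.cast_nonneg k : (0 : ℝ) ≤ k)]
  have hge : ∀ k : ℕ, (1 : ℝ) ≤ ((k : ℝ) + 1) ^ 2 := fun k => by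
    nlinarith [(Nat.cast_nonneg k : (0 : ℝ) ≤ k)]
  have h1 : cc E H * ∫ y, (cnt (fun i => ‖r i‖ ^ 2) q y -
      |cnt (fun i => ‖r i‖ ^ 2) q y - m| + |m|) ≤ JJ q r m 1 :=
    le_of_tendsto' (tendsto_JJ_atTop q r m) fun k => JJ_anti q r hq m one_pos (hge k)
  have h2 : JJ q r m 1 ≤ L :=
    ge_of_tendsto' (tendsto_JJ_zero q r m) fun k => JJ_anti q r hq m (hpos k) (hle k)
  have h3 : L ≤ JJ p r m 1 :=
    le_of_tendsto' (tendsto_JJ_zero p r m) fun k => JJ_mono p r hp m (hpos k) (hle k)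
  have h4 : JJ p r m 1 ≤ cc E H * ∫ y, (cnt (fun i => ‖r i‖ ^ 2) p y -
      |cnt (fun i => ‖r i‖ ^ 2) p y - m| + |m|) :=
    ge_of_tendsto' (tendsto_JJ_atTop p r m) fun k => JJ_mono p r hp m one_pos (hge k)
  exact le_of_mul_le_mul_left (h1.trans (h2.trans (h3.trans h4))) cc_pos

/-- The bridge theorem. -/
theorem weighted_bridge (p q : Fin n → E) (r : Fin n → H) (ρ τ : Fin n → ℝ)
    (hr : ∀ i, ‖r i‖ = ρ i) (hq : ∀ i j, dist (q i) (q j) ≤ dist (r i) (r j))
    (hp : ∀ i j, dist (r i) (r j) ≤ dist (p i) (p j)) (hτ : Antitone τ) :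
    ∑ k : Fin n, τ k * (volume {x : E | k.val + 1 ≤ num q ρ x}).toReal ≤
      ∑ k : Fin n, τ k * (volume {x : E | k.val + 1 ≤ num p ρ x}).toReal := by
  rcases subsingleton_or_nontrivial E with hE | hE
  · have : q = p := funext fun i => Subsingleton.elim _ _
    rw [this]
  have hρ : ∀ i, 0 ≤ ρ i := fun i => by rw [← hr i]; exact norm_nonneg _
  have hc : (fun i => ‖r i‖ ^ 2) = fun i => ρ i ^ 2 := funext fun i => by rw [hr i]
  have h1 : ∀ m : ℕ, ∑ k ∈ Finset.range m, lev q ρ k ≤ ∑ k ∈ Finset.range m, lev p ρ k := by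
    intro m
    have := truncated_bridge p q r (fun i j => by simpa [dist_eq_norm] using hq i j)
      (fun i j => by simpa [dist_eq_norm] using hp i j) m
    rw [hc, integral_trunc q ρ hρ, integral_trunc p ρ hρ] at this
    linarith
  have h2 : ∑ k ∈ Finset.range n, lev q ρ k = ∑ k ∈ Finset.range n, lev p ρ k := by
    rw [sum_lev q ρ hρ, sum_lev p ρ hρ]
  have h3 := abel_sum (fun k => if h : k < n then τ ⟨k, h⟩ else 0) (lev p ρ) (lev q ρ) n
    (fun k hk => by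
      have hk' : k < n := by omega
      simp only [hk, hk', dif_pos]
      exact hτ (by simp [Fin.le_def])) h1 h2
  rw [Finset.sum_range, Finset.sum_range] at h3
  simpa [lev] using h3

end Pool.Agent.KneserBridge
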