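import Pool.Agent.KneserBridge.IntOne
import Pool.Agent.KneserBridge.DivS
import Pool.Agent.KneserBridge.DivT

/-!
# First identity

PROOF. Write `d = finrank E`, `N = finrank H`, `z = zz w`, `X = xx w`, `e = ex lam w`.
With `g = lam z / 2 - d / 2 + lam X - N / 2` use `div_snd` for `smth_F` with
`a = -(d + N) / 2`, `b = lam / 2`, `c = lam` (this is `G = g e F`) and `div_thd` for `smth_F` with
`a = 0`, `b = -lam / 2`, `c = 0` (this is `G = -lam z e F / 2`). The sum of the two integrands is
`-(F * PP * e) + ∑ i, f i * e * (z * (lam z - d + 2 lam X - N) + lam z ⟪ξ, r i⟫)`, since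
`dv x r j w (0, ζ, 0) = 2 z`, `dv x r j w (0, 0, ξ) = -2 ⟪ξ, r j⟫`, `dex lam w (0, ζ, 0) =
-2 lam z e`, `dex lam w (0, 0, ξ) = -2 lam X e`, and
`d g + lam z - 2 lam z g - lam N z / 2 + lam ^ 2 z X = -PP`.
(Integrability of `G`: `smth_integrable`.) Suggestion: first a pointwise identity, by `unfold`,
`simp only`, `Finset.mul_sum`, `ring`; then `integral_add`, `integral_congr`.
-/

set_option autoImplicit false
set_option linter.unusedSectionVars false

namespace Pool.Agent.KneserBridge

open MeasureTheory Set Filter Topology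
open scoped InnerProductSpace

variable {E H : Type*} [NormedAddCommGroup E] [InnerProductSpace ℝ E] [FiniteDimensional ℝ E]
  [MeasurableSpace E] [BorelSpace E] [NormedAddCommGroup H] [InnerProductSpace ℝ H]
  [FiniteDimensional ℝ H] [MeasurableSpace H] [BorelSpace H] {n : ℕ}

private theorem aux_IdA {f g1 g2 : E × E × H → ℝ} (hf : Integrable f) (h1 : Integrable g1)
    (h2 : Integrable g2) (e1 : ∫ w, g1 w = 0) (e2 : ∫ w, g2 w = 0) :
    ∫ w, (f w - (g1 w + g2 w)) = ∫ w, f w := by
  have h3 : Integrable (fun w => g1 w + g2 w) := h1.add h2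
  rw [integral_sub hf h3, integral_add h1 h2, e1, e2, add_zero, sub_zero]

theorem integral_F_PP (D : Dat) (x : Fin n → E) (r : Fin n → H) {lam : ℝ} (h : 0 < lam) :
    ∫ w, D.F x r w * (PP lam w * ex lam w) = ∫ w, D.one x r lam w := by
  have s1 := smth_F D x r h (-((Module.finrank ℝ E : ℝ) + (Module.finrank ℝ H : ℝ)) / 2)
    (lam / 2) lam
  have s2 := smth_F D x r h 0 (-lam / 2) 0
  obtain ⟨i1, e1⟩ := div_snd s1
  obtain ⟨i2, e2⟩ := div_thd s2
  have j1 := ((smth_integrable s1).const_mul (Module.finrank ℝ E : ℝ)).add i1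
  have j2 := ((smth_integrable s2).const_mul (Module.finrank ℝ H : ℝ)).add i2
  have key : ∀ w : E × E × H, D.F x r w * (PP lam w * ex lam w) = D.one x r lam w -
      (((Module.finrank ℝ E : ℝ) *
          ((-((Module.finrank ℝ E : ℝ) + (Module.finrank ℝ H : ℝ)) / 2 + lam / 2 * zz w +
            lam * xx w) * (ex lam w * D.F x r w)) +
        ((lam / 2 * (2 * ⟪w.2.1, ((0, w.2.1, 0) : E × E × H).2.1⟫_ℝ) +
            lam * (2 * ⟪w.2.2, ((0, w.2.1, 0) : E × E × H).2.2⟫_ℝ)) *
            (ex lam w * D.F x r w) +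
          (-((Module.finrank ℝ E : ℝ) + (Module.finrank ℝ H : ℝ)) / 2 + lam / 2 * zz w +
            lam * xx w) *
            (dex lam w (0, w.2.1, 0) * D.F x r w + ex lam w * D.dF x r w (0, w.2.1, 0)))) +
      ((Module.finrank ℝ H : ℝ) *
          ((0 + -lam / 2 * zz w + 0 * xx w) * (ex lam w * D.F x r w)) +
        ((-lam / 2 * (2 * ⟪w.2.1, ((0, 0, w.2.2) : E × E × H).2.1⟫_ℝ) +
            0 * (2 * ⟪w.2.2, ((0, 0, w.2.2) : E × E × H).2.2⟫_ℝ)) *
            (ex lam w * D.F x r w) +
          (0 + -lam / 2 * zz w + 0 * xx w) *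
            (dex lam w (0, 0, w.2.2) * D.F x r w + ex lam w * D.dF x r w (0, 0, w.2.2))))) := by
    intro w
    have a1 : D.dF x r w (0, w.2.1, 0) = 2 * zz w * ∑ i, D.f x r i w := by
      unfold Dat.dF dv zz
      simp only [inner_zero_right, inner_zero_left, real_inner_self_eq_norm_sq, mul_zero,
        zero_add, sub_zero, Finset.mul_sum]
      exact Finset.sum_congr rfl fun i _ => by ring
    have a2 : D.dF x r w (0, 0, w.2.2) = -2 * ∑ i, D.f x r i w * ⟪w.2.2, r i⟫_ℝ := by
      unfold Dat.dF dv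
      simp only [inner_zero_right, mul_zero, zero_add, Finset.mul_sum]
      exact Finset.sum_congr rfl fun i _ => by ring
    have a3 : D.one x r lam w = ex lam w * (zz w * (lam * zz w - (Module.finrank ℝ E : ℝ) +
        2 * lam * xx w - (Module.finrank ℝ H : ℝ)) * (∑ i, D.f x r i w) +
        lam * zz w * ∑ i, D.f x r i w * ⟪w.2.2, r i⟫_ℝ) := by
      unfold Dat.one
      simp only [Finset.mul_sum, ← Finset.sum_add_distrib]
      exact Finset.sum_congr rfl fun i _ => by ring
    have a4 : dex lam w (0, w.2.1, 0) = -(2 * lam * zz w) * ex lam w := by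
      unfold dex zz
      simp only [inner_zero_right, real_inner_self_eq_norm_sq, add_zero]
    have a5 : dex lam w (0, 0, w.2.2) = -(2 * lam * xx w) * ex lam w := by
      unfold dex xx
      simp only [inner_zero_right, real_inner_self_eq_norm_sq, zero_add]
    have a6 : ⟪w.2.1, ((0, w.2.1, 0) : E × E × H).2.1⟫_ℝ = zz w := by
      unfold zz; exact real_inner_self_eq_norm_sq _
    have a7 : ⟪w.2.2, ((0, 0, w.2.2) : E × E × H).2.2⟫_ℝ = xx w := by
      unfold xx; exact real_inner_self_eq_norm_sq _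
    have a8 : ⟪w.2.2, ((0, w.2.1, 0) : E × E × H).2.2⟫_ℝ = 0 := inner_zero_right _
    have a9 : ⟪w.2.1, ((0, 0, w.2.2) : E × E × H).2.1⟫_ℝ = 0 := inner_zero_right _
    rw [a1, a2, a3, a4, a5, a6, a7, a8, a9]
    unfold PP
    ring
  rw [integral_congr_ae (Eventually.of_forall key)]
  exact aux_IdA (integrable_one D x r h) j1 j2 e1 e2

end Pool.Agent.KneserBridge
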