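import Pool.Agent.KneserBridge.IntOne
import Pool.Agent.KneserBridge.DivF
import Pool.Agent.KneserBridge.DivS
import Pool.Agent.KneserBridge.DivT

/-!
# Second identity

PROOF. For every `i` take `1/2 *` `div_fst` for `smth_zf` with `x0 = x i`, `1/2 *` `div_snd` for
`smth_vf`, `div_thd` for `smth_zf` and `1/2 *` `div_const` for `smth_zf` with `u = (0, 0, r i)`.
With `z, X, e, d, N` as before, the sum over `i` of the four integrands is, pointwise,
`e z ∑ i j, g i j [⟪η - x i, η - x j⟫ + z - 2 ⟪ξ, r j⟫ - ⟪r i, r j⟫ - v i]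
 + e z ∑ i, h i [⟪η - x i, η - x i⟫ + z - 2 ⟪ξ, r i⟫ - ⟪r i, r i⟫ - v i]   (this line is `0`)
 - ∑ i, f i e {z (lam z - d + 2 lam X - N) + lam z ⟪ξ, r i⟫ - (2 lam z - d) v i / 2}`,
using `dv x r j w (η - x i, 0, 0) = 2 ⟪η - x j, η - x i⟫`, `dv x r j w (0, ζ, 0) = 2 z`,
`dv x r j w (0, 0, ξ) = -2 ⟪ξ, r j⟫`, `dv x r j w (0, 0, r i) = -2 ⟪r i, r j⟫`. Since
`g i j = g j i`, the first bracket may be symmetrised, and
`[..]_ij + [..]_ji = ‖r i - r j‖² - ‖x i - x j‖²`. So the first line is `main / 2`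
(`D.main` contains the factor `e z`). In detail, with `v i = ‖η - x i‖² + z - 2 ⟪ξ, r i⟫ - ‖r i‖²`:
`2 ⟪η - x i, η - x j⟫ - ‖η - x i‖² - ‖η - x j‖² = -‖x i - x j‖²` and
`-2 ⟪r i, r j⟫ + ‖r i‖² + ‖r j‖² = ‖r i - r j‖²`. Suggestion: one lemma per `i` (the four
integrals), one pointwise lemma, then `integral_finsetSum`.
-/

set_option autoImplicit false
set_option linter.unusedSectionVars false

namespace Pool.Agent.KneserBridge

open MeasureTheory Set Filter Topology
open scoped InnerProductSpace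

variable {E H : Type*} [NormedAddCommGroup E] [InnerProductSpace ℝ E] [FiniteDimensional ℝ E]
  [MeasurableSpace E] [BorelSpace E] [NormedAddCommGroup H] [InnerProductSpace ℝ H]
  [FiniteDimensional ℝ H] [MeasurableSpace H] [BorelSpace H] {n : ℕ}

/-- Derivative of `zz * (ex * f i)`. -/
private noncomputable def zfD (D : Dat) (x : Fin n → E) (r : Fin n → H) (lam : ℝ) (i : Fin n)
    (w u : E × E × H) : ℝ :=
  2 * ⟪w.2.1, u.2.1⟫_ℝ * (ex lam w * D.f x r i w) +
    zz w * (dex lam w u * D.f x r i w + ex lam w * D.df x r i w u)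

/-- Derivative of `(zz - v i) * (ex * f i)`. -/
private noncomputable def vfD (D : Dat) (x : Fin n → E) (r : Fin n → H) (lam : ℝ) (i : Fin n)
    (w u : E × E × H) : ℝ :=
  (2 * ⟪w.2.1, u.2.1⟫_ℝ - dv x r i w u) * (ex lam w * D.f x r i w) +
    (zz w - vv x r i w) * (dex lam w u * D.f x r i w + ex lam w * D.df x r i w u)

private theorem df_fst (D : Dat) (x : Fin n → E) (r : Fin n → H) (i : Fin n)
    (w : E × E × H) : D.df x r i w (w.1 - x i, 0, 0) =
      2 * ((∑ j, D.g x r i j w * ⟪w.1 - x j, w.1 - x i⟫_ℝ) +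
        D.h x r i w * ‖w.1 - x i‖ ^ 2) := by
  unfold Dat.df dv
  simp only [inner_zero_right, inner_zero_left, mul_zero, sub_zero, add_zero,
    real_inner_self_eq_norm_sq]
  rw [mul_add, Finset.mul_sum]
  congr 1
  · exact Finset.sum_congr rfl fun j _ => by ring
  · ring

private theorem df_snd (D : Dat) (x : Fin n → E) (r : Fin n → H) (i : Fin n)
    (w : E × E × H) : D.df x r i w (0, w.2.1, 0) =
      2 * ((∑ j, D.g x r i j w * zz w) + D.h x r i w * zz w) := by
  unfold Dat.df dv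
  simp only [inner_zero_right, inner_zero_left, mul_zero, sub_zero, zero_add,
    real_inner_self_eq_norm_sq]
  rw [mul_add, Finset.mul_sum]
  congr 1
  · exact Finset.sum_congr rfl fun j _ => by unfold zz; ring
  · unfold zz; ring

private theorem df_thd (D : Dat) (x : Fin n → E) (r : Fin n → H) (i : Fin n)
    (w : E × E × H) : D.df x r i w (0, 0, w.2.2) =
      -(2 * ((∑ j, D.g x r i j w * ⟪w.2.2, r j⟫_ℝ) + D.h x r i w * ⟪w.2.2, r i⟫_ℝ)) := by
  unfold Dat.df dv
  simp only [inner_zero_right, mul_zero, zero_add, zero_sub]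
  rw [mul_add, Finset.mul_sum, neg_add, ← Finset.sum_neg_distrib]
  congr 1
  · exact Finset.sum_congr rfl fun j _ => by ring
  · ring

private theorem df_const (D : Dat) (x : Fin n → E) (r : Fin n → H) (i : Fin n)
    (w : E × E × H) : D.df x r i w (0, 0, r i) =
      -(2 * ((∑ j, D.g x r i j w * ⟪r i, r j⟫_ℝ) + D.h x r i w * ‖r i‖ ^ 2)) := by
  unfold Dat.df dv
  simp only [inner_zero_right, mul_zero, zero_add, zero_sub, real_inner_self_eq_norm_sq]
  rw [mul_add, Finset.mul_sum, neg_add, ← Finset.sum_neg_distrib]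
  congr 1
  · exact Finset.sum_congr rfl fun j _ => by ring
  · ring

/-- The bracket. -/
private noncomputable def brk (x : Fin n → E) (r : Fin n → H) (i j : Fin n)
    (w : E × E × H) : ℝ :=
  ⟪w.1 - x j, w.1 - x i⟫_ℝ + zz w - vv x r i w - 2 * ⟪w.2.2, r j⟫_ℝ - ⟪r i, r j⟫_ℝ

/-- The sum of the four integrands. -/
private noncomputable def tot4 (D : Dat) (x : Fin n → E) (r : Fin n → H) (lam : ℝ) (i : Fin n)
    (w : E × E × H) : ℝ :=
  1 / 2 * ((Module.finrank ℝ E : ℝ) * (zz w * (ex lam w * D.f x r i w)) +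
      zfD D x r lam i w (w.1 - x i, 0, 0)) +
    1 / 2 * ((Module.finrank ℝ E : ℝ) * ((zz w - vv x r i w) * (ex lam w * D.f x r i w)) +
      vfD D x r lam i w (0, w.2.1, 0)) +
    ((Module.finrank ℝ H : ℝ) * (zz w * (ex lam w * D.f x r i w)) +
      zfD D x r lam i w (0, 0, w.2.2)) +
    1 / 2 * zfD D x r lam i w (0, 0, r i)

private theorem tot4_eq (D : Dat) (x : Fin n → E) (r : Fin n → H) (lam : ℝ) (i : Fin n)
    (w : E × E × H) : tot4 D x r lam i w =
      ex lam w * zz w * (∑ j, D.g x r i j w * brk x r i j w) +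
      1 / 2 * ((2 * lam * zz w - (Module.finrank ℝ E : ℝ)) *
        (vv x r i w * D.f x r i w) * ex lam w) -
      D.f x r i w * ex lam w * (zz w * (lam * zz w - (Module.finrank ℝ E : ℝ) +
        2 * lam * xx w - (Module.finrank ℝ H : ℝ)) + lam * zz w * ⟪w.2.2, r i⟫_ℝ) := by
  have hs : (∑ j, D.g x r i j w * brk x r i j w) =
      (∑ j, D.g x r i j w * ⟪w.1 - x j, w.1 - x i⟫_ℝ) + (∑ j, D.g x r i j w * zz w) -
      (∑ j, D.g x r i j w) * vv x r i w - 2 * (∑ j, D.g x r i j w * ⟪w.2.2, r j⟫_ℝ) -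
      ∑ j, D.g x r i j w * ⟪r i, r j⟫_ℝ := by
    rw [Finset.sum_mul, Finset.mul_sum, ← Finset.sum_add_distrib, ← Finset.sum_sub_distrib,
      ← Finset.sum_sub_distrib, ← Finset.sum_sub_distrib]
    exact Finset.sum_congr rfl fun j _ => by unfold brk; ring
  have hg : (∑ j, D.g x r i j w * zz w) = (∑ j, D.g x r i j w) * zz w := by
    rw [Finset.sum_mul]
  have hv : vv x r i w = ‖w.1 - x i‖ ^ 2 + zz w - 2 * ⟪w.2.2, r i⟫_ℝ - ‖r i‖ ^ 2 := rfl
  have hz : ⟪w.2.1, w.2.1⟫_ℝ = zz w := real_inner_self_eq_norm_sq _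
  have hx : ⟪w.2.2, w.2.2⟫_ℝ = xx w := real_inner_self_eq_norm_sq _
  have hdv : dv x r i w (0, w.2.1, 0) = 2 * zz w := by
    unfold dv
    simp only [inner_zero_right, inner_zero_left, mul_zero, sub_zero, zero_add, hz]
  unfold tot4 zfD vfD
  rw [df_fst, df_snd, df_thd, df_const, hdv, hs, hg]
  unfold dex
  simp only [inner_zero_right, mul_zero, add_zero, zero_add, hz, hx]
  generalize (∑ j, D.g x r i j w * ⟪w.1 - x j, w.1 - x i⟫_ℝ) = A
  generalize (∑ j, D.g x r i j w * ⟪w.2.2, r j⟫_ℝ) = B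
  generalize (∑ j, D.g x r i j w * ⟪r i, r j⟫_ℝ) = C
  generalize (∑ j, D.g x r i j w) = G
  have hA : ‖w.1 - x i‖ ^ 2 = vv x r i w - zz w + 2 * ⟪w.2.2, r i⟫_ℝ + ‖r i‖ ^ 2 := by
    rw [hv]; ring
  rw [hA]
  ring

private theorem brk_symm (x : Fin n → E) (r : Fin n → H) (i j : Fin n) (w : E × E × H) :
    brk x r i j w + brk x r j i w = ‖r i - r j‖ ^ 2 - ‖x i - x j‖ ^ 2 := by
  have h1 : ‖x i - x j‖ ^ 2 = ‖w.1 - x j‖ ^ 2 - 2 * ⟪w.1 - x j, w.1 - x i⟫_ℝ +
      ‖w.1 - x i‖ ^ 2 := by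
    rw [← norm_sub_sq_real]
    congr 2
    abel
  have h2 := norm_sub_sq_real (r i) (r j)
  rw [h1, h2]
  unfold brk vv
  rw [real_inner_comm (w.1 - x j) (w.1 - x i), real_inner_comm (r i) (r j)]
  ring

private theorem sum_brk (D : Dat) (x : Fin n → E) (r : Fin n → H) (w : E × E × H) :
    (∑ i, ∑ j, D.g x r i j w * brk x r i j w) =
      1 / 2 * ∑ i, ∑ j, (‖r i - r j‖ ^ 2 - ‖x i - x j‖ ^ 2) * D.g x r i j w := by
  have h1 : (∑ i, ∑ j, D.g x r i j w * brk x r i j w) =
      ∑ i, ∑ j, D.g x r i j w * brk x r j i w := by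
    rw [Finset.sum_comm]
    refine Finset.sum_congr rfl fun i _ => Finset.sum_congr rfl fun j _ => ?_
    congr 1
    unfold Dat.g
    ring
  have h2 : (∑ i, ∑ j, (‖r i - r j‖ ^ 2 - ‖x i - x j‖ ^ 2) * D.g x r i j w) =
      (∑ i, ∑ j, D.g x r i j w * brk x r i j w) + ∑ i, ∑ j, D.g x r i j w * brk x r j i w := by
    rw [← Finset.sum_add_distrib]
    refine Finset.sum_congr rfl fun i _ => ?_
    rw [← Finset.sum_add_distrib]
    refine Finset.sum_congr rfl fun j _ => ?_
    rw [← brk_symm x r i j w]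
    ring
  rw [h2, ← h1]
  ring

private theorem sum_tot4 (D : Dat) (x : Fin n → E) (r : Fin n → H) (lam : ℝ)
    (w : E × E × H) : ∑ i, tot4 D x r lam i w =
      1 / 2 * D.main x r lam w + 1 / 2 * D.err x r lam w - D.one x r lam w := by
  have h0 : ∀ i, tot4 D x r lam i w =
      ex lam w * zz w * (∑ j, D.g x r i j w * brk x r i j w) +
      1 / 2 * ((2 * lam * zz w - (Module.finrank ℝ E : ℝ)) * ex lam w *
        (vv x r i w * D.f x r i w)) -
      D.f x r i w * ex lam w * (zz w * (lam * zz w - (Module.finrank ℝ E : ℝ) +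
        2 * lam * xx w - (Module.finrank ℝ H : ℝ)) + lam * zz w * ⟪w.2.2, r i⟫_ℝ) := by
    intro i
    rw [tot4_eq]
    ring
  rw [Finset.sum_congr rfl fun i _ => h0 i, Finset.sum_sub_distrib, Finset.sum_add_distrib,
    ← Finset.mul_sum, ← Finset.mul_sum, ← Finset.mul_sum, sum_brk]
  unfold Dat.main Dat.err Dat.one
  ring

private theorem int_four {F1 F2 F3 F4 : E × E × H → ℝ} (b1 : Integrable F1)
    (b2 : Integrable F2) (b3 : Integrable F3) (b4 : Integrable F4) (c1 : ∫ w, F1 w = 0)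
    (c2 : ∫ w, F2 w = 0) (c3 : ∫ w, F3 w = 0) (c4 : ∫ w, F4 w = 0) :
    Integrable (fun w => F1 w + F2 w + F3 w + F4 w) ∧
      ∫ w, (F1 w + F2 w + F3 w + F4 w) = 0 := by
  have b12 : Integrable (fun w => F1 w + F2 w) := b1.add b2
  have b123 : Integrable (fun w => F1 w + F2 w + F3 w) := b12.add b3
  refine ⟨b123.add b4, ?_⟩
  rw [integral_add b123 b4, integral_add b12 b3, integral_add b1 b2, c1, c2, c3, c4]
  norm_num

private theorem int_tot4 (D : Dat) (x : Fin n → E) (r : Fin n → H) {lam : ℝ} (h : 0 < lam)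
    (i : Fin n) : Integrable (tot4 D x r lam i) ∧ ∫ w, tot4 D x r lam i w = 0 := by
  have s1 : Smth (fun w : E × E × H => zz w * (ex lam w * D.f x r i w)) (zfD D x r lam i) :=
    smth_zf D x r h i
  have s2 : Smth (fun w : E × E × H => (zz w - vv x r i w) * (ex lam w * D.f x r i w))
    (vfD D x r lam i) := smth_vf D x r h i
  have a1 := div_fst s1 (x i)
  have a2 := div_snd s2
  have a3 := div_thd s1
  have a4 := div_const s1 (0, 0, r i)
  have i1 := smth_integrable s1
  have i2 := smth_integrable s2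
  have b1 : Integrable (fun w : E × E × H => 1 / 2 *
      ((Module.finrank ℝ E : ℝ) * (zz w * (ex lam w * D.f x r i w)) +
        zfD D x r lam i w (w.1 - x i, 0, 0))) := ((i1.const_mul _).add a1.1).const_mul _
  have b2 : Integrable (fun w : E × E × H => 1 / 2 *
      ((Module.finrank ℝ E : ℝ) * ((zz w - vv x r i w) * (ex lam w * D.f x r i w)) +
        vfD D x r lam i w (0, w.2.1, 0))) := ((i2.const_mul _).add a2.1).const_mul _
  have b3 : Integrable (fun w : E × E × H =>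
      ((Module.finrank ℝ H : ℝ) * (zz w * (ex lam w * D.f x r i w)) +
        zfD D x r lam i w (0, 0, w.2.2))) := (i1.const_mul _).add a3.1
  have b4 : Integrable (fun w : E × E × H => 1 / 2 * zfD D x r lam i w (0, 0, r i)) :=
    a4.1.const_mul _
  refine int_four b1 b2 b3 b4 ?_ ?_ a3.2 ?_
  · rw [integral_const_mul, a1.2, mul_zero]
  · rw [integral_const_mul, a2.2, mul_zero]
  · rw [integral_const_mul, a4.2, mul_zero]

theorem integral_one (D : Dat) (x : Fin n → E) (r : Fin n → H) {lam : ℝ} (h : 0 < lam) :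
    ∫ w, D.one x r lam w = (∫ w, D.main x r lam w) / 2 + (∫ w, D.err x r lam w) / 2 := by
  have h0 : ∫ w, ∑ i, tot4 D x r lam i w = 0 := by
    rw [integral_finsetSum _ fun i _ => (int_tot4 D x r h i).1]
    exact Finset.sum_eq_zero fun i _ => (int_tot4 D x r h i).2
  have h1 : ∫ w, ∑ i, tot4 D x r lam i w =
      ∫ w, (1 / 2 * D.main x r lam w + 1 / 2 * D.err x r lam w - D.one x r lam w) :=
    integral_congr_ae (Filter.Eventually.of_forall fun w => sum_tot4 D x r lam w)
  have i1 : Integrable (fun w => 1 / 2 * D.main x r lam w) :=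
    (integrable_main D x r h).const_mul _
  have i2 : Integrable (fun w => 1 / 2 * D.err x r lam w) :=
    (integrable_err D x r h).const_mul _
  have i3 : Integrable (fun w => 1 / 2 * D.main x r lam w + 1 / 2 * D.err x r lam w) :=
    i1.add i2
  rw [h0, integral_sub i3 (integrable_one D x r h), integral_add i1 i2, integral_const_mul,
    integral_const_mul] at h1
  linarith

end Pool.Agent.KneserBridge
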