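import Pool.Agent.KneserBridge.Deriv

/-!
# Integrability

PROOF. All three integrands are finite sums of (polynomially bounded, continuous) `* f i * ex` or
`* g i j * ex`, zero where `1 < v l` for all `l`: `rap_of_support`, `rap_integrable`
(`pol_mul`, `pol_sum`, `pol_g`, `(pols_f ..).pP`, `pol_zz`, ...; continuity by `fun_prop` and
`continuous_f`, `continuous_g`).
-/

set_option autoImplicit false
set_option linter.unusedSectionVars false

namespace Pool.Agent.KneserBridge

open MeasureTheory Set Filter Topology
open scoped InnerProductSpace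

variable {E H : Type*} [NormedAddCommGroup E] [InnerProductSpace ℝ E] [FiniteDimensional ℝ E]
  [MeasurableSpace E] [BorelSpace E] [NormedAddCommGroup H] [InnerProductSpace ℝ H]
  [FiniteDimensional ℝ H] [MeasurableSpace H] [BorelSpace H] {n : ℕ}

private theorem int_IntOne (x : Fin n → E) (r : Fin n → H) {lam : ℝ} (h : 0 < lam)
    {g : E × E × H → ℝ} (hp : Pol g) (hc : Continuous g)
    (hs : ∀ w, (∀ l, 1 < vv x r l w) → g w = 0) : Integrable (fun w => g w * ex lam w) :=
  rap_integrable (rap_of_support x r h hp hs) (hc.mul (pols_ex h).cP).aestronglyMeasurable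

/-- The integrand after the first integration by parts. -/
noncomputable def Dat.one (D : Dat) (x : Fin n → E) (r : Fin n → H) (lam : ℝ)
    (w : E × E × H) : ℝ :=
  ∑ i, D.f x r i w * ex lam w * (zz w * (lam * zz w - (Module.finrank ℝ E : ℝ) +
    2 * lam * xx w - (Module.finrank ℝ H : ℝ)) + lam * zz w * ⟪w.2.2, r i⟫_ℝ)

theorem integrable_one (D : Dat) (x : Fin n → E) (r : Fin n → H) {lam : ℝ} (h : 0 < lam) :
    Integrable (D.one x r lam) := by
  have hz : Continuous (zz : E × E × H → ℝ) := pols_zz.cP
  have hx : Continuous (xx : E × E × H → ℝ) := pols_xx.cP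
  have hP : ∀ i, Pol (fun w : E × E × H =>
      zz w * (lam * zz w - (Module.finrank ℝ E : ℝ) + 2 * lam * xx w -
        (Module.finrank ℝ H : ℝ)) + lam * zz w * ⟪w.2.2, r i⟫_ℝ) := by
    intro i
    have h1 := pol_add (pol_mul (pol_zz (E := E) (H := H))
      (pol_add (pol_add (pol_add (pol_mul (pol_const lam) pol_zz)
        (pol_const (-(Module.finrank ℝ E : ℝ)))) (pol_mul (pol_const (2 * lam)) pol_xx))
        (pol_const (-(Module.finrank ℝ H : ℝ)))))
      (pol_mul (pol_mul (pol_const lam) pol_zz) (pol_inner_thd (E := E) (r i)))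
    refine (congrArg Pol (funext fun w => ?_)).mp h1
    ring
  have hC : ∀ i, Continuous (fun w : E × E × H =>
      zz w * (lam * zz w - (Module.finrank ℝ E : ℝ) + 2 * lam * xx w -
        (Module.finrank ℝ H : ℝ)) + lam * zz w * ⟪w.2.2, r i⟫_ℝ) := by
    intro i
    have h1 : Continuous (fun w : E × E × H => ⟪w.2.2, r i⟫_ℝ) := by fun_prop
    exact (hz.mul ((((continuous_const.mul hz).sub continuous_const).add
      (continuous_const.mul hx)).sub continuous_const)).add
      ((continuous_const.mul hz).mul h1)
  have h2 := int_IntOne x r h (g := fun w => ∑ i, D.f x r i w *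
      (zz w * (lam * zz w - (Module.finrank ℝ E : ℝ) + 2 * lam * xx w -
        (Module.finrank ℝ H : ℝ)) + lam * zz w * ⟪w.2.2, r i⟫_ℝ))
    (pol_sum _ fun i _ => pol_mul (pols_f D x r i).pP (hP i))
    (continuous_finsetSum _ fun i _ => (continuous_f D x r i).mul (hC i))
    (fun w hw => Finset.sum_eq_zero fun i _ => by rw [f_eq_zero D x r i (hw i), zero_mul])
  refine (congrArg (fun G : E × E × H → ℝ => Integrable G) (funext fun w => ?_)).mp h2
  unfold Dat.one
  rw [Finset.sum_mul]
  exact Finset.sum_congr rfl fun i _ => by ring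

theorem integrable_main (D : Dat) (x : Fin n → E) (r : Fin n → H) {lam : ℝ} (h : 0 < lam) :
    Integrable (D.main x r lam) := by
  have hz : Continuous (zz : E × E × H → ℝ) := pols_zz.cP
  have h2 := int_IntOne x r h (g := fun w => zz w *
      ∑ i, ∑ j, (‖r i - r j‖ ^ 2 - ‖x i - x j‖ ^ 2) * D.g x r i j w)
    (pol_mul pol_zz (pol_sum _ fun i _ => pol_sum _ fun j _ =>
      pol_mul (pol_const _) (pol_g D x r i j)))
    (hz.mul (continuous_finsetSum _ fun i _ => continuous_finsetSum _ fun j _ =>
      continuous_const.mul (continuous_g D x r i j)))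
    (fun w hw => by
      rw [Finset.sum_eq_zero fun i _ => Finset.sum_eq_zero fun j _ => by
        rw [g_eq_zero D x r i j hw, mul_zero], mul_zero])
  exact h2

theorem integrable_err (D : Dat) (x : Fin n → E) (r : Fin n → H) {lam : ℝ} (h : 0 < lam) :
    Integrable (D.err x r lam) := by
  have hz : Continuous (zz : E × E × H → ℝ) := pols_zz.cP
  have h1 : Pol (fun w : E × E × H => 2 * lam * zz w - (Module.finrank ℝ E : ℝ)) := by
    have h3 := pol_add (pol_mul (pol_const (2 * lam)) (pol_zz (E := E) (H := H)))
      (pol_const (-(Module.finrank ℝ E : ℝ)))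
    refine (congrArg Pol (funext fun w => ?_)).mp h3
    ring
  have h2 := int_IntOne x r h (g := fun w => (2 * lam * zz w - (Module.finrank ℝ E : ℝ)) *
      ∑ i, vv x r i w * D.f x r i w)
    (pol_mul h1 (pol_sum _ fun i _ => pol_mul (pol_vv x r i) (pols_f D x r i).pP))
    (((continuous_const.mul hz).sub continuous_const).mul
      (continuous_finsetSum _ fun i _ => (pols_vv x r i).cP.mul (continuous_f D x r i)))
    (fun w hw => by
      rw [Finset.sum_eq_zero fun i _ => by rw [f_eq_zero D x r i (hw i), mul_zero], mul_zero])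
  exact h2

end Pool.Agent.KneserBridge
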