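import Pool.Agent.KneserBridge.Deriv

/-!
# Differentiation of the functional

PROOF. `hasDerivAt_om`: `d/dlam [lam ^ s (d - lam z) exp (-lam (z + X))]` with `s = (d + N) / 2`;
`PP = s (d - lam z) - lam z - lam (d - lam z)(z + X)`. `hasDerivAt_JF`:
`hasDerivAt_integral_of_dominated_loc_of_deriv_le` on a small interval around `lam` inside
`(lam / 2, 2 lam)`; domination: `|F| ≤ K n`, `F = 0` unless some `v l ≤ 1`, then
`ex_le_of_vv` with `lam0 = lam / 2` and `|PP| ≤` polynomial with coefficients bounded for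
`lam' ≤ 2 lam`; `rap_integrable`.
-/

set_option autoImplicit false
set_option linter.unusedSectionVars false

namespace Pool.Agent.KneserBridge

open MeasureTheory Set Filter Topology
open scoped InnerProductSpace

variable {E H : Type*} [NormedAddCommGroup E] [InnerProductSpace ℝ E] [FiniteDimensional ℝ E]
  [MeasurableSpace E] [BorelSpace E] [NormedAddCommGroup H] [InnerProductSpace ℝ H]
  [FiniteDimensional ℝ H] [MeasurableSpace H] [BorelSpace H] {n : ℕ}

private theorem zz_nonneg_JDer (w : E × E × H) : 0 ≤ zz w := sq_nonneg _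

private theorem xx_nonneg_JDer (w : E × E × H) : 0 ≤ xx w := sq_nonneg _

private theorem ex_anti_JDer {a b : ℝ} (h : a ≤ b) (w : E × E × H) : ex b w ≤ ex a w := by
  unfold ex
  apply Real.exp_le_exp.mpr
  have h1 : 0 ≤ zz w + xx w := add_nonneg (zz_nonneg_JDer w) (xx_nonneg_JDer w)
  have h2 := mul_le_mul_of_nonneg_right h h1
  linarith

private noncomputable def Q_JDer (lam : ℝ) (w : E × E × H) : ℝ :=
  (2 * lam) ^ 2 * (zz w * zz w) + (2 * lam) ^ 2 * (zz w * xx w) +
    (2 * lam) * (3 * (Module.finrank ℝ E : ℝ) / 2 + 1 + (Module.finrank ℝ H : ℝ) / 2) * zz w +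
    (2 * lam) * (Module.finrank ℝ E : ℝ) * xx w +
    (Module.finrank ℝ E : ℝ) * ((Module.finrank ℝ E : ℝ) + (Module.finrank ℝ H : ℝ)) / 2

private theorem Q_pol_JDer (lam : ℝ) : Pol (Q_JDer lam : E × E × H → ℝ) := by
  unfold Q_JDer
  exact pol_add (pol_add (pol_add (pol_add (pol_mul (pol_const _) (pol_mul pol_zz pol_zz))
    (pol_mul (pol_const _) (pol_mul pol_zz pol_xx))) (pol_mul (pol_const _) pol_zz))
    (pol_mul (pol_const _) pol_xx)) (pol_const _)

private theorem Q_cont_JDer (lam : ℝ) : Continuous (Q_JDer lam : E × E × H → ℝ) := by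
  have h1 : Continuous (zz : E × E × H → ℝ) := pols_zz.cP
  have h2 : Continuous (xx : E × E × H → ℝ) := pols_xx.cP
  unfold Q_JDer
  fun_prop

private theorem PP_le_JDer {lam l : ℝ} (h0 : 0 < l) (h1 : l ≤ 2 * lam) (w : E × E × H) :
    |PP l w| ≤ Q_JDer lam w := by
  have hz := zz_nonneg_JDer w
  have hx := xx_nonneg_JDer w
  have hd : (0 : ℝ) ≤ (Module.finrank ℝ E : ℝ) := Nat.cast_nonneg _
  have hN : (0 : ℝ) ≤ (Module.finrank ℝ H : ℝ) := Nat.cast_nonneg _
  have hl2 : l ^ 2 ≤ (2 * lam) ^ 2 := pow_le_pow_left₀ h0.le h1 2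
  set d : ℝ := (Module.finrank ℝ E : ℝ) with hdd
  set N : ℝ := (Module.finrank ℝ H : ℝ) with hNN
  have a1 : l ^ 2 * (zz w * zz w) ≤ (2 * lam) ^ 2 * (zz w * zz w) :=
    mul_le_mul_of_nonneg_right hl2 (by positivity)
  have a2 : l ^ 2 * (zz w * xx w) ≤ (2 * lam) ^ 2 * (zz w * xx w) :=
    mul_le_mul_of_nonneg_right hl2 (by positivity)
  have a3 : l * ((3 * d / 2 + 1 + N / 2) * zz w) ≤
      (2 * lam) * ((3 * d / 2 + 1 + N / 2) * zz w) :=
    mul_le_mul_of_nonneg_right h1 (by positivity)
  have a4 : l * (d * xx w) ≤ (2 * lam) * (d * xx w) :=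
    mul_le_mul_of_nonneg_right h1 (by positivity)
  have b1 : 0 ≤ l ^ 2 * (zz w * zz w) := by positivity
  have b2 : 0 ≤ l ^ 2 * (zz w * xx w) := by positivity
  have b3 : 0 ≤ l * ((3 * d / 2 + 1 + N / 2) * zz w) := by positivity
  have b4 : 0 ≤ l * (d * xx w) := by positivity
  have b5 : 0 ≤ d * (d + N) / 2 := by positivity
  have e : PP l w = l ^ 2 * (zz w * zz w) + l ^ 2 * (zz w * xx w) -
      l * ((3 * d / 2 + 1 + N / 2) * zz w) - l * (d * xx w) + d * (d + N) / 2 := by
    unfold PP
    ring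
  have e' : Q_JDer lam w = (2 * lam) ^ 2 * (zz w * zz w) + (2 * lam) ^ 2 * (zz w * xx w) +
      (2 * lam) * ((3 * d / 2 + 1 + N / 2) * zz w) + (2 * lam) * (d * xx w) +
      d * (d + N) / 2 := by
    unfold Q_JDer
    ring
  rw [e, e', abs_le]
  constructor <;> linarith

private theorem om_cont_JDer {lam : ℝ} (h : 0 < lam) :
    Continuous (om lam : E × E × H → ℝ) := by
  have h1 : Continuous (zz : E × E × H → ℝ) := pols_zz.cP
  have h2 : Continuous (ex lam : E × E × H → ℝ) := (pols_ex h).cP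
  unfold om
  fun_prop

private theorem om'_cont_JDer {lam : ℝ} (h : 0 < lam) :
    Continuous (om' lam : E × E × H → ℝ) := by
  have h1 : Continuous (zz : E × E × H → ℝ) := pols_zz.cP
  have h3 : Continuous (xx : E × E × H → ℝ) := pols_xx.cP
  have h2 : Continuous (ex lam : E × E × H → ℝ) := (pols_ex h).cP
  unfold om' PP
  fun_prop

theorem hasDerivAt_om (w : E × E × H) {lam : ℝ} (h : 0 < lam) :
    HasDerivAt (fun l => om l w) (om' lam w) lam := by
  have hs : HasDerivAt (fun l : ℝ => l ^ (((Module.finrank ℝ E : ℝ) +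
      (Module.finrank ℝ H : ℝ)) / 2)) ((((Module.finrank ℝ E : ℝ) +
      (Module.finrank ℝ H : ℝ)) / 2) * lam ^ ((((Module.finrank ℝ E : ℝ) +
      (Module.finrank ℝ H : ℝ)) / 2) - 1)) lam := by
    exact Real.hasDerivAt_rpow_const (Or.inl h.ne')
  have h1 : HasDerivAt (fun l : ℝ => (Module.finrank ℝ E : ℝ) - l * zz w) (-zz w) lam := by
    have := ((hasDerivAt_id lam).mul_const (zz w)).const_sub (Module.finrank ℝ E : ℝ)
    simpa using this
  have h2 : HasDerivAt (fun l : ℝ => ex l w) (ex lam w * (-(zz w + xx w))) lam := by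
    have h3 : HasDerivAt (fun l : ℝ => -l * (zz w + xx w)) (-(zz w + xx w)) lam := by
      have := ((hasDerivAt_id lam).neg).mul_const (zz w + xx w)
      simpa using this
    exact h3.exp
  have h4 := hs.mul (h1.mul h2)
  have hpow : lam ^ (((Module.finrank ℝ E : ℝ) + (Module.finrank ℝ H : ℝ)) / 2) =
      lam ^ ((((Module.finrank ℝ E : ℝ) + (Module.finrank ℝ H : ℝ)) / 2) - 1) * lam := by
    rw [← Real.rpow_add_one h.ne', sub_add_cancel]
  refine h4.congr_deriv ?_
  unfold om' PP
  rw [hpow]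
  simp only [Pi.mul_apply]
  ring

theorem integrable_F_om (D : Dat) (x : Fin n → E) (r : Fin n → H) {lam : ℝ} (h : 0 < lam) :
    Integrable (fun w => D.F x r w * om lam w) := by
  have h1 : Rap (fun w => (D.F x r w * (lam ^ (((Module.finrank ℝ E : ℝ) +
      (Module.finrank ℝ H : ℝ)) / 2) * ((Module.finrank ℝ E : ℝ) + (-lam) * zz w))) *
      ex lam w) :=
    rap_of_support x r h (pol_mul (pols_F D x r).pP (pol_mul (pol_const _)
      (pol_add (pol_const _) (pol_mul (pol_const _) pol_zz))))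
      (fun w hw => by rw [F_eq_zero D x r hw, zero_mul])
  have h2 : Rap (fun w => D.F x r w * om lam w) := by
    refine (congrArg Rap (funext fun w => ?_)).mp h1
    unfold om
    ring
  exact rap_integrable h2
    ((continuous_F D x r).mul (om_cont_JDer h)).aestronglyMeasurable

theorem hasDerivAt_JF (D : Dat) (x : Fin n → E) (r : Fin n → H) {lam : ℝ} (h : 0 < lam) :
    HasDerivAt (fun l => ∫ w, D.F x r w * om l w) (∫ w, D.F x r w * om' lam w) lam := by
  have hl0 : 0 < lam / 2 := half_pos h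
  set s : ℝ := ((Module.finrank ℝ E : ℝ) + (Module.finrank ℝ H : ℝ)) / 2 with hs
  have hs0 : 0 ≤ s := by rw [hs]; positivity
  set B : ℝ := (2 * lam) ^ s / (lam / 2) with hB
  have hB0 : 0 ≤ B := by rw [hB]; positivity
  have hBl : ∀ l ∈ Ioo (lam / 2) (2 * lam), l ^ (s - 1) ≤ B := by
    intro l hl
    have hlp : 0 < l := hl0.trans hl.1
    rw [Real.rpow_sub_one hlp.ne', hB]
    exact div_le_div₀ (by positivity) (Real.rpow_le_rpow hlp.le hl.2.le hs0) hl0 hl.1.le
  have hbpol : Pol (fun w => |D.F x r w| * (B * Q_JDer lam w)) :=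
    pol_mul (pol_of_bound (C := D.K * n) fun w => by
      rw [abs_abs]
      exact abs_F_le D x r w) (pol_mul (pol_const B) (Q_pol_JDer lam))
  have hbrap : Rap (fun w => (|D.F x r w| * (B * Q_JDer lam w)) * ex (lam / 2) w) :=
    rap_of_support x r hl0 hbpol (fun w hw => by rw [F_eq_zero D x r hw, abs_zero, zero_mul])
  have hbcont : Continuous (fun w => (|D.F x r w| * (B * Q_JDer lam w)) * ex (lam / 2) w) :=
    ((continuous_F D x r).abs.mul (continuous_const.mul (Q_cont_JDer lam))).mul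
      (pols_ex hl0).cP
  have hbint := rap_integrable hbrap hbcont.aestronglyMeasurable
  have hnhds : Ioo (lam / 2) (2 * lam) ∈ 𝓝 lam :=
    Ioo_mem_nhds (by linarith) (by linarith)
  have key := hasDerivAt_integral_of_dominated_loc_of_deriv_le
    (μ := (volume : Measure (E × E × H))) (F := fun l w => D.F x r w * om l w)
    (F' := fun l w => D.F x r w * om' l w) (x₀ := lam)
    (bound := fun w => (|D.F x r w| * (B * Q_JDer lam w)) * ex (lam / 2) w) hnhds
    (by
      filter_upwards [hnhds] with l hl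
      exact ((continuous_F D x r).mul (om_cont_JDer (hl0.trans hl.1))).aestronglyMeasurable)
    (integrable_F_om D x r h)
    ((continuous_F D x r).mul (om'_cont_JDer h)).aestronglyMeasurable
    (Eventually.of_forall fun w l hl => by
      have hlp : 0 < l := hl0.trans hl.1
      have c1 := PP_le_JDer hlp hl.2.le w
      have c2 := ex_anti_JDer hl.1.le w
      have c3 := hBl l hl
      have c4 : 0 ≤ l ^ (s - 1) := by positivity
      have c5 : 0 ≤ ex l w := (Real.exp_pos _).le
      rw [Real.norm_eq_abs, abs_mul]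
      have c6 : |om' l w| = l ^ (s - 1) * (|PP l w| * ex l w) := by
        unfold om'
        rw [abs_mul, abs_mul, abs_of_nonneg c5, abs_of_nonneg c4]
      rw [c6]
      have c7 : l ^ (s - 1) * (|PP l w| * ex l w) ≤ B * (Q_JDer lam w * ex (lam / 2) w) := by
        have c8 : |PP l w| * ex l w ≤ Q_JDer lam w * ex (lam / 2) w :=
          mul_le_mul c1 c2 c5 ((abs_nonneg _).trans c1)
        exact mul_le_mul c3 c8 (mul_nonneg (abs_nonneg _) c5) hB0
      calc |D.F x r w| * (l ^ (s - 1) * (|PP l w| * ex l w))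
          ≤ |D.F x r w| * (B * (Q_JDer lam w * ex (lam / 2) w)) :=
            mul_le_mul_of_nonneg_left c7 (abs_nonneg _)
        _ = _ := by ring)
    hbint
    (Eventually.of_forall fun w l hl =>
      (hasDerivAt_om w (hl0.trans hl.1)).const_mul (D.F x r w))
  exact key.2

end Pool.Agent.KneserBridge
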