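import Pool.Agent.KneserBridge.Deriv
import Pool.Agent.KneserBridge.Conc
import Pool.Agent.KneserBridge.Dom

/-!
# The error tends to zero

PROOF. Dominated convergence: `|∑ v f| ≤ 2 C0 #{i | 0 < v i < dl k}` (`f i = k (S) * b (v i)`,
`|k| ≤ 2`, `|v b v| ≤ C0`, `b v = 0` unless `0 < v < dl k`) tends to `0` everywhere (for a given
`w` and `i` with `0 < v i` we have `dl k ≤ v i` for large `k`), and is bounded by `2 C0 n`;
`(1 + zz) exp (-c qq)` is integrable (`rap_integrable`). Measurability of the integrands:
`continuous_f` and continuity of `vv`.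
-/

set_option autoImplicit false
set_option linter.unusedSectionVars false

namespace Pool.Agent.KneserBridge

open MeasureTheory Set Filter Topology
open scoped InnerProductSpace
open Pool.Agent.Kneser

variable {E H : Type*} [NormedAddCommGroup E] [InnerProductSpace ℝ E] [FiniteDimensional ℝ E]
  [MeasurableSpace E] [BorelSpace E] [NormedAddCommGroup H] [InnerProductSpace ℝ H]
  [FiniteDimensional ℝ H] [MeasurableSpace H] [BorelSpace H] {n : ℕ}

theorem tendsto_err (x : Fin n → E) (r : Fin n → H) {C0 c : ℝ} (hc : 0 < c)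
    (D : ℕ → Dat) (h1 : ∀ k s, |(D k).k s| ≤ 2) (h2 : ∀ k v, |v * (D k).b v| ≤ C0)
    (h3 : ∀ k v, v ≤ 0 ∨ dl k ≤ v → (D k).b v = 0) :
    Tendsto (fun k => ∫ w : E × E × H, (1 + zz w) * Real.exp (-c * qq w) *
          |∑ i, vv x r i w * (D k).f x r i w|) atTop (𝓝 0) := by
  have hC0 : 0 ≤ C0 := (abs_nonneg _).trans (h2 0 0)
  have hM : (0 : ℝ) ≤ 2 * C0 * n := by positivity
  have hterm : ∀ k (w : E × E × H) (i : Fin n), |vv x r i w * (D k).f x r i w| ≤ 2 * C0 := by
    intro k w i
    have h4 : vv x r i w * (D k).f x r i w =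
        (D k).k ((D k).S x r w) * (vv x r i w * (D k).b (vv x r i w)) := by
      unfold Dat.f
      ring
    rw [h4, abs_mul]
    exact mul_le_mul (h1 _ _) (h2 _ _) (abs_nonneg _) (by norm_num)
  have hsum : ∀ k (w : E × E × H), |∑ i, vv x r i w * (D k).f x r i w| ≤ 2 * C0 * n := by
    intro k w
    refine (Finset.abs_sum_le_sum_abs _ _).trans ?_
    refine (Finset.sum_le_sum fun i _ => hterm k w i).trans ?_
    rw [Finset.sum_const, Finset.card_univ, Fintype.card_fin, nsmul_eq_mul, mul_comm]
  have hzz : ∀ w : E × E × H, 0 ≤ zz w := fun w => by unfold zz; positivity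
  have hzq : ∀ w : E × E × H, zz w ≤ qq w := fun w => by
    unfold zz qq
    nlinarith [sq_nonneg ‖w.1‖, sq_nonneg ‖w.2.2‖]
  have hcz : Continuous (zz : E × E × H → ℝ) := by
    unfold zz
    fun_prop
  have hcq : Continuous (qq : E × E × H → ℝ) := by
    unfold qq
    fun_prop
  have hcv : ∀ i, Continuous (vv x r i : E × E × H → ℝ) := by
    intro i
    have h5 : Continuous fun w : E × E × H =>
        ‖w.1 - x i‖ ^ 2 + zz w - 2 * ⟪w.2.2, r i⟫_ℝ - ‖r i‖ ^ 2 := by
      fun_prop
    exact h5
  have hexp : Continuous fun w : E × E × H => Real.exp (-c * qq w) :=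
    Real.continuous_exp.comp (continuous_const.mul hcq)
  have hpre : Continuous fun w : E × E × H => (1 + zz w) * Real.exp (-c * qq w) :=
    (continuous_const.add hcz).mul hexp
  have hGc : ∀ k, Continuous fun w : E × E × H => (1 + zz w) * Real.exp (-c * qq w) *
      |∑ i, vv x r i w * (D k).f x r i w| := by
    intro k
    refine hpre.mul (Continuous.abs (continuous_finsetSum _ fun i _ => ?_))
    exact (hcv i).mul (continuous_f (D k) x r i)
  have hbint : Integrable (fun w : E × E × H =>
      (1 + zz w) * Real.exp (-c * qq w) * (2 * C0 * n)) volume := by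
    refine rap_integrable ⟨2 * C0 * n, c, hc, 1, fun w => ?_⟩
      ((hpre.mul continuous_const).aestronglyMeasurable)
    have h6 := hzz w
    have h7 := hzq w
    have h8 := (Real.exp_pos (-c * qq w)).le
    rw [abs_of_nonneg (by positivity), pow_one]
    calc (1 + zz w) * Real.exp (-c * qq w) * (2 * C0 * n)
        = (2 * C0 * n) * (1 + zz w) * Real.exp (-c * qq w) := by ring
      _ ≤ (2 * C0 * n) * (1 + qq w) * Real.exp (-c * qq w) :=
        mul_le_mul_of_nonneg_right (mul_le_mul_of_nonneg_left (by linarith) hM) h8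
  have hbd : ∀ k, ∀ᵐ w : E × E × H, ‖(1 + zz w) * Real.exp (-c * qq w) *
      |∑ i, vv x r i w * (D k).f x r i w|‖ ≤
        (1 + zz w) * Real.exp (-c * qq w) * (2 * C0 * n) := by
    intro k
    refine Eventually.of_forall fun w => ?_
    have h6 := hzz w
    rw [Real.norm_eq_abs, abs_of_nonneg (by positivity)]
    exact mul_le_mul_of_nonneg_left (hsum k w) (by positivity)
  have hlim : ∀ᵐ w : E × E × H, Tendsto (fun k => (1 + zz w) * Real.exp (-c * qq w) *
      |∑ i, vv x r i w * (D k).f x r i w|) atTop (𝓝 0) := by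
    refine Eventually.of_forall fun w => ?_
    refine tendsto_const_nhds.congr' ?_
    have h9 : ∀ i, ∀ᶠ k in atTop, vv x r i w * (D k).f x r i w = 0 := by
      intro i
      by_cases h : vv x r i w ≤ 0
      · refine Eventually.of_forall fun k => ?_
        unfold Dat.f
        rw [h3 k _ (Or.inl h), mul_zero, mul_zero]
      · filter_upwards [dl_tendsto.eventually (gt_mem_nhds (not_le.mp h))] with k hk
        unfold Dat.f
        rw [h3 k _ (Or.inr hk.le), mul_zero, mul_zero]
    filter_upwards [eventually_all.mpr h9] with k hk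
    rw [Finset.sum_eq_zero fun i _ => hk i, abs_zero, mul_zero]
  have hmain := tendsto_integral_of_dominated_convergence
    (fun w : E × E × H => (1 + zz w) * Real.exp (-c * qq w) * (2 * C0 * n))
    (fun k => (hGc k).aestronglyMeasurable) hbint hbd hlim
  rwa [integral_zero] at hmain

end Pool.Agent.KneserBridge
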