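import Pool.Agent.KneserBridge.Deriv
import Pool.Agent.KneserBridge.Conc

/-!
# Convergence of the smooth functionals
-/

set_option autoImplicit false
set_option linter.unusedSectionVars false

namespace Pool.Agent.KneserBridge

open MeasureTheory Set Filter Topology
open scoped InnerProductSpace
open Pool.Agent.Kneser

variable {E H : Type*} [NormedAddCommGroup E] [InnerProductSpace ℝ E] [FiniteDimensional ℝ E]
  [MeasurableSpace E] [BorelSpace E] [NormedAddCommGroup H] [InnerProductSpace ℝ H]
  [FiniteDimensional ℝ H] [MeasurableSpace H] [BorelSpace H] {n : ℕ}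

private theorem tendsto_point (m : ℝ) (v : Fin n → ℝ) :
    Tendsto (fun k => conc m (dl k) (∑ l, cut 0 (dl k) (v l))) atTop
      (𝓝 (tr m (∑ l, if v l ≤ 0 then (1 : ℝ) else 0))) := by
  set c : ℝ := ∑ l, if v l ≤ 0 then (1 : ℝ) else 0 with hc
  have h1 : Tendsto (fun n => conc m (dl n) c) atTop (𝓝 (tr m c)) := by
    unfold tr
    rw [← conc_zero_right]
    have hc : Continuous (fun δ => conc m δ c) := by
      unfold conc; fun_prop
    exact (hc.tendsto 0).comp dl_tendsto
  refine h1.congr' ?_
  have h2 : ∀ l, ∀ᶠ k in atTop, cut 0 (dl k) (v l) = if v l ≤ 0 then (1 : ℝ) else 0 := by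
    intro l
    by_cases h : v l ≤ 0
    · refine Eventually.of_forall fun k => ?_
      rw [if_pos h, cut_eq_one (dl_pos k) h]
    · have h3 : 0 < v l := not_le.mp h
      filter_upwards [dl_tendsto.eventually (gt_mem_nhds h3)] with k hk
      rw [if_neg h, cut_eq_zero (dl_pos k) (by linarith)]
  filter_upwards [eventually_all.mpr h2] with k hk
  rw [hc]
  simp only [hk]

private theorem abs_conc_le (m : ℝ) (k : ℕ) (v : Fin n → ℝ) :
    |conc m (dl k) (∑ l, cut 0 (dl k) (v l))| ≤ (n : ℝ) + (|m| + 1) + ((n : ℝ) + |m| + 1) := by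
  set s := ∑ l, cut 0 (dl k) (v l) with hs
  have hs0 : 0 ≤ s := Finset.sum_nonneg fun l _ => cut_nonneg _ _ _
  have hs1 : s ≤ n := by
    calc s ≤ ∑ _l : Fin n, (1 : ℝ) := Finset.sum_le_sum fun l _ => cut_le_one _ _ _
      _ = n := by simp
  have hsqrt : ∀ y : ℝ, √(y ^ 2 + dl k ^ 2) ≤ |y| + 1 := by
    intro y
    rw [Real.sqrt_le_left (by positivity)]
    have h1 := dl_pos k
    have h2 := dl_le_one k
    have h3 := abs_nonneg y
    have h4 := sq_abs y
    nlinarith
  have h1 := hsqrt (s - m)
  have h2 := hsqrt m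
  have h3 : |s - m| ≤ s + |m| := by
    have := abs_sub s m
    rw [abs_of_nonneg hs0] at this
    exact this
  have h4 := Real.sqrt_nonneg ((s - m) ^ 2 + dl k ^ 2)
  have h5 := Real.sqrt_nonneg (m ^ 2 + dl k ^ 2)
  rw [conc, abs_le]
  constructor <;> linarith [abs_nonneg m]

theorem tendsto_JF (x : Fin n → E) (r : Fin n → H) (m : ℝ) {lam : ℝ} (h : 0 < lam)
    (D : ℕ → Dat) (h1 : ∀ k, (D k).phi = conc m (dl k)) (h2 : ∀ k, (D k).a = cut 0 (dl k)) :
    Tendsto (fun k => ∫ w, (D k).F x r w * om lam w) atTop (𝓝 (JJ x r m lam)) := by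
  have hF : ∀ k w, (D k).F x r w = conc m (dl k) (∑ l, cut 0 (dl k) (vv x r l w)) := by
    intro k w
    unfold Dat.F Dat.S
    rw [h1, h2]
  obtain ⟨C, c, hC, hc, hle⟩ := ex_le_of_vv x r h
  set M : ℝ := (n : ℝ) + (|m| + 1) + ((n : ℝ) + |m| + 1) with hM
  have hM0 : 0 ≤ M := by positivity
  set L : ℝ := lam ^ (((Module.finrank ℝ E : ℝ) + (Module.finrank ℝ H : ℝ)) / 2) with hL
  have hL0 : 0 ≤ L := Real.rpow_nonneg h.le _
  set d : ℝ := (Module.finrank ℝ E : ℝ) with hd
  have hd0 : 0 ≤ d := Nat.cast_nonneg _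
  have hzz : ∀ w : E × E × H, 0 ≤ zz w := fun w => by unfold zz; positivity
  have hxx : ∀ w : E × E × H, 0 ≤ xx w := fun w => by unfold xx; positivity
  have hcom : Continuous (om lam : E × E × H → ℝ) := by
    unfold om ex zz xx
    fun_prop
  unfold JJ
  refine tendsto_integral_of_dominated_convergence
    (bound := fun w : E × E × H => M * (L * ((d + lam * zz w) * (C * Real.exp (-c * qq w)))))
    (fun k => ((continuous_F (D k) x r).mul hcom).aestronglyMeasurable) ?_ ?_ ?_
  · refine rap_integrable ⟨M * L * C * (d + lam), c, hc, 1, fun w => ?_⟩ ?_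
    · have hz := hzz w
      have hq := qq_nonneg w
      have hzq : zz w ≤ qq w := by
        unfold zz qq
        nlinarith [sq_nonneg ‖w.1‖, sq_nonneg ‖w.2.2‖]
      have he := Real.exp_pos (-c * qq w)
      rw [abs_of_nonneg (by positivity), pow_one]
      have h3 : d + lam * zz w ≤ (d + lam) * (1 + qq w) := by nlinarith
      calc M * (L * ((d + lam * zz w) * (C * Real.exp (-c * qq w))))
          ≤ M * (L * (((d + lam) * (1 + qq w)) * (C * Real.exp (-c * qq w)))) := by gcongr
        _ = _ := by ring
    · refine Continuous.aestronglyMeasurable ?_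
      unfold zz qq
      fun_prop
  · intro k
    refine Eventually.of_forall fun w => ?_
    have hz := hzz w
    have he := Real.exp_pos (-c * qq w)
    by_cases hw : ∃ l, vv x r l w ≤ 1
    · rw [Real.norm_eq_abs, abs_mul, hF]
      have h3 := hle lam le_rfl w hw
      have h4 := abs_conc_le m k (fun l => vv x r l w)
      have h5 : |om lam w| ≤ L * ((d + lam * zz w) * (C * Real.exp (-c * qq w))) := by
        unfold om
        rw [abs_mul, abs_mul, abs_of_nonneg hL0]
        have h6 : |d - lam * zz w| ≤ d + lam * zz w := by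
          rw [abs_le]
          have : 0 ≤ lam * zz w := by positivity
          constructor <;> linarith
        have h7 : |ex lam w| ≤ C * Real.exp (-c * qq w) := by
          rw [abs_of_pos (by unfold ex; exact Real.exp_pos _)]
          exact h3
        have h8 : 0 ≤ d + lam * zz w := by positivity
        gcongr
      gcongr
    · push Not at hw
      rw [F_eq_zero (D k) x r hw, zero_mul, norm_zero]
      positivity
  · refine Eventually.of_forall fun w => ?_
    have h3 := tendsto_point m (fun l => vv x r l w)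
    refine Tendsto.mul_const _ ?_
    unfold cv
    refine h3.congr fun k => ?_
    rw [hF]

end Pool.Agent.KneserBridge
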