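import Pool.Agent.KneserBridge.IdA
import Pool.Agent.KneserBridge.IdB
import Pool.Agent.KneserBridge.JDer
import Pool.Agent.KneserBridge.ErrLe

/-!
# Monotonicity up to an error

PROOF. Put `s = (d + N) / 2`. By `hasDerivAt_JF` and `integral_PP` the derivative of
`Φ lam = ∫ F om` is `lam ^ (s - 1) * ((∫ main) / 2 + (∫ err) / 2)`. If
`‖x i - x j‖ ≤ ‖r i - r j‖` for all `i j` then `main ≤ 0` pointwise (`g i j ≤ 0` since `k' ≤ 0`
and `b ≤ 0`), so `Φ' ≤ lam ^ (s - 1) / 2 * ∫ |err| ≤ B` on `[lam0, lam1]` with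
`B = C / 2 * ∫ ..` from `err_le`. Mean value inequality on `[lam0, lam1]`
(`Convex.image_sub_le_mul_sub_of_deriv_le` or `image_le_of_deriv_right_le..`): the difference is
at most `B * (lam1 - lam0)`; the constant of the statement is `C / 2 * (lam1 - lam0)`. The second
statement is the same with the opposite sign (`main ≥ 0`).
-/

set_option autoImplicit false
set_option linter.unusedSectionVars false

namespace Pool.Agent.KneserBridge

open MeasureTheory Set Filter Topology
open scoped InnerProductSpace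

variable {E H : Type*} [NormedAddCommGroup E] [InnerProductSpace ℝ E] [FiniteDimensional ℝ E]
  [MeasurableSpace E] [BorelSpace E] [NormedAddCommGroup H] [InnerProductSpace ℝ H]
  [FiniteDimensional ℝ H] [MeasurableSpace H] [BorelSpace H] {n : ℕ}

theorem integral_PP (D : Dat) (x : Fin n → E) (r : Fin n → H) {lam : ℝ} (h : 0 < lam) :
    ∫ w, D.F x r w * (PP lam w * ex lam w) =
      (∫ w, D.main x r lam w) / 2 + (∫ w, D.err x r lam w) / 2 := by
  rw [integral_F_PP D x r h, integral_one D x r h]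

private theorem mvt_MonoErr {Φ Φ' : ℝ → ℝ} {lam0 lam1 B : ℝ} (h1 : lam0 ≤ lam1)
    (hd : ∀ lam, lam0 ≤ lam → lam ≤ lam1 → HasDerivAt Φ (Φ' lam) lam)
    (hB : ∀ lam, lam0 ≤ lam → lam ≤ lam1 → Φ' lam ≤ B) :
    Φ lam1 - Φ lam0 ≤ B * (lam1 - lam0) := by
  refine (convex_Icc lam0 lam1).image_sub_le_mul_sub_of_deriv_le (f := Φ) (C := B)
    (fun l hl => (hd l hl.1 hl.2).continuousAt.continuousWithinAt)
    (fun l hl => ?_) (fun l hl => ?_) lam0 (left_mem_Icc.2 h1) lam1 (right_mem_Icc.2 h1) h1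
  · have hl' := interior_subset hl
    exact (hd l hl'.1 hl'.2).differentiableAt.differentiableWithinAt
  · have hl' := interior_subset hl
    rw [(hd l hl'.1 hl'.2).deriv]
    exact hB l hl'.1 hl'.2

private theorem om'_MonoErr (D : Dat) (x : Fin n → E) (r : Fin n → H) {lam : ℝ} (h : 0 < lam) :
    ∫ w, D.F x r w * om' lam w =
      lam ^ (((Module.finrank ℝ E : ℝ) + (Module.finrank ℝ H : ℝ)) / 2 - 1) *
        ((∫ w, D.main x r lam w) / 2 + (∫ w, D.err x r lam w) / 2) := by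
  rw [← integral_PP D x r h, ← integral_const_mul]
  refine integral_congr_ae (Eventually.of_forall fun w => ?_)
  simp only [om']
  ring

private theorem g_nonpos_MonoErr (D : Dat) (x : Fin n → E) (r : Fin n → H) (i j : Fin n)
    (w : E × E × H) : D.g x r i j w ≤ 0 := by
  unfold Dat.g
  exact mul_nonpos_of_nonpos_of_nonneg (D.k'neg _)
    (mul_nonneg_of_nonpos_of_nonpos (D.bneg _) (D.bneg _))

private theorem zz_nonneg_MonoErr (w : E × E × H) : 0 ≤ zz w := by
  unfold zz
  positivity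

private theorem ex_nonneg_MonoErr (lam : ℝ) (w : E × E × H) : 0 ≤ ex lam w := by
  unfold ex
  positivity

private theorem main_nonpos_MonoErr (D : Dat) (x : Fin n → E) (r : Fin n → H)
    (hx : ∀ i j, ‖x i - x j‖ ≤ ‖r i - r j‖) (lam : ℝ) (w : E × E × H) :
    D.main x r lam w ≤ 0 := by
  unfold Dat.main
  refine mul_nonpos_of_nonpos_of_nonneg (mul_nonpos_of_nonneg_of_nonpos (zz_nonneg_MonoErr w) ?_)
    (ex_nonneg_MonoErr lam w)
  refine Finset.sum_nonpos fun i _ => Finset.sum_nonpos fun j _ => ?_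
  refine mul_nonpos_of_nonneg_of_nonpos ?_ (g_nonpos_MonoErr D x r i j w)
  have h1 := pow_le_pow_left₀ (norm_nonneg _) (hx i j) 2
  linarith

private theorem main_nonneg_MonoErr (D : Dat) (x : Fin n → E) (r : Fin n → H)
    (hx : ∀ i j, ‖r i - r j‖ ≤ ‖x i - x j‖) (lam : ℝ) (w : E × E × H) :
    0 ≤ D.main x r lam w := by
  unfold Dat.main
  refine mul_nonneg (mul_nonneg (zz_nonneg_MonoErr w) ?_) (ex_nonneg_MonoErr lam w)
  refine Finset.sum_nonneg fun i _ => Finset.sum_nonneg fun j _ => ?_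
  refine mul_nonneg_of_nonpos_of_nonpos ?_ (g_nonpos_MonoErr D x r i j w)
  have h1 := pow_le_pow_left₀ (norm_nonneg _) (hx i j) 2
  linarith

private theorem err_abs_MonoErr (D : Dat) (x : Fin n → E) (r : Fin n → H) (lam : ℝ) :
    |∫ w, D.err x r lam w| ≤ ∫ w, |D.err x r lam w| :=
  abs_integral_le_integral_abs

theorem mono_err_q (x : Fin n → E) (r : Fin n → H) (hx : ∀ i j, ‖x i - x j‖ ≤ ‖r i - r j‖)
    {lam0 lam1 : ℝ} (h0 : 0 < lam0) (h1 : lam0 ≤ lam1) :
    ∃ C c : ℝ, 0 ≤ C ∧ 0 < c ∧ ∀ D : Dat,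
      (∫ w, D.F x r w * om lam1 w) - (∫ w, D.F x r w * om lam0 w) ≤
        C * ∫ w : E × E × H, (1 + zz w) * Real.exp (-c * qq w) *
          |∑ i, vv x r i w * D.f x r i w| := by
  obtain ⟨C, c, hC, hc, hE⟩ := err_le x r h0 h1
  refine ⟨C / 2 * (lam1 - lam0), c, mul_nonneg (by positivity) (by linarith), hc, fun D => ?_⟩
  have hm := mvt_MonoErr (Φ := fun l => ∫ w, D.F x r w * om l w)
    (Φ' := fun l => ∫ w, D.F x r w * om' l w)
    (B := C / 2 * ∫ w : E × E × H, (1 + zz w) * Real.exp (-c * qq w) *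
          |∑ i, vv x r i w * D.f x r i w|) h1
    (fun l hl _ => hasDerivAt_JF D x r (h0.trans_le hl)) (fun l hl hl' => ?_)
  · refine hm.trans (le_of_eq ?_)
    ring
  · have hlp : 0 < l := h0.trans_le hl
    rw [om'_MonoErr D x r hlp]
    have h2 := hE D l hl hl'
    have h3 : ∫ w, D.main x r l w ≤ 0 := integral_nonpos fun w => main_nonpos_MonoErr D x r hx l w
    have h4 := err_abs_MonoErr D x r l
    have h5 := le_abs_self (∫ w, D.err x r l w)
    have h6 : (∫ w, D.main x r l w) / 2 + (∫ w, D.err x r l w) / 2 ≤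
        (∫ w, |D.err x r l w|) / 2 := by linarith
    have h7 : (0 : ℝ) ≤
        l ^ (((Module.finrank ℝ E : ℝ) + (Module.finrank ℝ H : ℝ)) / 2 - 1) := by positivity
    refine (mul_le_mul_of_nonneg_left h6 h7).trans ?_
    rw [mul_div_assoc', div_mul_eq_mul_div]
    exact div_le_div_of_nonneg_right h2 (by norm_num)

theorem mono_err_p (x : Fin n → E) (r : Fin n → H) (hx : ∀ i j, ‖r i - r j‖ ≤ ‖x i - x j‖)
    {lam0 lam1 : ℝ} (h0 : 0 < lam0) (h1 : lam0 ≤ lam1) :
    ∃ C c : ℝ, 0 ≤ C ∧ 0 < c ∧ ∀ D : Dat,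
      (∫ w, D.F x r w * om lam0 w) - (∫ w, D.F x r w * om lam1 w) ≤
        C * ∫ w : E × E × H, (1 + zz w) * Real.exp (-c * qq w) *
          |∑ i, vv x r i w * D.f x r i w| := by
  obtain ⟨C, c, hC, hc, hE⟩ := err_le x r h0 h1
  refine ⟨C / 2 * (lam1 - lam0), c, mul_nonneg (by positivity) (by linarith), hc, fun D => ?_⟩
  have hm := mvt_MonoErr (Φ := fun l => -∫ w, D.F x r w * om l w)
    (Φ' := fun l => -∫ w, D.F x r w * om' l w)
    (B := C / 2 * ∫ w : E × E × H, (1 + zz w) * Real.exp (-c * qq w) *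
          |∑ i, vv x r i w * D.f x r i w|) h1
    (fun l hl _ => (hasDerivAt_JF D x r (h0.trans_le hl)).neg) (fun l hl hl' => ?_)
  · refine (le_of_eq ?_).trans (hm.trans (le_of_eq ?_)) <;> ring
  · have hlp : 0 < l := h0.trans_le hl
    rw [om'_MonoErr D x r hlp]
    have h2 := hE D l hl hl'
    have h3 : 0 ≤ ∫ w, D.main x r l w := integral_nonneg fun w => main_nonneg_MonoErr D x r hx l w
    have h4 := err_abs_MonoErr D x r l
    have h5 := neg_abs_le (∫ w, D.err x r l w)
    have h6 : -((∫ w, D.main x r l w) / 2 + (∫ w, D.err x r l w) / 2) ≤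
        (∫ w, |D.err x r l w|) / 2 := by linarith
    have h7 : (0 : ℝ) ≤
        l ^ (((Module.finrank ℝ E : ℝ) + (Module.finrank ℝ H : ℝ)) / 2 - 1) := by positivity
    rw [← mul_neg]
    refine (mul_le_mul_of_nonneg_left h6 h7).trans ?_
    rw [mul_div_assoc', div_mul_eq_mul_div]
    exact div_le_div_of_nonneg_right h2 (by norm_num)

end Pool.Agent.KneserBridge
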