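import Pool.Agent.KneserBridge.Defs

/-!
# Calculus of polynomially bounded functions

All statements are elementary: `qq w ≥ 0`, `1 + qq w ≥ 1`; enlarge constants and exponents
(`‖η‖ ≤ 1 + qq w` etc.).
-/

set_option autoImplicit false
set_option linter.unusedSectionVars false

namespace Pool.Agent.KneserBridge

open MeasureTheory Set Filter Topology
open scoped InnerProductSpace

variable {E H : Type*} [NormedAddCommGroup E] [InnerProductSpace ℝ E] [FiniteDimensional ℝ E]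
  [MeasurableSpace E] [BorelSpace E] [NormedAddCommGroup H] [InnerProductSpace ℝ H]
  [FiniteDimensional ℝ H] [MeasurableSpace H] [BorelSpace H] {n : ℕ}

theorem qq_nonneg (w : E × E × H) : 0 ≤ qq w := by
  unfold qq; positivity

private theorem one_le_Pol (w : E × E × H) : 1 ≤ 1 + qq w := by linarith [qq_nonneg w]

private theorem mono_Pol (C : ℝ) (k l : ℕ) (w : E × E × H) :
    C * (1 + qq w) ^ k ≤ |C| * (1 + qq w) ^ (k + l) := by
  have h1 := one_le_Pol w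
  calc C * (1 + qq w) ^ k ≤ |C| * (1 + qq w) ^ k :=
        mul_le_mul_of_nonneg_right (le_abs_self C) (by positivity)
    _ ≤ |C| * (1 + qq w) ^ (k + l) :=
        mul_le_mul_of_nonneg_left (pow_le_pow_right₀ h1 (by omega)) (abs_nonneg C)

theorem pol_const (a : ℝ) : Pol (fun _ : E × E × H => a) :=
  ⟨|a|, 0, fun w => by rw [pow_zero, mul_one]⟩

theorem pol_add {f g : E × E × H → ℝ} (hf : Pol f) (hg : Pol g) : Pol (fun w => f w + g w) := by
  obtain ⟨C, k, hC⟩ := hf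
  obtain ⟨D, l, hD⟩ := hg
  refine ⟨|C| + |D|, k + l, fun w => ?_⟩
  have h1 := (hC w).trans (mono_Pol C k l w)
  have h2 := (hD w).trans (mono_Pol D l k w)
  rw [add_comm l k] at h2
  calc |f w + g w| ≤ |f w| + |g w| := abs_add_le _ _
    _ ≤ |C| * (1 + qq w) ^ (k + l) + |D| * (1 + qq w) ^ (k + l) := add_le_add h1 h2
    _ = _ := by ring

theorem pol_mul {f g : E × E × H → ℝ} (hf : Pol f) (hg : Pol g) : Pol (fun w => f w * g w) := by
  obtain ⟨C, k, hC⟩ := hf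
  obtain ⟨D, l, hD⟩ := hg
  refine ⟨C * D, k + l, fun w => ?_⟩
  rw [abs_mul]
  calc |f w| * |g w| ≤ (C * (1 + qq w) ^ k) * (D * (1 + qq w) ^ l) :=
        mul_le_mul (hC w) (hD w) (abs_nonneg _) ((abs_nonneg _).trans (hC w))
    _ = _ := by rw [pow_add]; ring

theorem pol_sum {ι : Type*} (s : Finset ι) {f : ι → E × E × H → ℝ} (hf : ∀ i ∈ s, Pol (f i)) :
    Pol (fun w => ∑ i ∈ s, f i w) := by
  classical
  induction s using Finset.induction_on with
  | empty => simpa using pol_const (E := E) (H := H) 0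
  | insert a s ha ih =>
    have h1 := pol_add (hf a (Finset.mem_insert_self a s))
      (ih fun i hi => hf i (Finset.mem_insert_of_mem hi))
    refine (congrArg Pol (funext fun w => ?_)).mp h1
    rw [Finset.sum_insert ha]

theorem pol_of_bound {f : E × E × H → ℝ} {C : ℝ} (hf : ∀ w, |f w| ≤ C) : Pol f :=
  ⟨C, 0, fun w => by rw [pow_zero, mul_one]; exact hf w⟩

private theorem pol_lin_Pol {f : E × E × H → ℝ} {C : ℝ} (hf : ∀ w, |f w| ≤ C * (1 + qq w)) :
    Pol f :=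
  ⟨C, 1, fun w => by rw [pow_one]; exact hf w⟩

theorem pol_zz : Pol (zz : E × E × H → ℝ) := by
  refine pol_lin_Pol (C := 1) fun w => ?_
  unfold zz qq
  rw [abs_of_nonneg (by positivity), one_mul]
  nlinarith [sq_nonneg ‖w.1‖, sq_nonneg ‖w.2.2‖]

theorem pol_xx : Pol (xx : E × E × H → ℝ) := by
  refine pol_lin_Pol (C := 1) fun w => ?_
  unfold xx qq
  rw [abs_of_nonneg (by positivity), one_mul]
  nlinarith [sq_nonneg ‖w.1‖, sq_nonneg ‖w.2.1‖]

private theorem norm_Pol {t q : ℝ} (h : t ^ 2 ≤ q) : t ≤ 1 + q := by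
  nlinarith [sq_nonneg (t - 1)]

private theorem fst_Pol (w : E × E × H) : ‖w.1‖ ^ 2 ≤ qq w := by
  unfold qq
  nlinarith [sq_nonneg ‖w.2.1‖, sq_nonneg ‖w.2.2‖]

private theorem snd_Pol (w : E × E × H) : ‖w.2.1‖ ^ 2 ≤ qq w := by
  unfold qq
  nlinarith [sq_nonneg ‖w.1‖, sq_nonneg ‖w.2.2‖]

private theorem thd_Pol (w : E × E × H) : ‖w.2.2‖ ^ 2 ≤ qq w := by
  unfold qq
  nlinarith [sq_nonneg ‖w.1‖, sq_nonneg ‖w.2.1‖]

/-- Inner products of components with fixed vectors. -/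
theorem pol_inner_fst (u a : E) : Pol (fun w : E × E × H => ⟪w.1 - a, u⟫_ℝ) := by
  refine pol_lin_Pol (C := (1 + ‖a‖) * ‖u‖) fun w => ?_
  have h1 := abs_real_inner_le_norm (w.1 - a) u
  have h2 : ‖w.1 - a‖ ≤ (1 + ‖a‖) * (1 + qq w) := by
    have h3 := norm_sub_le w.1 a
    have h4 := norm_Pol (fst_Pol w)
    nlinarith [norm_nonneg a, qq_nonneg w, mul_nonneg (norm_nonneg a) (qq_nonneg w)]
  calc |⟪w.1 - a, u⟫_ℝ| ≤ ‖w.1 - a‖ * ‖u‖ := h1
    _ ≤ (1 + ‖a‖) * (1 + qq w) * ‖u‖ := mul_le_mul_of_nonneg_right h2 (norm_nonneg _)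
    _ = _ := by ring

theorem pol_inner_snd (u : E) : Pol (fun w : E × E × H => ⟪w.2.1, u⟫_ℝ) := by
  refine pol_lin_Pol (C := ‖u‖) fun w => ?_
  calc |⟪w.2.1, u⟫_ℝ| ≤ ‖w.2.1‖ * ‖u‖ := abs_real_inner_le_norm _ _
    _ ≤ (1 + qq w) * ‖u‖ := mul_le_mul_of_nonneg_right (norm_Pol (snd_Pol w)) (norm_nonneg _)
    _ = _ := by ring

theorem pol_inner_thd (u : H) : Pol (fun w : E × E × H => ⟪w.2.2, u⟫_ℝ) := by
  refine pol_lin_Pol (C := ‖u‖) fun w => ?_
  calc |⟪w.2.2, u⟫_ℝ| ≤ ‖w.2.2‖ * ‖u‖ := abs_real_inner_le_norm _ _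
    _ ≤ (1 + qq w) * ‖u‖ := mul_le_mul_of_nonneg_right (norm_Pol (thd_Pol w)) (norm_nonneg _)
    _ = _ := by ring

theorem pol_vv (x : Fin n → E) (r : Fin n → H) (i : Fin n) : Pol (vv x r i) := by
  have h1 : Pol (fun w : E × E × H => ‖w.1 - x i‖ ^ 2) := by
    refine pol_lin_Pol (C := 2 + 2 * ‖x i‖ ^ 2) fun w => ?_
    rw [abs_of_nonneg (by positivity)]
    have h2 := norm_sub_le w.1 (x i)
    have h3 := fst_Pol w
    have h4 := norm_nonneg (w.1 - x i)
    have h5 : ‖w.1 - x i‖ ^ 2 ≤ (‖w.1‖ + ‖x i‖) ^ 2 := by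
      exact pow_le_pow_left₀ h4 h2 2
    nlinarith [sq_nonneg (‖w.1‖ - ‖x i‖), qq_nonneg w,
      mul_nonneg (sq_nonneg ‖x i‖) (qq_nonneg w)]
  have h2 := pol_add (pol_add (pol_add h1 pol_zz)
    (pol_mul (pol_const (-2)) (pol_inner_thd (E := E) (r i)))) (pol_const (-‖r i‖ ^ 2))
  refine (congrArg Pol (funext fun w => ?_)).mp h2
  unfold vv
  ring

theorem pol_dv (x : Fin n → E) (r : Fin n → H) (i : Fin n) (u : E × E × H) :
    Pol (fun w => dv x r i w u) := by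
  have h2 := pol_add (pol_add (pol_mul (pol_const 2) (pol_inner_fst (H := H) u.1 (x i)))
    (pol_mul (pol_const 2) (pol_inner_snd (H := H) u.2.1))) (pol_const (-2 * ⟪u.2.2, r i⟫_ℝ))
  refine (congrArg Pol (funext fun w => ?_)).mp h2
  unfold dv
  ring

end Pool.Agent.KneserBridge
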