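import Pool.Agent.KneserBridge.PolS
import Pool.Agent.KneserBridge.DivLin

/-!
# The Gaussian factor

PROOF. `pols_ex`: chain rule with `pols_zz`, `pols_xx` (`HasDerivAt.exp`), `0 < ex ≤ 1`.
`smth_of_pols`: the derivatives, linearity and continuity are those of
`pols_mul hP (pols_mul (pols_ex h) hΦ)`; the two `Rap` statements follow from `rap_of_support`:
`P * (ex * Φ) = (P * Φ) * ex`, and
`P' (ex Φ) + P (dex Φ + ex Φ') = (P' Φ + P (-(2 lam (..)) Φ + Φ')) * ex`, both polynomially bounded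
and zero where `1 < v l` for all `l`.
-/

set_option autoImplicit false
set_option linter.unusedSectionVars false

namespace Pool.Agent.KneserBridge

open MeasureTheory Set Filter Topology
open scoped InnerProductSpace

variable {E H : Type*} [NormedAddCommGroup E] [InnerProductSpace ℝ E] [FiniteDimensional ℝ E]
  [MeasurableSpace E] [BorelSpace E] [NormedAddCommGroup H] [InnerProductSpace ℝ H]
  [FiniteDimensional ℝ H] [MeasurableSpace H] [BorelSpace H] {n : ℕ}

/-- The differential of `ex lam`. -/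
noncomputable def dex (lam : ℝ) (w u : E × E × H) : ℝ :=
  -(2 * lam * (⟪w.2.1, u.2.1⟫_ℝ + ⟪w.2.2, u.2.2⟫_ℝ)) * ex lam w

private theorem ex_le_one_PolEx {lam : ℝ} (h : 0 < lam) (w : E × E × H) : |ex lam w| ≤ 1 := by
  unfold ex
  rw [abs_of_pos (Real.exp_pos _)]
  refine Real.exp_le_one_iff.2 ?_
  have h1 : 0 ≤ zz w + xx w := by
    unfold zz xx
    positivity
  have h2 := mul_nonneg h.le h1
  linarith

private theorem pol_lin_PolEx (lam : ℝ) (u : E × E × H) :
    Pol fun w : E × E × H => -(2 * lam * (⟪w.2.1, u.2.1⟫_ℝ + ⟪w.2.2, u.2.2⟫_ℝ)) := by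
  have h2 := pol_mul (pol_const (-(2 * lam))) (pol_add (pol_inner_snd (H := H) u.2.1)
    (pol_inner_thd (E := E) u.2.2))
  refine (congrArg Pol (funext fun w => ?_)).mp h2
  ring

theorem pols_ex {lam : ℝ} (h : 0 < lam) : PolS (ex lam : E × E × H → ℝ) (dex lam) where
  hd w u := by
    have h1 : HasDerivAt (fun t : ℝ => zz (w + t • u)) (2 * ⟪w.2.1, u.2.1⟫_ℝ) 0 := pols_zz.hd w u
    have h2 : HasDerivAt (fun t : ℝ => xx (w + t • u)) (2 * ⟪w.2.2, u.2.2⟫_ℝ) 0 := pols_xx.hd w u
    have h3 := ((h1.add h2).const_mul (-lam)).exp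
    have h4 : HasDerivAt (fun t : ℝ => ex lam (w + t • u)) (dex lam w u) 0 := by
      refine h3.congr_deriv ?_
      simp only [Pi.add_apply, zero_smul, add_zero]
      unfold dex ex
      ring
    exact h4
  lin w := by
    constructor
    · intro u v
      simp only [dex, Prod.snd_add, Prod.fst_add, inner_add_right]
      ring
    · intro c u
      change -(2 * lam * (⟪w.2.1, c • u.2.1⟫_ℝ + ⟪w.2.2, c • u.2.2⟫_ℝ)) * ex lam w =
        c * (-(2 * lam * (⟪w.2.1, u.2.1⟫_ℝ + ⟪w.2.2, u.2.2⟫_ℝ)) * ex lam w)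
      rw [inner_smul_right, inner_smul_right]
      ring
  cP := by
    unfold ex
    exact Real.continuous_exp.comp (continuous_const.mul (pols_zz.cP.add pols_xx.cP))
  cP' u := by
    have h1 : Continuous (ex lam : E × E × H → ℝ) := by
      unfold ex
      exact Real.continuous_exp.comp (continuous_const.mul (pols_zz.cP.add pols_xx.cP))
    unfold dex
    refine Continuous.mul ?_ h1
    fun_prop
  pP := pol_of_bound (ex_le_one_PolEx h)
  pP' u := pol_mul (pol_lin_PolEx lam u) (pol_of_bound (ex_le_one_PolEx h))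

theorem smth_of_pols (x : Fin n → E) (r : Fin n → H) {lam : ℝ} (h : 0 < lam)
    {P Φ : E × E × H → ℝ} {P' Φ' : E × E × H → E × E × H → ℝ}
    (hP : PolS P P') (hΦ : PolS Φ Φ') (h0 : ∀ w, (∀ l, 1 < vv x r l w) → Φ w = 0)
    (h1 : ∀ w, (∀ l, 1 < vv x r l w) → ∀ u, Φ' w u = 0) :
    Smth (fun w => P w * (ex lam w * Φ w))
      (fun w u => P' w u * (ex lam w * Φ w) + P w * (dex lam w u * Φ w + ex lam w * Φ' w u)) := by
  have hx := pols_mul hP (pols_mul (pols_ex (E := E) (H := H) h) hΦ)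
  refine ⟨hx.hd, hx.lin, hx.cP, hx.cP', ?_, fun u => ?_⟩
  · have h2 := rap_of_support x r h (pol_mul hP.pP hΦ.pP) (fun w hw => by rw [h0 w hw, mul_zero])
    refine (congrArg Rap (funext fun w => ?_)).mp h2
    ring
  · have h3 := pol_add (pol_mul (hP.pP' u) hΦ.pP) (pol_mul hP.pP
      (pol_add (pol_mul (pol_lin_PolEx lam u) hΦ.pP) (hΦ.pP' u)))
    have h2 := rap_of_support x r h h3 (fun w hw => by
      rw [h0 w hw, h1 w hw u]
      ring)
    refine (congrArg Rap (funext fun w => ?_)).mp h2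
    unfold dex
    ring

end Pool.Agent.KneserBridge
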