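import Pool.Agent.KneserBridge.Pol

/-!
# Differentiable polynomially bounded functions

PROOF. `HasLineDerivAt ℝ P P' w u` unfolds to `HasDerivAt (fun t => P (w + t • u)) P' 0`.
`pols_mul`: product rule (`HasDerivAt.mul`, simplify at `t = 0`); `pols_zz`: `t ↦ ‖ζ + t u‖²` is
`‖ζ‖² + 2 t ⟪ζ, u⟫ + t² ‖u‖²` (or `HasDerivAt.norm_sq` / `HasDerivAt.inner`); `pols_vv` from the
same computation with `η - x i`. Linearity is `inner_add_right`, `inner_smul_right` and `ring`;
continuity by `fun_prop` after unfolding; bounds from the file `Pol`.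
-/

set_option autoImplicit false
set_option linter.unusedSectionVars false

namespace Pool.Agent.KneserBridge

open MeasureTheory Set Filter Topology
open scoped InnerProductSpace

variable {E H : Type*} [NormedAddCommGroup E] [InnerProductSpace ℝ E] [FiniteDimensional ℝ E]
  [MeasurableSpace E] [BorelSpace E] [NormedAddCommGroup H] [InnerProductSpace ℝ H]
  [FiniteDimensional ℝ H] [MeasurableSpace H] [BorelSpace H] {n : ℕ}

/-- `P` is differentiable with directional derivatives `P' w u`, everything polynomially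
bounded. -/
structure PolS (P : E × E × H → ℝ) (P' : E × E × H → E × E × H → ℝ) : Prop where
  hd : ∀ w u, HasLineDerivAt ℝ P (P' w u) w u
  lin : ∀ w, IsLinearMap ℝ (P' w)
  cP : Continuous P
  cP' : ∀ u, Continuous fun w => P' w u
  pP : Pol P
  pP' : ∀ u, Pol fun w => P' w u

theorem pols_const (a : ℝ) : PolS (fun _ : E × E × H => a) (fun _ _ => 0) where
  hd := fun w u => hasDerivAt_const (0 : ℝ) a
  lin := fun w => ⟨fun _ _ => by simp, fun _ _ => by simp⟩
  cP := continuous_const
  cP' := fun _ => continuous_const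
  pP := pol_const a
  pP' := fun _ => pol_const 0

theorem pols_add {P Q : E × E × H → ℝ} {P' Q' : E × E × H → E × E × H → ℝ}
    (hP : PolS P P') (hQ : PolS Q Q') :
    PolS (fun w => P w + Q w) (fun w u => P' w u + Q' w u) where
  hd := fun w u => HasDerivAt.add (hP.hd w u) (hQ.hd w u)
  lin := fun w => ⟨fun u v => by rw [(hP.lin w).map_add, (hQ.lin w).map_add]; ring,
    fun c u => by
      rw [(hP.lin w).map_smul, (hQ.lin w).map_smul]
      simp only [smul_eq_mul]
      ring⟩
  cP := hP.cP.add hQ.cP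
  cP' := fun u => (hP.cP' u).add (hQ.cP' u)
  pP := pol_add hP.pP hQ.pP
  pP' := fun u => pol_add (hP.pP' u) (hQ.pP' u)

theorem pols_smul {P : E × E × H → ℝ} {P' : E × E × H → E × E × H → ℝ} (a : ℝ)
    (hP : PolS P P') : PolS (fun w => a * P w) (fun w u => a * P' w u) where
  hd := fun w u => HasDerivAt.const_mul a (hP.hd w u)
  lin := fun w => ⟨fun u v => by rw [(hP.lin w).map_add]; ring,
    fun c u => by
      rw [(hP.lin w).map_smul]
      simp only [smul_eq_mul]
      ring⟩
  cP := continuous_const.mul hP.cP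
  cP' := fun u => continuous_const.mul (hP.cP' u)
  pP := pol_mul (pol_const a) hP.pP
  pP' := fun u => pol_mul (pol_const a) (hP.pP' u)

theorem pols_sub {P Q : E × E × H → ℝ} {P' Q' : E × E × H → E × E × H → ℝ}
    (hP : PolS P P') (hQ : PolS Q Q') :
    PolS (fun w => P w - Q w) (fun w u => P' w u - Q' w u) := by
  have h := pols_add hP (pols_smul (-1) hQ)
  have e1 : (fun w => P w + -1 * Q w) = fun w => P w - Q w := by
    funext w
    ring
  have e2 : (fun w u => P' w u + -1 * Q' w u) = fun w u => P' w u - Q' w u := by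
    funext w u
    ring
  rwa [e1, e2] at h

theorem pols_mul {P Q : E × E × H → ℝ} {P' Q' : E × E × H → E × E × H → ℝ}
    (hP : PolS P P') (hQ : PolS Q Q') :
    PolS (fun w => P w * Q w) (fun w u => P' w u * Q w + P w * Q' w u) where
  hd := fun w u => by
    have h := HasDerivAt.mul (hP.hd w u) (hQ.hd w u)
    simp only [zero_smul, add_zero] at h
    exact h
  lin := fun w => ⟨fun u v => by rw [(hP.lin w).map_add, (hQ.lin w).map_add]; ring,
    fun c u => by
      rw [(hP.lin w).map_smul, (hQ.lin w).map_smul]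
      simp only [smul_eq_mul]
      ring⟩
  cP := hP.cP.mul hQ.cP
  cP' := fun u => ((hP.cP' u).mul hQ.cP).add (hP.cP.mul (hQ.cP' u))
  pP := pol_mul hP.pP hQ.pP
  pP' := fun u => pol_add (pol_mul (hP.pP' u) hQ.pP) (pol_mul hP.pP (hQ.pP' u))

private theorem sq_PolS {W : Type*} [NormedAddCommGroup W] [InnerProductSpace ℝ W] (a b : W) :
    HasDerivAt (fun t : ℝ => ‖a + t • b‖ ^ 2) (2 * ⟪a, b⟫_ℝ) 0 := by
  have h1 : ∀ t : ℝ, ‖a + t • b‖ ^ 2 = ‖a‖ ^ 2 + (2 * ⟪a, b⟫_ℝ) * t + ‖b‖ ^ 2 * t ^ 2 := by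
    intro t
    rw [norm_add_sq_real, real_inner_smul_right, norm_smul, mul_pow, Real.norm_eq_abs, sq_abs]
    ring
  simp only [h1]
  have h2 := (((hasDerivAt_id (0 : ℝ)).const_mul (2 * ⟪a, b⟫_ℝ)).const_add (‖a‖ ^ 2)).add
    (((hasDerivAt_id (0 : ℝ)).pow 2).const_mul (‖b‖ ^ 2))
  exact h2.congr_deriv (by simp)

theorem pols_zz : PolS (zz : E × E × H → ℝ) (fun w u => 2 * ⟪w.2.1, u.2.1⟫_ℝ) where
  hd := fun w u => sq_PolS w.2.1 u.2.1
  lin := fun w => ⟨fun u v => by
      rw [Prod.snd_add, Prod.fst_add, inner_add_right]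
      ring,
    fun c u => by
      rw [Prod.smul_snd, Prod.smul_fst, real_inner_smul_right, smul_eq_mul]
      ring⟩
  cP := by
    unfold zz
    fun_prop
  cP' := fun u => by fun_prop
  pP := pol_zz
  pP' := fun u => pol_mul (pol_const 2) (pol_inner_snd _)

theorem pols_xx : PolS (xx : E × E × H → ℝ) (fun w u => 2 * ⟪w.2.2, u.2.2⟫_ℝ) where
  hd := fun w u => sq_PolS w.2.2 u.2.2
  lin := fun w => ⟨fun u v => by
      rw [Prod.snd_add, Prod.snd_add, inner_add_right]
      ring,
    fun c u => by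
      rw [Prod.smul_snd, Prod.smul_snd, real_inner_smul_right, smul_eq_mul]
      ring⟩
  cP := by
    unfold xx
    fun_prop
  cP' := fun u => by fun_prop
  pP := pol_xx
  pP' := fun u => pol_mul (pol_const 2) (pol_inner_thd _)

theorem pols_vv (x : Fin n → E) (r : Fin n → H) (i : Fin n) :
    PolS (vv x r i) (dv x r i) where
  hd := fun w u => by
    have h1 := sq_PolS (w.1 - x i) u.1
    have h2 := sq_PolS w.2.1 u.2.1
    have h3 : HasDerivAt (fun t : ℝ => 2 * ⟪(w + t • u).2.2, r i⟫_ℝ) (2 * ⟪u.2.2, r i⟫_ℝ) 0 := by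
      have h4 : ∀ t : ℝ, 2 * ⟪(w + t • u).2.2, r i⟫_ℝ =
          2 * ⟪w.2.2, r i⟫_ℝ + (2 * ⟪u.2.2, r i⟫_ℝ) * t := by
        intro t
        rw [Prod.snd_add, Prod.snd_add, Prod.smul_snd, Prod.smul_snd, inner_add_left,
          real_inner_smul_left]
        ring
      simp only [h4]
      have h5 := ((hasDerivAt_id (0 : ℝ)).const_mul (2 * ⟪u.2.2, r i⟫_ℝ)).const_add
        (2 * ⟪w.2.2, r i⟫_ℝ)
      simpa using h5
    have h6 := ((h1.add h2).sub h3).sub_const (‖r i‖ ^ 2)
    have h7 : ∀ t : ℝ, (w + t • u).1 - x i = w.1 - x i + t • u.1 := by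
      intro t
      rw [Prod.fst_add, Prod.smul_fst]
      abel
    show HasDerivAt (fun t : ℝ => ‖(w + t • u).1 - x i‖ ^ 2 + zz (w + t • u) -
      2 * ⟪(w + t • u).2.2, r i⟫_ℝ - ‖r i‖ ^ 2) (dv x r i w u) 0
    simp only [h7]
    exact h6
  lin := fun w => ⟨fun u v => by
      unfold dv
      simp only [Prod.fst_add, Prod.snd_add, inner_add_right, inner_add_left]
      ring,
    fun c u => by
      unfold dv
      simp only [Prod.smul_fst, Prod.smul_snd, real_inner_smul_right, real_inner_smul_left,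
        smul_eq_mul]
      ring⟩
  cP := by
    unfold vv zz
    fun_prop
  cP' := fun u => by
    unfold dv
    fun_prop
  pP := pol_vv x r i
  pP' := fun u => pol_dv x r i u

end Pool.Agent.KneserBridge
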