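import Pool.Agent.KneserBridge.Pol
import Pool.Agent.KneserBridge.Dom
import Pool.Agent.KneserBridge.DomB

/-!
# Calculus of rapidly decreasing functions

`rap_of_support`: split on `∃ l, vv x r l w ≤ 1` and use `ex_le_of_vv` with `lam0 = lam`. The other
statements are elementary (`exp (-c q)` decreases in `c` for `q ≥ 0`).
-/

set_option autoImplicit false
set_option linter.unusedSectionVars false

namespace Pool.Agent.KneserBridge

open MeasureTheory Set Filter Topology
open scoped InnerProductSpace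

variable {E H : Type*} [NormedAddCommGroup E] [InnerProductSpace ℝ E] [FiniteDimensional ℝ E]
  [MeasurableSpace E] [BorelSpace E] [NormedAddCommGroup H] [InnerProductSpace ℝ H]
  [FiniteDimensional ℝ H] [MeasurableSpace H] [BorelSpace H] {n : ℕ}

private theorem rapid_zero_le {g : E × E × H → ℝ} {C c : ℝ} {k : ℕ}
    (hg : ∀ w, |g w| ≤ C * (1 + qq w) ^ k * Real.exp (-c * qq w)) : 0 ≤ C := by
  have h1 := hg (0, 0, 0)
  have h2 : qq ((0, 0, 0) : E × E × H) = 0 := by simp [qq]
  rw [h2] at h1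
  simp only [add_zero, one_pow, mul_one, mul_zero, Real.exp_zero] at h1
  exact (abs_nonneg _).trans h1

private theorem rapid_zero_le_pol {g : E × E × H → ℝ} {C : ℝ} {k : ℕ}
    (hg : ∀ w, |g w| ≤ C * (1 + qq w) ^ k) : 0 ≤ C := by
  have h1 := hg (0, 0, 0)
  have h2 : qq ((0, 0, 0) : E × E × H) = 0 := by simp [qq]
  rw [h2] at h1
  simp only [add_zero, one_pow, mul_one] at h1
  exact (abs_nonneg _).trans h1

theorem rap_of_support (x : Fin n → E) (r : Fin n → H) {lam : ℝ} (h : 0 < lam)
    {g : E × E × H → ℝ} (hg : Pol g) (hs : ∀ w, (∀ l, 1 < vv x r l w) → g w = 0) :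
    Rap (fun w => g w * ex lam w) := by
  obtain ⟨Cg, k, hgk⟩ := hg
  have hCg := rapid_zero_le_pol hgk
  obtain ⟨C, c, hC, hc, hex⟩ := ex_le_of_vv x r h
  refine ⟨Cg * C, c, hc, k, fun w => ?_⟩
  have hq := qq_nonneg w
  by_cases hw : ∃ l, vv x r l w ≤ 1
  · have h1 := hex lam le_rfl w hw
    have h2 : 0 ≤ ex lam w := (Real.exp_pos _).le
    simp only [abs_mul, abs_of_nonneg h2]
    calc |g w| * ex lam w ≤ (Cg * (1 + qq w) ^ k) * (C * Real.exp (-c * qq w)) :=
          mul_le_mul (hgk w) h1 h2 (by positivity)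
      _ = Cg * C * (1 + qq w) ^ k * Real.exp (-c * qq w) := by ring
  · push Not at hw
    simp only [hs w hw, zero_mul, abs_zero]
    positivity

theorem rap_mul_pol {f g : E × E × H → ℝ} (hf : Rap f) (hg : Pol g) :
    Rap (fun w => f w * g w) := by
  obtain ⟨C, c, hc, k, hfk⟩ := hf
  obtain ⟨C', k', hgk⟩ := hg
  have hC := rapid_zero_le hfk
  refine ⟨C * C', c, hc, k + k', fun w => ?_⟩
  have hq := qq_nonneg w
  simp only [abs_mul]
  calc |f w| * |g w| ≤ (C * (1 + qq w) ^ k * Real.exp (-c * qq w)) * (C' * (1 + qq w) ^ k') :=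
        mul_le_mul (hfk w) (hgk w) (abs_nonneg _) (by positivity)
    _ = C * C' * (1 + qq w) ^ (k + k') * Real.exp (-c * qq w) := by
        rw [pow_add]
        ring

private theorem rapid_mono {C c c' q : ℝ} {k k' : ℕ} (hC : 0 ≤ C) (hq : 0 ≤ q) (hc : c' ≤ c)
    (hk : k ≤ k') : C * (1 + q) ^ k * Real.exp (-c * q) ≤
      C * (1 + q) ^ k' * Real.exp (-c' * q) := by
  have h1 : (1 + q) ^ k ≤ (1 + q) ^ k' := pow_le_pow_right₀ (by linarith) hk
  have h2 : Real.exp (-c * q) ≤ Real.exp (-c' * q) := by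
    apply Real.exp_le_exp.mpr
    have := mul_le_mul_of_nonneg_right hc hq
    linarith
  exact mul_le_mul (mul_le_mul_of_nonneg_left h1 hC) h2 (Real.exp_pos _).le (by positivity)

theorem rap_add {f g : E × E × H → ℝ} (hf : Rap f) (hg : Rap g) :
    Rap (fun w => f w + g w) := by
  obtain ⟨C, c, hc, k, hfk⟩ := hf
  obtain ⟨C', c', hc', k', hgk⟩ := hg
  have hC := rapid_zero_le hfk
  have hC' := rapid_zero_le hgk
  refine ⟨C + C', min c c', lt_min hc hc', max k k', fun w => ?_⟩
  have hq := qq_nonneg w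
  have h1 := rapid_mono hC hq (min_le_left c c') (le_max_left k k')
  have h2 := rapid_mono hC' hq (min_le_right c c') (le_max_right k k')
  calc |f w + g w| ≤ |f w| + |g w| := abs_add_le _ _
    _ ≤ C * (1 + qq w) ^ max k k' * Real.exp (-min c c' * qq w) +
        C' * (1 + qq w) ^ max k k' * Real.exp (-min c c' * qq w) :=
        add_le_add ((hfk w).trans h1) ((hgk w).trans h2)
    _ = (C + C') * (1 + qq w) ^ max k k' * Real.exp (-min c c' * qq w) := by ring

theorem rap_sum {ι : Type*} (s : Finset ι) {f : ι → E × E × H → ℝ} (hf : ∀ i ∈ s, Rap (f i)) :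
    Rap (fun w => ∑ i ∈ s, f i w) := by
  classical
  induction s using Finset.induction_on with
  | empty =>
    refine ⟨0, 1, one_pos, 0, fun w => ?_⟩
    simp
  | insert a s ha ih =>
    have h1 := rap_add (hf a (Finset.mem_insert_self a s))
      (ih fun i hi => hf i (Finset.mem_insert_of_mem hi))
    have h2 : (fun w => ∑ i ∈ insert a s, f i w) = fun w => f a w + ∑ i ∈ s, f i w := by
      funext w
      rw [Finset.sum_insert ha]
    rw [h2]
    exact h1

theorem rap_of_le {f g : E × E × H → ℝ} (hf : Rap f) (hg : ∀ w, |g w| ≤ |f w|) : Rap g := by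
  obtain ⟨C, c, hc, k, hfk⟩ := hf
  exact ⟨C, c, hc, k, fun w => (hg w).trans (hfk w)⟩

end Pool.Agent.KneserBridge
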