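import Pool.Agent.KneserBridge.MonoErr
import Pool.Agent.KneserBridge.LimF
import Pool.Agent.KneserBridge.LimErr

/-!
# Monotonicity of the limit functional

PROOF. Take `D k` from `exists_dat`, pass to the limit in `mono_err_q`, `mono_err_p` with
`tendsto_JF`, `tendsto_err` (`le_of_tendsto_of_tendsto'`).
-/

set_option autoImplicit false
set_option linter.unusedSectionVars false

namespace Pool.Agent.KneserBridge

open MeasureTheory Set Filter Topology
open scoped InnerProductSpace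

variable {E H : Type*} [NormedAddCommGroup E] [InnerProductSpace ℝ E] [FiniteDimensional ℝ E]
  [MeasurableSpace E] [BorelSpace E] [NormedAddCommGroup H] [InnerProductSpace ℝ H]
  [FiniteDimensional ℝ H] [MeasurableSpace H] [BorelSpace H] {n : ℕ}

theorem JJ_anti (x : Fin n → E) (r : Fin n → H) (hx : ∀ i j, ‖x i - x j‖ ≤ ‖r i - r j‖)
    (m : ℝ) {lam0 lam1 : ℝ} (h0 : 0 < lam0) (h1 : lam0 ≤ lam1) :
    JJ x r m lam1 ≤ JJ x r m lam0 := by
  obtain ⟨C0, -, hC⟩ := exists_dat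
  choose D hD1 hD2 hD3 hD4 hD5 using hC m
  obtain ⟨C, c, -, hc, hm⟩ := mono_err_q x r hx h0 h1
  have t1 := (tendsto_JF x r m (h0.trans_le h1) D hD1 hD2).sub (tendsto_JF x r m h0 D hD1 hD2)
  have t2 := (tendsto_err x r hc D hD3 hD4 hD5).const_mul C
  have := le_of_tendsto_of_tendsto' t1 t2 fun k => hm (D k)
  linarith

theorem JJ_mono (x : Fin n → E) (r : Fin n → H) (hx : ∀ i j, ‖r i - r j‖ ≤ ‖x i - x j‖)
    (m : ℝ) {lam0 lam1 : ℝ} (h0 : 0 < lam0) (h1 : lam0 ≤ lam1) :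
    JJ x r m lam0 ≤ JJ x r m lam1 := by
  obtain ⟨C0, -, hC⟩ := exists_dat
  choose D hD1 hD2 hD3 hD4 hD5 using hC m
  obtain ⟨C, c, -, hc, hm⟩ := mono_err_p x r hx h0 h1
  have t1 := (tendsto_JF x r m h0 D hD1 hD2).sub (tendsto_JF x r m (h0.trans_le h1) D hD1 hD2)
  have t2 := (tendsto_err x r hc D hD3 hD4 hD5).const_mul C
  have := le_of_tendsto_of_tendsto' t1 t2 fun k => hm (D k)
  linarith

end Pool.Agent.KneserBridge
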